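import Pool.Agent.Work.MP_8b6acb_ti.Tot3

/-!
# One side of the value, path form: general statewise bound, and the reversed form (helper55)
-/

namespace R5

open Finset T7

variable {α : Type} [DecidableEq α]

/-- From a bound for every T-state to the T side. -/
theorem side_total (τ : Finset α → Lab) (D : Finset α) (ρ : Finset α → α → ℝ)
    (mk : Finset α → Finset α) (h0 : τ ∅ = Lab.A) (hD : τ D = Lab.B)
    (lw : Finset α → List α → ℝ)
    (h : ∀ W ⊆ D, W.Nonempty → τ W = Lab.B → Av W (lw W) ≤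
      Av W (fun π => TS τ D ρ mk W π - Real.log (D.card : ℝ) * ∑ k ∈ range W.card, iE τ π k)) :
    Av D (fun π => ∑ j ∈ Ioc (kN τ π) D.card, lw (pre π j) (π.take j)) ≤
    ((D.card : ℝ) + 1) * (SGc (dual τ D) D ρ mk - Real.log (D.card : ℝ) * PEL (dual τ D) D) := by
  have h0' : τ ∅ ≠ Lab.B := by rw [h0]; decide
  rw [TForm τ D ρ mk h0, PEL_eq]
  have hl : (0 : ℝ) < (D.card : ℝ) + 1 := by positivity
  have e1 : ((D.card : ℝ) + 1) *
      ((∑ W ∈ D.powerset, bw τ D W / (D.card.choose W.card : ℝ) * Av W (TS τ D ρ mk W)) /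
        ((D.card : ℝ) + 1) - Real.log (D.card : ℝ) *
      ((∑ W ∈ D.powerset, bw τ D W / (D.card.choose W.card : ℝ) *
        Av W (fun π => ∑ k ∈ range W.card, iE τ π k)) / ((D.card : ℝ) + 1))) =
      ∑ W ∈ D.powerset, bw τ D W / (D.card.choose W.card : ℝ) *
        (Av W (TS τ D ρ mk W) - Real.log (D.card : ℝ) *
          Av W (fun π => ∑ k ∈ range W.card, iE τ π k)) := by
    simp only [mul_sub, sum_sub_distrib]
    field_simp
    congr 1
    rw [mul_sum]
    refine sum_congr rfl fun W _ => by ring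
  have e2 : Av D (fun π => ∑ j ∈ Ioc (kN τ π) D.card, lw (pre π j) (π.take j)) =
      Av D (fun π => ∑ j ∈ range (D.card + 1), iB τ π j * lw (pre π j) (π.take j)) :=
    Av_congr fun π hπ => (sum_iB h0' hD hπ (fun j => lw (pre π j) (π.take j))).symm
  rw [e1, e2, ← sum_bw τ D lw]
  refine sum_le_sum fun W hW => ?_
  rw [mem_powerset] at hW
  by_cases hB : τ W = Lab.B
  · apply mul_le_mul_of_nonneg_left _ (div_nonneg (bw_nonneg _ _ _) (Nat.cast_nonneg _))
    have hne : W.Nonempty := by
      rw [nonempty_iff_ne_empty]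
      rintro rfl
      rw [h0] at hB
      exact absurd hB (by decide)
    have h2 := h W hW hne hB
    rw [Av_sub, Av_mul] at h2
    exact h2
  · rw [bw_of_ne hW hB, zero_div, zero_mul, zero_mul]

/-! ### the reversed form -/

theorem pre_reverse {D : Finset α} {π : List α} (hπ : π ∈ seqs D.card D) {j : ℕ}
    (hj : j ≤ D.card) : pre π.reverse j = D \ pre π (D.card - j) := by
  have hl := length_of_mem hπ
  have h1 := (mem_seqs_card.1 (drop_mem hπ (D.card - j))).2
  rw [← h1]
  unfold pre
  rw [List.take_reverse, hl, List.toFinset_reverse]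

theorem dual_flip (τ : Finset α → Lab) (D U : Finset α) : dual τ D U = (τ (D \ U)).flip := rfl

theorem allA_dual {τ : Finset α → Lab} {D : Finset α} {π : List α} (hπ : π ∈ seqs D.card D)
    {i : ℕ} (hi : i ≤ D.card) :
    allA (dual τ D) π.reverse i ↔ allB τ π (D.card - i) := by
  have hl := length_of_mem hπ
  unfold allA allB
  constructor
  · intro h k hk
    rw [mem_Icc, hl] at hk
    have h1 := h (D.card - k) (by rw [mem_range]; omega)
    rw [pre_reverse hπ (by omega), dual_flip, flip_eq_A,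
      Finset.sdiff_sdiff_eq_self (pre_subset_of_mem hπ _)] at h1
    have e : D.card - (D.card - k) = k := by omega
    rwa [e] at h1
  · intro h k hk
    rw [mem_range] at hk
    rw [pre_reverse hπ (by omega), dual_flip, flip_eq_A,
      Finset.sdiff_sdiff_eq_self (pre_subset_of_mem hπ _)]
    exact h (D.card - k) (by rw [mem_Icc, hl]; omega)

theorem allB_dual {τ : Finset α → Lab} {D : Finset α} {π : List α} (hπ : π ∈ seqs D.card D)
    {j : ℕ} (hj : j ≤ D.card) :
    allB (dual τ D) π.reverse j ↔ allA τ π (D.card - j) := by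
  have hl := length_of_mem hπ
  unfold allA allB
  constructor
  · intro h k hk
    rw [mem_range] at hk
    have h1 := h (D.card - k) (by rw [mem_Icc, List.length_reverse, hl]; omega)
    rw [pre_reverse hπ (by omega), dual_flip, flip_eq_B,
      Finset.sdiff_sdiff_eq_self (pre_subset_of_mem hπ _)] at h1
    have e : D.card - (D.card - k) = k := by omega
    rwa [e] at h1
  · intro h k hk
    rw [mem_Icc, List.length_reverse, hl] at hk
    rw [pre_reverse hπ (by omega), dual_flip, flip_eq_B,
      Finset.sdiff_sdiff_eq_self (pre_subset_of_mem hπ _)]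
    exact h (D.card - k) (by rw [mem_range]; omega)

theorem reverse_mem {D : Finset α} {π : List α} (hπ : π ∈ seqs D.card D) :
    π.reverse ∈ seqs D.card D := by
  rw [mem_seqs_card] at hπ ⊢
  exact ⟨List.nodup_reverse.2 hπ.1, by rw [List.toFinset_reverse, hπ.2]⟩

section path

variable {τ : Finset α → Lab} {D : Finset α} {π : List α}

theorem kA_dual (h0 : τ ∅ = Lab.A) (hD : τ D = Lab.B) (hπ : π ∈ seqs D.card D) :
    kA (dual τ D) π.reverse = D.card - 1 - kN τ π := by
  have h0' : τ ∅ ≠ Lab.B := by rw [h0]; decide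
  have hlt := kN_lt h0' hD hπ
  have d0 : dual τ D ∅ = Lab.A := by rw [dual_flip, sdiff_empty, hD]; rfl
  have dD : dual τ D D ≠ Lab.A := by rw [dual_flip, sdiff_self, bot_eq_empty, h0]; decide
  have key : ∀ i ≤ D.card, (i ≤ kA (dual τ D) π.reverse ↔ i ≤ D.card - 1 - kN τ π) := by
    intro i hi
    rw [← allA_iff d0 dD (reverse_mem hπ), allA_dual hπ hi, allB_iff h0' hD hπ]
    omega
  have h1 := kA_lt d0 dD (reverse_mem hπ)
  have h2 := (key _ h1.le).1 le_rfl
  have h3 := (key (D.card - 1 - kN τ π) (by omega)).2 le_rfl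
  omega

theorem kN_dual (h0 : τ ∅ = Lab.A) (hD : τ D = Lab.B) (hπ : π ∈ seqs D.card D) :
    kN (dual τ D) π.reverse = D.card - 1 - kA τ π := by
  have hD' : τ D ≠ Lab.A := by rw [hD]; decide
  have hlt := kA_lt h0 hD' hπ
  have d0 : dual τ D ∅ ≠ Lab.B := by rw [dual_flip, sdiff_empty, hD]; decide
  have dD : dual τ D D = Lab.B := by rw [dual_flip, sdiff_self, bot_eq_empty, h0]; rfl
  have key : ∀ j ≤ D.card, (kN (dual τ D) π.reverse < j ↔ D.card - 1 - kA τ π < j) := by
    intro j hj
    rw [← allB_iff d0 dD (reverse_mem hπ), allB_dual hπ hj, allA_iff h0 hD' hπ]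
    omega
  have h1 := kN_lt d0 dD (reverse_mem hπ)
  have h2 := (key D.card le_rfl).1 h1
  by_contra hne
  rcases lt_or_gt_of_ne hne with h | h
  · have := (key _ (by omega)).1 (Nat.lt_succ_self (kN (dual τ D) π.reverse))
    omega
  · have := (key (D.card - 1 - kA τ π + 1) (by omega)).2 (Nat.lt_succ_self _)
    omega

end path

/-- the S side through the dual type -/
theorem SGc_dual_dual (τ : Finset α → Lab) (D : Finset α) (ρ : Finset α → α → ℝ)
    (mk : Finset α → Finset α) : SGc (dual (dual τ D) D) D ρ mk = SGc τ D ρ mk := by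
  have hd : ∀ U ⊆ D, dual (dual τ D) D U = τ U := fun U hU => dual_dual hU
  have hfw : ∀ U ⊆ D, fw (dual (dual τ D) D) U = fw τ U := fun U hU =>
    fw_congr fun X hX => hd X (hX.trans hU)
  have hbw : ∀ U, bw (dual (dual τ D) D) D U = bw τ D U := by
    intro U
    unfold bw
    exact fw_congr fun X hX => dual_dual (τ := dual τ D) (hX.trans sdiff_subset)
  have hisE : ∀ V ⊆ D, ∀ x ∈ D \ V, (isE (dual (dual τ D) D) V x ↔ isE τ V x) := by
    intro V hV x hx
    unfold isE
    rw [hd V hV, hd _ (insert_subset (mem_sdiff.1 hx).1 hV)]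
  have hpe : ∀ X ⊆ D, ∀ V ⊆ D, ∀ x ∈ D \ V,
      pe (dual (dual τ D) D) D X V x = pe τ D X V x := by
    intro X hX V hV x hx
    unfold pe
    simp only [hisE V hV x hx, hfw X hX, hbw]
  have hpe1 : ∀ X ⊆ D, ∀ V ⊆ D, ∀ x ∈ D \ V,
      pe1 (dual (dual τ D) D) D X V x = pe1 τ D X V x := by
    intro X hX V hV x hx
    unfold pe1
    simp only [hisE V hV x hx, hfw X hX]
  have hbwb : ∀ V, bwb (dual (dual τ D) D) D V = bwb τ D V := by
    intro V
    unfold bwb
    simp only [hbw]
  have hpv : ∀ X ⊆ D, ∀ V ⊆ D, pv (dual (dual τ D) D) D X V = pv τ D X V := by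
    intro X hX V hV
    unfold pv
    simp only [hd V hV, hfw X hX, hbwb]
  have hpv1 : ∀ X ⊆ D, ∀ V ⊆ D, pv1 (dual (dual τ D) D) D X V = pv1 τ D X V := by
    intro X hX V hV
    unfold pv1
    simp only [hd V hV, hfw X hX]
  have hecn : ∀ (c : Finset α → ℝ) (n : ℕ) (U : Finset α), U ⊆ D →
      ecn (dual (dual τ D) D) D c n U = ecn τ D c n U := by
    intro c n
    induction n with
    | zero => intro U _; rfl
    | succ n ih =>
      intro U hU
      rw [ecn_succ, ecn_succ, hd U hU, hbw]
      have : ∑ x ∈ D \ U, ecn (dual (dual τ D) D) D c n (insert x U) =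
          ∑ x ∈ D \ U, ecn τ D c n (insert x U) :=
        sum_congr rfl fun x hx => ih _ (insert_subset (mem_sdiff.1 hx).1 hU)
      rw [this]
  have hec : ∀ (c : Finset α → ℝ) (U : Finset α), U ⊆ D →
      ec (dual (dual τ D) D) D c U = ec τ D c U := fun c U hU => hecn c _ U hU
  have hev : ∀ (c : Finset α → ℝ) (U : Finset α), U ⊆ D →
      ev (dual (dual τ D) D) D c U = ev τ D c U := by
    intro c U hU
    unfold ev
    rw [hbwb]
    have : ∑ x ∈ D \ U, ec (dual (dual τ D) D) D c (insert x U) =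
        ∑ x ∈ D \ U, ec τ D c (insert x U) :=
      sum_congr rfl fun x hx => hec c _ (insert_subset (mem_sdiff.1 hx).1 hU)
    rw [this]
  unfold SGc
  refine sum_congr rfl fun X hX => ?_
  rw [mem_powerset] at hX
  congr 1
  · congr 1
    · refine sum_congr rfl fun g hg => ?_
      congr 1
      unfold PP1
      refine sum_congr rfl fun V hV => ?_
      rw [mem_powerset, subset_erase] at hV
      exact hpe X hX V hV.1 g (mem_sdiff.2 ⟨(mem_sdiff.1 hg).1, hV.2⟩)
    · refine sum_congr rfl fun V hV => sum_congr rfl fun x hx => ?_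
      rw [mem_powerset] at hV
      rw [hpe X hX V hV x hx, hpe1 X hX V hV x hx,
        hec _ _ (insert_subset (mem_sdiff.1 hx).1 hV)]
  · refine sum_congr rfl fun V hV => ?_
    rw [mem_powerset] at hV
    rw [hpv X hX V hV, hpv1 X hX V hV, hev _ V hV]

theorem PEL_dual_dual (τ : Finset α → Lab) (D : Finset α) :
    PEL (dual (dual τ D) D) D = PEL τ D := by
  have hd : ∀ U ⊆ D, dual (dual τ D) D U = τ U := fun U hU => dual_dual hU
  unfold PEL
  refine sum_congr rfl fun V hV => sum_congr rfl fun x hx => ?_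
  rw [mem_powerset] at hV
  have hx' := mem_sdiff.1 hx
  have h1 : isE (dual (dual τ D) D) V x ↔ isE τ V x := by
    unfold isE
    rw [hd V hV, hd _ (insert_subset hx'.1 hV)]
  have h2 : aw (dual (dual τ D) D) V = aw τ V :=
    aw_congr fun U hU => hd U (hU.trans hV)
  have h3 : bw (dual (dual τ D) D) D (insert x V) = bw τ D (insert x V) := by
    unfold bw
    exact fw_congr fun X hX => dual_dual (τ := dual τ D) (hX.trans sdiff_subset)
  unfold yLe
  simp only [h1, h2, h3]

/-- From a bound for every S-state (T-state of the dual type) to the S side: apply `side_total` to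
`dual τ D`. -/
theorem side_total_S (τ : Finset α → Lab) (D : Finset α) (ρ : Finset α → α → ℝ)
    (mk : Finset α → Finset α) (h0 : τ ∅ = Lab.A) (hD : τ D = Lab.B)
    (lw : Finset α → List α → ℝ)
    (h : ∀ W ⊆ D, W.Nonempty → dual τ D W = Lab.B → Av W (lw W) ≤
      Av W (fun π => TS (dual τ D) D ρ mk W π -
        Real.log (D.card : ℝ) * ∑ k ∈ range W.card, iE (dual τ D) π k)) :
    Av D (fun π => ∑ j ∈ range (kA τ π + 1), lw (D \ pre π j) ((π.drop j).reverse)) ≤
    ((D.card : ℝ) + 1) * (SGc τ D ρ mk - Real.log (D.card : ℝ) * PEL τ D) := by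
  have hD' : τ D ≠ Lab.A := by rw [hD]; decide
  have d0 : dual τ D ∅ = Lab.A := by rw [dual_flip, sdiff_empty, hD]; rfl
  have dD : dual τ D D = Lab.B := by rw [dual_flip, sdiff_self, bot_eq_empty, h0]; rfl
  have h1 := side_total (dual τ D) D ρ mk d0 dD lw h
  rw [SGc_dual_dual, PEL_dual_dual] at h1
  refine le_trans (le_of_eq ?_) h1
  rw [← Av_reverse D (fun π => ∑ j ∈ Ioc (kN (dual τ D) π) D.card, lw (pre π j) (π.take j))]
  refine Av_congr fun π hπ => ?_
  rw [kN_dual h0 hD hπ]
  have hlt := kA_lt h0 hD' hπ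
  refine sum_bij' (fun j _ => D.card - j) (fun j _ => D.card - j) ?_ ?_ ?_ ?_ ?_
  · intro j hj
    rw [mem_range] at hj
    rw [mem_Ioc]
    omega
  · intro j hj
    rw [mem_Ioc] at hj
    rw [mem_range]
    omega
  · intro j hj
    rw [mem_range] at hj
    omega
  · intro j hj
    rw [mem_Ioc] at hj
    omega
  · intro j hj
    rw [mem_range] at hj
    rw [pre_reverse hπ (by omega), List.take_reverse, length_of_mem hπ]
    have e : D.card - (D.card - j) = j := by omega
    rw [e]

end R5
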