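import Pool.Agent.Work.MP_8b6acb_ti.CT0
import Pool.Agent.Work.MP_8b6acb_ti.Side

/-!
# The two sides in path form with the credit of CT0' (helper55)
-/

namespace R5

open Finset T7

variable {α : Type} [DecidableEq α]

theorem lamn_nonneg' (j : ℕ) : 0 ≤ lamn j := by
  rcases Nat.lt_or_ge j 2 with h | h
  · interval_cases j
    · unfold lamn; simp
    · unfold lamn; simp
  · exact (lamn_pos h).le

theorem Lam_nonneg (K l : ℕ) : 0 ≤ Lam K l := sum_nonneg fun _ _ => lamn_nonneg' _

/-- lower bound of one T-state with the credit of CT0' -/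
noncomputable def low0 (τ : Finset α → Lab) (l : ℕ) (W : Finset α) (π : List α) : ℝ :=
  low τ l W π + lamn W.card * ∑ k ∈ range W.card, iE τ π k * n0 τ W π k

theorem low0_le (τ : Finset α → Lab) {D W : Finset α} (ρ : Finset α → α → ℝ)
    (mk : Finset α → Finset α) (h0 : τ ∅ = Lab.A) (hmk : ∀ U, mk U = ∅)
    (hρ : ∀ X ⊆ D, ∀ g ∈ D \ X, 0 < ρ X g ∧ ρ X g ≤ 1) (hW : W ⊆ D) (hne : W.Nonempty)
    (hB : τ W = Lab.B) :
    Av W (low0 τ D.card W) ≤ Av W (fun π => TS τ D ρ mk W π -
      Real.log (D.card : ℝ) * ∑ k ∈ range W.card, iE τ π k) := by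
  have hDD : D \ (D \ W) = W := Finset.sdiff_sdiff_eq_self hW
  have h7 := CT0_Av τ (ρ (D \ W)) W h0 (by rw [hB]; decide) (card_pos.2 hne)
    (fun x hx => hρ (D \ W) sdiff_subset x (by rw [hDD]; exact hx))
  have h8 : Av W (fun π => ∑ i ∈ range W.card,
      iA τ π i * cc W.card (AL τ W (pre π i)).card (W.card - i)) =
      Av W (fun π => ∑ i ∈ range W.card, iA τ π i * (gg W.card (AL τ W (pre π i)).card -
        gg (W.card - 1) (AL τ (pre π (W.card - 1)) (pre π i)).card)) := by
    rw [Av_sum, Av_sum]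
    refine sum_congr rfl fun i hi => ?_
    exact charge_g τ W (mem_range.1 hi)
  rw [h8] at h7
  have h9 : Av W (fun π => TS τ D ρ mk W π -
      Real.log (D.card : ℝ) * ∑ k ∈ range W.card, iE τ π k) =
      (Real.log (W.card : ℝ) - Real.log (D.card : ℝ)) *
        Av W (fun π => ∑ k ∈ range W.card, iE τ π k) + Av W (cst τ (ρ (D \ W)) W) := by
    rw [← Av_mul, ← Av_add]
    refine Av_congr fun π hπ => ?_
    rw [TS_unmarked τ ρ mk hW hmk hπ]
    ring
  have h10 : Av W (low0 τ D.card W) = lamn W.card * Av W (fun π =>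
      ∑ k ∈ range W.card, iE τ π k * (((W.card : ℝ) - 1 - k) + n0 τ W π k)) +
      (Real.log (W.card : ℝ) - Real.log (D.card : ℝ)) *
        Av W (fun π => ∑ k ∈ range W.card, iE τ π k) -
      Av W (fun π => ∑ i ∈ range W.card, iA τ π i * (gg W.card (AL τ W (pre π i)).card -
        gg (W.card - 1) (AL τ (pre π (W.card - 1)) (pre π i)).card)) := by
    rw [← Av_mul, ← Av_mul, ← Av_add, ← Av_sub]
    refine Av_congr fun π _ => ?_
    unfold low0 low
    have : ∑ k ∈ range W.card, iE τ π k * (((W.card : ℝ) - 1 - k) + n0 τ W π k) =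
        ∑ k ∈ range W.card, iE τ π k * ((W.card : ℝ) - 1 - k) +
        ∑ k ∈ range W.card, iE τ π k * n0 τ W π k := by
      rw [← sum_add_distrib]
      refine sum_congr rfl fun k _ => by ring
    rw [this]
    ring
  rw [h9, h10]
  linarith

/-- fewer elements, more levels without exit -/
theorem n0_mono (τ : Finset α → Lab) {D : Finset α} {π : List α} (hπ : π ∈ seqs D.card D)
    {j k : ℕ} (hk : k ≤ j) : n0 τ D π k ≤ n0 τ (pre π j) (π.take j) k := by
  unfold n0
  apply sum_le_sum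
  intro i hi
  rw [mem_Icc] at hi
  rw [pre_take (hi.2.trans hk)]
  by_cases h : ∀ x ∈ D \ pre π i, τ (insert x (pre π i)) ≠ Lab.B
  · rw [if_pos h, if_pos]
    intro x hx
    rw [mem_sdiff] at hx
    exact h x (mem_sdiff.2 ⟨pre_subset_of_mem hπ _ hx.1, hx.2⟩)
  · rw [if_neg h]
    split_ifs <;> norm_num

/-- the bound on a path, T side -/
noncomputable def lowT0 (τ : Finset α → Lab) (D : Finset α) (π : List α) : ℝ :=
  iE τ π (kA τ π) * (((kN τ π : ℝ) - kA τ π + n0 τ D π (kA τ π)) * Lam (kN τ π) D.card) -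
    ∑ i ∈ range (kA τ π + 1), (gg D.card (AL τ D (pre π i)).card -
      gg (kN τ π) (AL τ (pre π (kN τ π)) (pre π i)).card)

theorem low0_eval {τ : Finset α → Lab} {D : Finset α} {π : List α} (h0 : τ ∅ = Lab.A)
    (hD : τ D = Lab.B) (hπ : π ∈ seqs D.card D) :
    lowT0 τ D π ≤ ∑ j ∈ Ioc (kN τ π) D.card, low0 τ D.card (pre π j) (π.take j) := by
  have hD' : τ D ≠ Lab.A := by rw [hD]; decide
  have h0' : τ ∅ ≠ Lab.B := by rw [h0]; decide
  have hAN := kA_le_kN h0 hD hπ
  have hNl := kN_lt h0' hD hπ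
  have h1 := low_eval h0 hD hπ
  rw [sum_iB h0' hD hπ] at h1
  have h2 : ∑ j ∈ Ioc (kN τ π) D.card, low0 τ D.card (pre π j) (π.take j) =
      lowP τ D π + ∑ j ∈ Ioc (kN τ π) D.card, lamn j * (iE τ π (kA τ π) *
        n0 τ (pre π j) (π.take j) (kA τ π)) := by
    rw [← h1, ← sum_add_distrib]
    refine sum_congr rfl fun j hj => ?_
    rw [mem_Ioc] at hj
    have hc : (pre π j).card = j := card_pre_of_mem hπ hj.2
    unfold low0
    rw [hc]
    congr 2
    have e1 : ∑ k ∈ range j, iE τ (π.take j) k * n0 τ (pre π j) (π.take j) k =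
        ∑ k ∈ range j, iE τ π k * n0 τ (pre π j) (π.take j) k := by
      refine sum_congr rfl fun k hk => ?_
      rw [mem_range] at hk
      congr 1
      apply iE_congr
      unfold exE
      rw [allA_take hk.le, pre_take hk]
    rw [e1, sum_iE h0 hD' hπ (by omega) (fun k => n0 τ (pre π j) (π.take j) k)]
  rw [h2]
  have h3 : ∑ j ∈ Ioc (kN τ π) D.card, lamn j * (iE τ π (kA τ π) * n0 τ D π (kA τ π)) ≤
      ∑ j ∈ Ioc (kN τ π) D.card, lamn j * (iE τ π (kA τ π) *
        n0 τ (pre π j) (π.take j) (kA τ π)) := by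
    apply sum_le_sum
    intro j hj
    rw [mem_Ioc] at hj
    apply mul_le_mul_of_nonneg_left _ (lamn_nonneg' j)
    exact mul_le_mul_of_nonneg_left (n0_mono τ hπ (by omega)) (iE_nonneg _ _ _)
  rw [← sum_mul] at h3
  unfold lowT0 lowP Lam at *
  nlinarith [h3]

/-- **the T side** with CT0' -/
theorem T_side_path0 (τ : Finset α → Lab) (D : Finset α) (ρ : Finset α → α → ℝ)
    (mk : Finset α → Finset α) (h0 : τ ∅ = Lab.A) (hD : τ D = Lab.B) (hmk : ∀ U, mk U = ∅)
    (hρ : ∀ X ⊆ D, ∀ g ∈ D \ X, 0 < ρ X g ∧ ρ X g ≤ 1) :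
    Av D (lowT0 τ D) ≤
    ((D.card : ℝ) + 1) * (SGc (dual τ D) D ρ mk - Real.log (D.card : ℝ) * PEL (dual τ D) D) := by
  refine le_trans (Av_mono fun π hπ => low0_eval h0 hD hπ) ?_
  exact side_total τ D ρ mk h0 hD (low0 τ D.card)
    (fun W hW hne hB => low0_le τ ρ mk h0 hmk hρ hW hne hB)

/-- live T-lights at `U` -/
def BL (τ : Finset α → Lab) (D U : Finset α) : Finset α :=
  U.filter (fun z => τ (D.erase z) = Lab.A ∧ τ (U.erase z) = Lab.A)

/-- number of levels `K + 1 ≤ j ≤ l - 1` without edge exit downwards -/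
noncomputable def n0S (τ : Finset α → Lab) (D : Finset α) (π : List α) (K : ℕ) : ℝ :=
  ∑ j ∈ Ioo K D.card, if ∀ x ∈ pre π j, τ ((pre π j).erase x) ≠ Lab.A then 1 else 0

/-- the bound on a path, S side -/
noncomputable def lowS0 (τ : Finset α → Lab) (D : Finset α) (π : List α) : ℝ :=
  (if τ (pre π (kN τ π)) = Lab.A then 1 else 0) *
      (((kN τ π : ℝ) - kA τ π + n0S τ D π (kN τ π)) * Lam (D.card - 1 - kA τ π) D.card) -
    ∑ j ∈ Ioc (kN τ π) D.card, (gg D.card (BL τ D (pre π j)).card -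
      gg (D.card - 1 - kA τ π) (BL τ D (pre π j) \ pre π (kA τ π + 1)).card)

theorem lowS0_eq {τ : Finset α → Lab} {D : Finset α} {π : List α} (h0 : τ ∅ = Lab.A)
    (hD : τ D = Lab.B) (hπ : π ∈ seqs D.card D) :
    lowT0 (dual τ D) D π.reverse = lowS0 τ D π := by
  have hD' : τ D ≠ Lab.A := by rw [hD]; decide
  have h0' : τ ∅ ≠ Lab.B := by rw [h0]; decide
  have d0 : dual τ D ∅ = Lab.A := by rw [dual_flip, sdiff_empty, hD]; rfl
  have dD : dual τ D D ≠ Lab.A := by rw [dual_flip, sdiff_self, bot_eq_empty, h0]; decide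
  have hAN := kA_le_kN h0 hD hπ
  have hNl := kN_lt h0' hD hπ
  have hps : ∀ i, pre π i ⊆ D := fun i => pre_subset_of_mem hπ i
  have hflipB : ∀ L : Lab, L.flip = Lab.B ↔ L = Lab.A := by
    intro L
    cases L <;> simp [Lab.flip]
  have hins : ∀ j, ∀ x ∈ pre π j, dual τ D (insert x (D \ pre π j)) = Lab.B ↔
      τ ((pre π j).erase x) = Lab.A := by
    intro j x hx
    rw [dual_flip, hflipB]
    have e : D \ insert x (D \ pre π j) = (pre π j).erase x := by
      ext y
      simp only [mem_sdiff, mem_insert, not_or, not_and, not_not, mem_erase]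
      constructor
      · rintro ⟨h1, h2, h3⟩
        exact ⟨h2, h3 h1⟩
      · rintro ⟨h1, h2⟩
        exact ⟨hps j h2, h1, fun _ => h2⟩
    rw [e]
  unfold lowT0 lowS0
  rw [kA_dual h0 hD hπ, kN_dual h0 hD hπ]
  have hiE : iE (dual τ D) π.reverse (D.card - 1 - kN τ π) =
      if τ (pre π (kN τ π)) = Lab.A then 1 else 0 := by
    refine if_congr ?_ rfl rfl
    unfold exE
    rw [allA_dual hπ (by omega), allB_iff h0' hD hπ, pre_reverse hπ (by omega), dual_flip, hflipB,
      Finset.sdiff_sdiff_eq_self (hps _)]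
    have e : D.card - (D.card - 1 - kN τ π + 1) = kN τ π := by omega
    rw [e]
    constructor
    · exact fun h => h.2
    · exact fun h => ⟨by omega, h⟩
  have hn0 : n0 (dual τ D) D π.reverse (D.card - 1 - kN τ π) = n0S τ D π (kN τ π) := by
    unfold n0 n0S
    refine sum_bij' (fun i _ => D.card - i) (fun j _ => D.card - j) ?_ ?_ ?_ ?_ ?_
    · intro i hi
      rw [mem_Icc] at hi
      rw [mem_Ioo]
      omega
    · intro j hj
      rw [mem_Ioo] at hj
      rw [mem_Icc]
      omega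
    · intro i hi
      rw [mem_Icc] at hi
      omega
    · intro j hj
      rw [mem_Ioo] at hj
      omega
    · intro i hi
      rw [mem_Icc] at hi
      rw [pre_reverse hπ (by omega)]
      refine if_congr ?_ rfl rfl
      rw [Finset.sdiff_sdiff_eq_self (hps _)]
      constructor
      · intro h x hx
        have := h x hx
        rwa [Ne, hins _ x hx] at this
      · intro h x hx
        rw [Ne, hins _ x hx]
        exact h x hx
  have hcast : ((D.card - 1 - kA τ π : ℕ) : ℝ) - ((D.card - 1 - kN τ π : ℕ) : ℝ) =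
      (kN τ π : ℝ) - kA τ π := by
    have e : (D.card - 1 - kA τ π) + kA τ π = (D.card - 1 - kN τ π) + kN τ π := by omega
    have e' : ((D.card - 1 - kA τ π : ℕ) : ℝ) + kA τ π =
        ((D.card - 1 - kN τ π : ℕ) : ℝ) + kN τ π := by exact_mod_cast e
    linarith
  rw [hiE, hn0, hcast]
  congr 1
  refine sum_bij' (fun i _ => D.card - i) (fun j _ => D.card - j) ?_ ?_ ?_ ?_ ?_
  · intro i hi
    rw [mem_range] at hi
    rw [mem_Ioc]
    omega
  · intro j hj
    rw [mem_Ioc] at hj
    rw [mem_range]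
    omega
  · intro i hi
    rw [mem_range] at hi
    omega
  · intro j hj
    rw [mem_Ioc] at hj
    omega
  · intro i hi
    rw [mem_range] at hi
    have hj : D.card - i ≤ D.card := Nat.sub_le _ _
    rw [pre_reverse hπ (show i ≤ D.card by omega),
      pre_reverse hπ (show D.card - 1 - kA τ π ≤ D.card by omega)]
    have e : D.card - (D.card - 1 - kA τ π) = kA τ π + 1 := by omega
    rw [e]
    have e1 : AL (dual τ D) D (D \ pre π (D.card - i)) = BL τ D (pre π (D.card - i)) := by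
      unfold AL BL
      rw [Finset.sdiff_sdiff_eq_self (hps _)]
      refine filter_congr fun z hz => ?_
      rw [hins _ z hz, dual_flip, hflipB, sdiff_singleton_eq_erase]
    have e2 : AL (dual τ D) (D \ pre π (kA τ π + 1)) (D \ pre π (D.card - i)) =
        BL τ D (pre π (D.card - i)) \ pre π (kA τ π + 1) := by
      ext z
      unfold AL BL
      simp only [mem_filter, mem_sdiff, not_and, not_not]
      constructor
      · rintro ⟨⟨⟨h1, h2⟩, h3⟩, h4, h5⟩
        have hz := h3 h1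
        rw [hins _ z hz] at h5
        rw [dual_flip, hflipB, sdiff_singleton_eq_erase] at h4
        exact ⟨⟨hz, h4, h5⟩, h2⟩
      · rintro ⟨⟨h1, h2, h3⟩, h4⟩
        refine ⟨⟨⟨hps _ h1, h4⟩, fun _ => h1⟩, ?_, ?_⟩
        · rw [dual_flip, hflipB, sdiff_singleton_eq_erase]
          exact h2
        · rw [hins _ z h1]
          exact h3
    rw [e1, e2]

/-- **the S side** with CT0' -/
theorem S_side_path0 (τ : Finset α → Lab) (D : Finset α) (ρ : Finset α → α → ℝ)
    (mk : Finset α → Finset α) (h0 : τ ∅ = Lab.A) (hD : τ D = Lab.B) (hmk : ∀ U, mk U = ∅)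
    (hρ : ∀ X ⊆ D, ∀ g ∈ D \ X, 0 < ρ X g ∧ ρ X g ≤ 1) :
    Av D (lowS0 τ D) ≤
    ((D.card : ℝ) + 1) * (SGc τ D ρ mk - Real.log (D.card : ℝ) * PEL τ D) := by
  have d0 : dual τ D ∅ = Lab.A := by rw [dual_flip, sdiff_empty, hD]; rfl
  have dD : dual τ D D = Lab.B := by rw [dual_flip, sdiff_self, bot_eq_empty, h0]; rfl
  have h1 := T_side_path0 (dual τ D) D ρ mk d0 dD hmk hρ
  rw [SGc_dual_dual, PEL_dual_dual] at h1
  refine le_trans (le_of_eq ?_) h1
  rw [← Av_reverse D (lowT0 (dual τ D) D)]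
  exact Av_congr fun π hπ => (lowS0_eq h0 hD hπ).symm

end R5
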