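import Pool.Agent.Work.MP_8b6acb_fq.Basic

/-!
# Averages over the orders of a finite set (helper55)
-/

namespace R5

open Finset

variable {α : Type} [DecidableEq α]

/-- The orders of `G`. -/
theorem mem_seqs_card {G : Finset α} {l : List α} :
    l ∈ seqs G.card G ↔ l.Nodup ∧ l.toFinset = G := by
  constructor
  · intro h
    exact ⟨(mem_seqs.1 h).1, toFinset_eq_of_mem_seqs h⟩
  · rintro ⟨h1, h2⟩
    refine mem_seqs.2 ⟨h1, ?_, ?_⟩
    · rw [← List.toFinset_card_of_nodup h1, h2]
    · intro x hx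
      rw [← h2]
      exact List.mem_toFinset.2 hx

theorem length_of_mem {G : Finset α} {l : List α} (h : l ∈ seqs G.card G) :
    l.length = G.card := (mem_seqs.1 h).2.1

/-- Average over the orders of `G`. -/
noncomputable def Av (G : Finset α) (f : List α → ℝ) : ℝ :=
  (∑ π ∈ seqs G.card G, f π) / (G.card.factorial : ℝ)

theorem Av_congr {G : Finset α} {f f' : List α → ℝ} (h : ∀ π ∈ seqs G.card G, f π = f' π) :
    Av G f = Av G f' := by
  unfold Av
  rw [sum_congr rfl h]

theorem Av_mono {G : Finset α} {f f' : List α → ℝ} (h : ∀ π ∈ seqs G.card G, f π ≤ f' π) :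
    Av G f ≤ Av G f' := by
  unfold Av
  exact div_le_div_of_nonneg_right (sum_le_sum h) (Nat.cast_nonneg _)

theorem Av_const (G : Finset α) (c : ℝ) : Av G (fun _ => c) = c := by
  unfold Av
  rw [sum_const, card_seqs_card, nsmul_eq_mul]
  have : (0 : ℝ) < (G.card.factorial : ℝ) := by exact_mod_cast Nat.factorial_pos _
  field_simp

theorem Av_nonneg {G : Finset α} {f : List α → ℝ} (h : ∀ π ∈ seqs G.card G, 0 ≤ f π) :
    0 ≤ Av G f := by
  unfold Av
  exact div_nonneg (sum_nonneg h) (Nat.cast_nonneg _)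

theorem Av_add (G : Finset α) (f f' : List α → ℝ) :
    Av G (fun π => f π + f' π) = Av G f + Av G f' := by
  unfold Av
  rw [sum_add_distrib, add_div]

theorem Av_sub (G : Finset α) (f f' : List α → ℝ) :
    Av G (fun π => f π - f' π) = Av G f - Av G f' := by
  unfold Av
  rw [sum_sub_distrib, sub_div]

theorem Av_neg (G : Finset α) (f : List α → ℝ) :
    Av G (fun π => -f π) = -Av G f := by
  unfold Av
  rw [sum_neg_distrib, neg_div]

theorem Av_mul (G : Finset α) (c : ℝ) (f : List α → ℝ) :
    Av G (fun π => c * f π) = c * Av G f := by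
  unfold Av
  rw [← mul_sum, mul_div_assoc]

theorem Av_mul_right (G : Finset α) (c : ℝ) (f : List α → ℝ) :
    Av G (fun π => f π * c) = Av G f * c := by
  unfold Av
  rw [← sum_mul, div_mul_eq_mul_div]

theorem Av_div (G : Finset α) (c : ℝ) (f : List α → ℝ) :
    Av G (fun π => f π / c) = Av G f / c := by
  simp only [div_eq_mul_inv]
  exact Av_mul_right G _ f

theorem Av_sum {ι : Type*} (G : Finset α) (s : Finset ι) (f : ι → List α → ℝ) :
    Av G (fun π => ∑ i ∈ s, f i π) = ∑ i ∈ s, Av G (f i) := by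
  unfold Av
  rw [sum_comm, sum_div]

theorem Av_zero (G : Finset α) : Av G (fun _ => 0) = 0 := Av_const G 0

theorem Av_empty (f : List α → ℝ) : Av ∅ f = f [] := by
  unfold Av
  simp [seqs_zero]

/-- first element -/
theorem Av_cons {G : Finset α} (hG : G.Nonempty) (f : List α → ℝ) :
    Av G f = (∑ g ∈ G, Av (G.erase g) (fun π => f (g :: π))) / (G.card : ℝ) := by
  obtain ⟨n, hn⟩ : ∃ n, G.card = n + 1 := Nat.exists_eq_succ_of_ne_zero (card_pos.2 hG).ne'
  have h1 : ∀ g ∈ G, (G.erase g).card = n := fun g hg => by rw [card_erase_of_mem hg, hn]; rfl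
  unfold Av
  rw [hn, sum_seqs_succ, Nat.factorial_succ]
  have h2 : ∀ g ∈ G, (∑ π ∈ seqs (G.erase g).card (G.erase g), f (g :: π)) /
      ((G.erase g).card.factorial : ℝ) = (∑ π ∈ seqs n (G.erase g), f (g :: π)) /
      (n.factorial : ℝ) := by
    intro g hg
    rw [h1 g hg]
  rw [sum_congr rfl h2, ← sum_div, div_div]
  congr 1
  push_cast
  ring

/-- reversal -/
theorem Av_reverse (G : Finset α) (f : List α → ℝ) :
    Av G (fun π => f π.reverse) = Av G f := by
  unfold Av
  congr 1
  refine sum_bij' (fun π _ => π.reverse) (fun π _ => π.reverse) ?_ ?_ ?_ ?_ ?_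
  · intro π hπ
    rw [mem_seqs_card] at hπ ⊢
    exact ⟨List.nodup_reverse.2 hπ.1, by rw [List.toFinset_reverse, hπ.2]⟩
  · intro π hπ
    rw [mem_seqs_card] at hπ ⊢
    exact ⟨List.nodup_reverse.2 hπ.1, by rw [List.toFinset_reverse, hπ.2]⟩
  · intro π _
    exact List.reverse_reverse π
  · intro π _
    exact List.reverse_reverse π
  · intro π _
    rfl

/-- last element -/
theorem Av_snoc {G : Finset α} (hG : G.Nonempty) (f : List α → ℝ) :
    Av G f = (∑ g ∈ G, Av (G.erase g) (fun π => f (π ++ [g]))) / (G.card : ℝ) := by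
  rw [← Av_reverse G f, Av_cons hG]
  congr 1
  refine sum_congr rfl fun g _ => ?_
  rw [← Av_reverse (G.erase g) (fun π => f (π ++ [g]))]
  refine Av_congr fun π _ => ?_
  rw [List.reverse_cons]

/-- splitting at level `k` -/
theorem Av_split (k : ℕ) : ∀ (G : Finset α), k ≤ G.card → ∀ (f : List α → ℝ),
    Av G f = (∑ U ∈ powersetCard k G, Av U (fun π1 => Av (G \ U) (fun π2 => f (π1 ++ π2)))) /
      (G.card.choose k : ℝ) := by
  induction k with
  | zero =>
    intro G _ f
    rw [powersetCard_zero, sum_singleton, Av_empty, sdiff_empty, Nat.choose_zero_right]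
    simp
  | succ k ih =>
    intro G hk f
    have hG : G.Nonempty := card_pos.1 (by omega)
    rw [Av_cons hG]
    have h1 : ∀ g ∈ G, Av (G.erase g) (fun π => f (g :: π)) =
        (∑ U ∈ powersetCard k (G.erase g), Av U (fun π1 => Av ((G.erase g) \ U)
          (fun π2 => f (g :: (π1 ++ π2))))) / ((G.card - 1).choose k : ℝ) := by
      intro g hg
      rw [ih (G.erase g) (by rw [card_erase_of_mem hg]; omega), card_erase_of_mem hg]
    rw [sum_congr rfl h1, ← sum_div, div_div]
    have h2 : ∑ U ∈ powersetCard (k + 1) G, Av U (fun π1 => Av (G \ U)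
        (fun π2 => f (π1 ++ π2))) =
        (∑ g ∈ G, ∑ U ∈ powersetCard k (G.erase g), Av U (fun π1 => Av ((G.erase g) \ U)
          (fun π2 => f (g :: (π1 ++ π2))))) / ((k : ℝ) + 1) := by
      have h3 : ∀ U ∈ powersetCard (k + 1) G, Av U (fun π1 => Av (G \ U)
          (fun π2 => f (π1 ++ π2))) = (∑ g ∈ U, Av (U.erase g) (fun π1 => Av (G \ U)
          (fun π2 => f (g :: (π1 ++ π2))))) / ((k : ℝ) + 1) := by
        intro U hU
        obtain ⟨hU1, hU2⟩ := mem_powersetCard.1 hU
        rw [Av_cons (card_pos.1 (by omega)), hU2]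
        push_cast
        rfl
      rw [sum_congr rfl h3, ← sum_div]
      congr 1
      rw [sum_sigma', sum_sigma']
      refine sum_bij' (fun p _ => (⟨p.2, p.1.erase p.2⟩ : (_ : α) × Finset α))
        (fun p _ => (⟨insert p.1 p.2, p.1⟩ : (_ : Finset α) × α)) ?_ ?_ ?_ ?_ ?_
      · rintro ⟨U, x⟩ h
        simp only [mem_sigma, mem_powersetCard] at h ⊢
        refine ⟨h.1.1 h.2, erase_subset_erase _ h.1.1, ?_⟩
        rw [card_erase_of_mem h.2, h.1.2]
        rfl
      · rintro ⟨x, U⟩ h
        simp only [mem_sigma, mem_powersetCard] at h ⊢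
        have hx : x ∉ U := fun hx => notMem_erase x G (h.2.1 hx)
        refine ⟨⟨insert_subset h.1 (h.2.1.trans (erase_subset _ _)), ?_⟩, mem_insert_self _ _⟩
        rw [card_insert_of_notMem hx, h.2.2]
      · rintro ⟨U, x⟩ h
        simp only [mem_sigma, mem_powersetCard] at h
        simp only [insert_erase h.2]
      · rintro ⟨x, U⟩ h
        simp only [mem_sigma, mem_powersetCard] at h
        have hx : x ∉ U := fun hx => notMem_erase x G (h.2.1 hx)
        simp only [erase_insert hx]
      · rintro ⟨U, x⟩ h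
        simp only [mem_sigma, mem_powersetCard] at h
        have e : (G.erase x) \ (U.erase x) = G \ U := by
          ext y
          simp only [mem_sdiff, mem_erase]
          constructor
          · rintro ⟨⟨h1, h2⟩, h3⟩
            exact ⟨h2, fun h4 => h3 ⟨h1, h4⟩⟩
          · rintro ⟨h1, h2⟩
            exact ⟨⟨fun h3 => h2 (h3 ▸ h.2), h1⟩, fun h3 => h2 h3.2⟩
        simp only [e]
    rw [h2, div_div]
    congr 1
    have h4 : (G.card : ℝ) * ((G.card - 1).choose k : ℝ) =
        ((k : ℝ) + 1) * (G.card.choose (k + 1) : ℝ) := by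
      obtain ⟨n, hn⟩ : ∃ n, G.card = n + 1 := Nat.exists_eq_succ_of_ne_zero (card_pos.2 hG).ne'
      rw [hn, Nat.add_sub_cancel]
      have h5 := Nat.add_one_mul_choose_eq n k
      have h6 : ((n + 1 : ℕ) : ℝ) * (n.choose k : ℝ) =
          ((n + 1).choose (k + 1) : ℝ) * ((k + 1 : ℕ) : ℝ) := by exact_mod_cast h5
      push_cast at h6 ⊢
      linarith
    linarith

/-- splitting a function of the two pieces -/
theorem Av_take_drop {G : Finset α} {k : ℕ} (hk : k ≤ G.card) (F : List α → List α → ℝ) :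
    Av G (fun π => F (π.take k) (π.drop k)) =
      (∑ U ∈ powersetCard k G, Av U (fun π1 => Av (G \ U) (fun π2 => F π1 π2))) /
        (G.card.choose k : ℝ) := by
  rw [Av_split k G hk]
  congr 1
  refine sum_congr rfl fun U hU => ?_
  obtain ⟨hU1, hU2⟩ := mem_powersetCard.1 hU
  refine Av_congr fun π1 h1 => ?_
  have hl : π1.length = k := by rw [length_of_mem h1, hU2]
  refine Av_congr fun π2 _ => ?_
  rw [List.take_left' hl, List.drop_left' hl]

end R5
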