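import Pool.Agent.Work.MP_8b6acb_ti.T7S

/-!
# CT0': the steps (helper55)

`c` = number of credited levels so far (levels without edge exit); the potential is
`lam (n + 1) + (c - 1) (lam - L(s))` for `c ≥ 1`, `s ≤ 1`, and `Phi` otherwise.
-/

namespace R5

namespace T7

open Finset

variable {α : Type} [DecidableEq α]

theorem lamn_pos {m : ℕ} (hm : 2 ≤ m) : 0 < lamn m := by
  have hmr : (2 : ℝ) ≤ m := by exact_mod_cast hm
  unfold lamn
  apply Real.log_pos
  rw [one_lt_div (by linarith)]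
  linarith

theorem lamn_le {m : ℕ} (hm : 2 ≤ m) : lamn m ≤ 1 / ((m : ℝ) - 1) := by
  have hmr : (2 : ℝ) ≤ m := by exact_mod_cast hm
  have hm1 : (0 : ℝ) < (m : ℝ) - 1 := by linarith
  unfold lamn
  have h3 := Real.log_le_sub_one_of_pos (div_pos (show (0 : ℝ) < m by linarith) hm1)
  have h4 : (m : ℝ) / ((m : ℝ) - 1) - 1 = 1 / ((m : ℝ) - 1) := by
    field_simp
    ring
  linarith

theorem le_lamn {m : ℕ} (hm : 2 ≤ m) : 1 / (m : ℝ) ≤ lamn m := by
  have hmr : (2 : ℝ) ≤ m := by exact_mod_cast hm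
  have hm1 : (0 : ℝ) < (m : ℝ) - 1 := by linarith
  have hm0 : (0 : ℝ) < (m : ℝ) := by linarith
  unfold lamn
  have h3 := Real.log_le_sub_one_of_pos (div_pos hm1 hm0)
  have h4 : ((m : ℝ) - 1) / m - 1 = -(1 / (m : ℝ)) := by
    field_simp
    ring
  have h5 : Real.log ((m : ℝ) / ((m : ℝ) - 1)) = -Real.log (((m : ℝ) - 1) / m) := by
    rw [← Real.log_inv, inv_div]
  rw [h5]
  linarith

theorem Lf_one {m : ℕ} (hm : 2 ≤ m) : Lf m 1 = lamn m := by
  have hmr : (2 : ℝ) ≤ m := by exact_mod_cast hm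
  unfold Lf lamn
  rw [← Real.log_inv]
  congr 1
  have : (m : ℝ) - 1 ≠ 0 := by linarith
  field_simp

theorem Lf_zero (m : ℕ) : Lf m 0 = 0 := by
  unfold Lf
  simp

theorem Lf_mono' {m : ℕ} {s t : ℝ} (hst : s ≤ t) (ht : t < m) (hm : (0 : ℝ) < m) :
    Lf m s ≤ Lf m t := by
  unfold Lf
  have h1 : 0 < 1 - t / (m : ℝ) := by
    rw [sub_pos, div_lt_one hm]
    exact ht
  have h2 : 1 - t / (m : ℝ) ≤ 1 - s / (m : ℝ) := by
    have := div_le_div_of_nonneg_right hst hm.le
    linarith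
  have := Real.log_le_log h1 h2
  linarith

theorem Lf_nonneg {m : ℕ} {s : ℝ} (hs : 0 ≤ s) (ht : s < m) : 0 ≤ Lf m s := by
  have := Lf_mono' hs ht (by linarith)
  rwa [Lf_zero] at this

/-- increments grow -/
theorem Lf_convex {m : ℕ} {s y x : ℝ} (hy : y ≤ s) (hx : 0 ≤ x) (hs : s < m) (hm : (0 : ℝ) < m) :
    Lf m (s - x) - Lf m (y - x) ≤ Lf m s - Lf m y := by
  unfold Lf
  have e : ∀ z : ℝ, 1 - z / (m : ℝ) = ((m : ℝ) - z) / m := by
    intro z
    field_simp
  rw [e, e, e, e]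
  have h1 : 0 < (m : ℝ) - s := by linarith
  have h2 : 0 < (m : ℝ) - y := by linarith
  have h3 : 0 < (m : ℝ) - (s - x) := by linarith
  have h4 : 0 < (m : ℝ) - (y - x) := by linarith
  rw [Real.log_div h1.ne' hm.ne', Real.log_div h2.ne' hm.ne', Real.log_div h3.ne' hm.ne',
    Real.log_div h4.ne' hm.ne']
  have h5 : Real.log ((m : ℝ) - (y - x)) + Real.log ((m : ℝ) - s) ≤
      Real.log ((m : ℝ) - (s - x)) + Real.log ((m : ℝ) - y) := by
    rw [← Real.log_mul h4.ne' h1.ne', ← Real.log_mul h3.ne' h2.ne']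
    apply Real.log_le_log (mul_pos h4 h1)
    nlinarith
  linarith

/-- `(m - 1) δ(s) ≤ 1 - s` -/
theorem delta_le {m : ℕ} (hm : 2 ≤ m) {s : ℝ} (hs : s ≤ 1) :
    ((m : ℝ) - 1) * (lamn m - Lf m s) ≤ 1 - s := by
  have hmr : (2 : ℝ) ≤ m := by exact_mod_cast hm
  have hm1 : (0 : ℝ) < (m : ℝ) - 1 := by linarith
  have h1 := Lf_tangent m s 1 (by linarith) (by linarith) (by linarith)
  rw [Lf_one hm] at h1
  have h2 : lamn m - Lf m s ≤ (1 - s) / ((m : ℝ) - 1) := by
    have : (s - 1) / ((m : ℝ) - 1) = -((1 - s) / ((m : ℝ) - 1)) := by ring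
    linarith
  rw [le_div_iff₀ hm1] at h2
  linarith

/-- mass of a set is at most its size -/
theorem mass_le {ρ : α → ℝ} {R : Finset α} (hρ : ∀ x ∈ R, 0 < ρ x ∧ ρ x ≤ 1) :
    ∑ x ∈ R, ρ x ≤ (R.card : ℝ) := by
  have := sum_le_sum (fun x hx => (hρ x hx).2 : ∀ x ∈ R, ρ x ≤ 1)
  rwa [sum_const, nsmul_eq_mul, mul_one] at this

theorem mass_nonneg {ρ : α → ℝ} {R : Finset α} (hρ : ∀ x ∈ R, 0 < ρ x ∧ ρ x ≤ 1) :
    0 ≤ ∑ x ∈ R, ρ x := sum_nonneg fun x hx => (hρ x hx).1.le

theorem Phi_le (m : ℕ) (ρ : α → ℝ) (Λ R : Finset α) (hR : R.card + 1 ≤ m)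
    (hρ : ∀ x ∈ R, 0 < ρ x ∧ ρ x ≤ 1) :
    Phi m ρ Λ R ≤ lamn m * (R.card : ℝ) + Lf m (∑ x ∈ R, ρ x) := by
  unfold Phi
  have h1 : 0 ≤ ∑ h ∈ R \ Λ, ppi m R.card (ρ h) (∑ x ∈ R ∩ Λ, ρ x) :=
    sum_nonneg fun h _ => ppi_nonneg _ _ _ _
  have h2 : ∑ x ∈ R ∩ Λ, ρ x ≤ ∑ x ∈ R, ρ x :=
    sum_le_sum_of_subset_of_nonneg inter_subset_left fun x hx _ => (hρ x hx).1.le
  have h3 := mass_le hρ
  have h4 : (R.card : ℝ) + 1 ≤ m := by exact_mod_cast hR
  have h0 : (0 : ℝ) ≤ R.card := Nat.cast_nonneg _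
  have h5 := Lf_mono' (m := m) h2 (by linarith) (by linarith)
  linarith

/-- the cap -/
noncomputable def Cap (m : ℕ) (ρ : α → ℝ) (c : ℕ) (R : Finset α) : ℝ :=
  lamn m * ((R.card : ℝ) + 1) + ((c : ℝ) - 1) * (lamn m - Lf m (∑ x ∈ R, ρ x))

/-- the potential -/
noncomputable def Psi (m : ℕ) (ρ : α → ℝ) (Λ : Finset α) (c : ℕ) (R : Finset α) : ℝ :=
  if 1 ≤ c ∧ ∑ x ∈ R, ρ x ≤ 1 then Cap m ρ c R else Phi m ρ Λ R

theorem Phi_le_Psi (m : ℕ) (ρ : α → ℝ) (Λ : Finset α) (c : ℕ) (R : Finset α) (hm : 2 ≤ m)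
    (hR : R.card + 1 ≤ m) (hρ : ∀ x ∈ R, 0 < ρ x ∧ ρ x ≤ 1) :
    Phi m ρ Λ R ≤ Psi m ρ Λ c R := by
  unfold Psi
  split_ifs with h
  · have hmr : (2 : ℝ) ≤ m := by exact_mod_cast hm
    have h1 := Phi_le m ρ Λ R hR hρ
    have h2 := Lf_mono' (m := m) h.2 (by linarith) (by linarith)
    rw [Lf_one hm] at h2
    have h3 : (1 : ℝ) ≤ c := by exact_mod_cast h.1
    have h4 : 0 ≤ ((c : ℝ) - 1) * (lamn m - Lf m (∑ x ∈ R, ρ x)) :=
      mul_nonneg (by linarith) (by linarith)
    unfold Cap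
    linarith
  · exact le_rfl

theorem Psi_ge (m : ℕ) (ρ : α → ℝ) (Λ : Finset α) (c : ℕ) (R : Finset α) (hm : 2 ≤ m)
    (hs : ∑ x ∈ R, ρ x ≤ 1) :
    lamn m * ((R.card : ℝ) + 1) + (c : ℝ) * (lamn m - Lf m (∑ x ∈ R, ρ x)) ≤
      Psi m ρ Λ (c + 1) R := by
  unfold Psi
  rw [if_pos ⟨by omega, hs⟩]
  unfold Cap
  push_cast
  apply le_of_eq
  ring

/-- (3) exit step for `s ≤ 1`, `c ≥ 1` -/
theorem cap_exit (m : ℕ) (ρ : α → ℝ) (R A B : Finset α) (c : ℕ) (val : α → ℝ) (hm : 2 ≤ m)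
    (hR : R.Nonempty) (hc1 : 1 ≤ c) (hcm : R.card + c + 1 ≤ m) (hA : A ⊆ R) (hB : B ⊆ R)
    (hAB : Disjoint A B) (hE : (A ∪ B).Nonempty)
    (hρ : ∀ x ∈ R, 0 < ρ x ∧ ρ x ≤ 1) (hs1 : ∑ x ∈ R, ρ x ≤ 1)
    (h1 : ∀ x ∈ A ∪ B, -Real.log (ρ x) ≤ val x)
    (h2 : ∀ x ∈ R \ (A ∪ B), lamn m * (R.card : ℝ) +
      ((c : ℝ) - 1) * (lamn m - Lf m (∑ x ∈ R, ρ x)) ≤ val x) :
    Cap m ρ c R ≤ lamn m + Lf m (∑ x ∈ R, ρ x) + cc m A.card R.card +
      (∑ x ∈ R, val x) / R.card := by
  have hmr : (2 : ℝ) ≤ m := by exact_mod_cast hm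
  have hm0 : (0 : ℝ) < m := by linarith
  have hm1 : (0 : ℝ) < (m : ℝ) - 1 := by linarith
  have hn0 : (0 : ℝ) < (R.card : ℝ) := by exact_mod_cast card_pos.2 hR
  have hcm' : (R.card : ℝ) + c + 1 ≤ m := by exact_mod_cast hcm
  have hc1' : (1 : ℝ) ≤ c := by exact_mod_cast hc1
  have hER : A ∪ B ⊆ R := union_subset hA hB
  have hec : (A ∪ B).card = A.card + B.card := card_union_of_disjoint hAB
  have hsR : (R \ (A ∪ B)).card + (A ∪ B).card = R.card := card_sdiff_add_card_eq_card hER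
  set n : ℝ := (R.card : ℝ) with hn
  set a : ℝ := (A.card : ℝ) with ha
  set b : ℝ := (B.card : ℝ) with hb
  set s : ℝ := ∑ x ∈ R, ρ x with hs
  set δ : ℝ := lamn m - Lf m s with hδ
  have ha0 : 0 ≤ a := Nat.cast_nonneg _
  have hb0 : 0 ≤ b := Nat.cast_nonneg _
  have he1 : 1 ≤ a + b := by
    rw [ha, hb]
    have := card_pos.2 hE
    rw [hec] at this
    exact_mod_cast this
  have hen : a + b ≤ n := by
    rw [ha, hb, hn]
    have := card_le_card hER
    rw [hec] at this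
    exact_mod_cast this
  have hs0 : 0 < s := sum_pos (fun x hx => (hρ x hx).1) hR
  have hLs : Lf m s ≤ lamn m := by
    have := Lf_mono' (m := m) hs1 (by linarith) hm0
    rwa [Lf_one hm] at this
  have hδ0 : 0 ≤ δ := by linarith
  have hδ1 := delta_le hm hs1
  -- exits
  have hq : (a + b) * Real.log ((a + b) / s) ≤ ∑ x ∈ A ∪ B, val x := by
    have h3 : ∀ x ∈ A ∪ B, Real.log ((a + b) / s) + 1 - ρ x * ((a + b) / s) ≤ val x := by
      intro x hx
      have hx0 := (hρ x (hER hx)).1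
      have h4 : 0 < ρ x * ((a + b) / s) := mul_pos hx0 (div_pos (by linarith) hs0)
      have h5 := Real.log_le_sub_one_of_pos h4
      rw [Real.log_mul hx0.ne' (div_pos (by linarith) hs0).ne'] at h5
      have h6 := h1 x hx
      linarith
    have h7 := sum_le_sum h3
    rw [sum_sub_distrib, sum_const, nsmul_eq_mul, ← sum_mul, hec] at h7
    push_cast at h7
    rw [← ha, ← hb] at h7
    have h8 : ∑ x ∈ A ∪ B, ρ x ≤ s :=
      sum_le_sum_of_subset_of_nonneg hER fun x hx _ => (hρ x hx).1.le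
    have h9 : (∑ x ∈ A ∪ B, ρ x) * ((a + b) / s) ≤ a + b := by
      calc (∑ x ∈ A ∪ B, ρ x) * ((a + b) / s) ≤ s * ((a + b) / s) :=
            mul_le_mul_of_nonneg_right h8 (div_nonneg (by linarith) hs0.le)
        _ = a + b := by field_simp
    nlinarith
  have hlog : (a + b) * Real.log ((a + b) / s) =
      (a + b) * Real.log (a + b) + (a + b) * (-Real.log s) := by
    rw [Real.log_div (by linarith) hs0.ne']
    ring
  have hlogs : 1 - s ≤ -Real.log s := by
    have := Real.log_le_sub_one_of_pos hs0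
    linarith
  have hee : a + b - 1 ≤ (a + b) * Real.log (a + b) := by
    have h3 : 0 < a + b := by linarith
    have h4 := Real.log_le_sub_one_of_pos (inv_pos.2 h3)
    rw [Real.log_inv] at h4
    have h5 := mul_le_mul_of_nonneg_left h4 h3.le
    have h6 : (a + b) * ((a + b)⁻¹ - 1) = 1 - (a + b) := by
      field_simp
    linarith
  -- non exits
  have hv : (n - (a + b)) * (lamn m * n + ((c : ℝ) - 1) * δ) ≤ ∑ x ∈ R \ (A ∪ B), val x := by
    have h3 := sum_le_sum h2
    rw [sum_const, nsmul_eq_mul] at h3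
    have h4 : ((R \ (A ∪ B)).card : ℝ) = n - (a + b) := by
      have : ((R \ (A ∪ B)).card : ℝ) + (a + b) = n := by
        rw [ha, hb, hn, ← Nat.cast_add, ← hec, ← Nat.cast_add, hsR]
      linarith
    rw [h4] at h3
    exact h3
  have hval : ∑ x ∈ R, val x = ∑ x ∈ R \ (A ∪ B), val x + ∑ x ∈ A ∪ B, val x :=
    (sum_sdiff hER).symm
  -- the light charge
  have hla : (n - a) * (Lf m a - lamn m) ≤ a - 1 ∨ a = 0 := by
    rcases Nat.eq_zero_or_pos A.card with h | h
    · right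
      rw [ha, h]
      simp
    · left
      have ha1 : (1 : ℝ) ≤ a := by
        rw [ha]
        exact_mod_cast h
      have ham : a < m := by linarith
      have hma : 0 < (m : ℝ) - a := by linarith
      have h3 := Lf_tangent m 1 a (by linarith) ham hm0
      rw [Lf_one hm] at h3
      have h4 : Lf m a - lamn m ≤ (a - 1) / ((m : ℝ) - a) := by
        have : (1 - a) / ((m : ℝ) - a) = -((a - 1) / ((m : ℝ) - a)) := by ring
        linarith
      have h5 : (n - a) * (Lf m a - lamn m) ≤ (n - a) * ((a - 1) / ((m : ℝ) - a)) :=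
        mul_le_mul_of_nonneg_left h4 (by linarith)
      have h6 : (n - a) * ((a - 1) / ((m : ℝ) - a)) ≤ a - 1 := by
        rw [mul_div_assoc', div_le_iff₀ hma]
        nlinarith
      linarith
  have hlam := lamn_pos hm
  have hnlam : lamn m * n ≤ 1 := by
    have h3 := lamn_le hm
    rw [le_div_iff₀ hm1] at h3
    have h4 : lamn m * n ≤ lamn m * ((m : ℝ) - 1) := mul_le_mul_of_nonneg_left (by linarith) hlam.le
    linarith
  -- the `δ` part
  have hd : n * δ ≤ (a + b) * (-Real.log s) - (a + b) * (((c : ℝ) - 1) * δ) := by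
    have h3 : (a + b) * (((m : ℝ) - 1) * δ) ≤ (a + b) * (-Real.log s) :=
      mul_le_mul_of_nonneg_left (hδ1.trans hlogs) (by linarith)
    have h4 : n * δ ≤ (a + b) * (((m : ℝ) - 1 - ((c : ℝ) - 1)) * δ) := by
      have h5 : n * δ ≤ ((m : ℝ) - 1 - ((c : ℝ) - 1)) * δ :=
        mul_le_mul_of_nonneg_right (by linarith) hδ0
      have h6 : 0 ≤ ((m : ℝ) - 1 - ((c : ℝ) - 1)) * δ := mul_nonneg (by linarith) hδ0
      nlinarith
    have e : (a + b) * (((m : ℝ) - 1 - ((c : ℝ) - 1)) * δ) =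
        (a + b) * (((m : ℝ) - 1) * δ) - (a + b) * (((c : ℝ) - 1) * δ) := by ring
    linarith
  have hcc : cc m A.card R.card = a * lamn m - Lf m a + a / n * (Lf m a - lamn m) := rfl
  have hCap : Cap m ρ c R = lamn m * (n + 1) + ((c : ℝ) - 1) * δ := rfl
  rw [hCap, hcc]
  have key : n * (lamn m * (n + 1) + ((c : ℝ) - 1) * δ) ≤
      n * (lamn m + Lf m s + (a * lamn m - Lf m a + a / n * (Lf m a - lamn m))) +
        ∑ x ∈ R, val x := by
    have e1 : n * (lamn m + Lf m s + (a * lamn m - Lf m a + a / n * (Lf m a - lamn m))) =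
        n * lamn m + n * Lf m s + n * a * lamn m - n * Lf m a + a * (Lf m a - lamn m) := by
      field_simp
      ring
    rw [e1, hval]
    have e2 : Lf m s = lamn m - δ := by
      rw [hδ]
      ring
    rw [e2]
    rcases hla with h | h
    · have h7 : b * (lamn m * n) ≤ b * 1 := mul_le_mul_of_nonneg_left hnlam hb0
      linarith [h7, h, hd, hv, hq, hlog, hee]
    · rw [h, Lf_zero]
      rw [h] at hd hv hq hlog hee he1
      have h7 : (b - 1) * (lamn m * n) ≤ (b - 1) * 1 :=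
        mul_le_mul_of_nonneg_left hnlam (by linarith)
      linarith [h7, hd, hv, hq, hlog, hee]
  have key2 : lamn m * (n + 1) + ((c : ℝ) - 1) * δ ≤
      (n * (lamn m + Lf m s + (a * lamn m - Lf m a + a / n * (Lf m a - lamn m))) +
        ∑ x ∈ R, val x) / n := by
    rw [le_div_iff₀ hn0]
    linarith
  rw [add_div, mul_div_cancel_left₀ _ hn0.ne'] at key2
  exact key2

/-- (2) step without exit for `s ≤ 1` -/
theorem cap_noexit (m : ℕ) (ρ : α → ℝ) (R : Finset α) (c : ℕ) (val : α → ℝ)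
    (hR : R.Nonempty)
    (h2 : ∀ x ∈ R, lamn m * (R.card : ℝ) + (c : ℝ) * (lamn m - Lf m (∑ x ∈ R, ρ x)) ≤ val x) :
    lamn m * (R.card : ℝ) + (c : ℝ) * (lamn m - Lf m (∑ x ∈ R, ρ x)) + Lf m (∑ x ∈ R, ρ x) ≤
      Lf m (∑ x ∈ R, ρ x) + (∑ x ∈ R, val x) / R.card := by
  have hn0 : (0 : ℝ) < (R.card : ℝ) := by exact_mod_cast card_pos.2 hR
  have h3 := sum_le_sum h2
  rw [sum_const, nsmul_eq_mul] at h3
  have h4 : lamn m * (R.card : ℝ) + (c : ℝ) * (lamn m - Lf m (∑ x ∈ R, ρ x)) ≤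
      (∑ x ∈ R, val x) / R.card := by
    rw [le_div_iff₀ hn0]
    linarith
  linarith

/-- (4) step without exit for `s > 1` -/
theorem phi_noexit (m : ℕ) (ρ : α → ℝ) (Λ R : Finset α) (val : α → ℝ) (hm : 2 ≤ m)
    (hR : R.Nonempty) (hRm : R.card + 1 ≤ m) (hρ : ∀ x ∈ R, 0 < ρ x ∧ ρ x ≤ 1)
    (hs : 1 < ∑ x ∈ R, ρ x) (h1 : ∀ x ∈ R, Phi m ρ Λ (R.erase x) ≤ val x)
    (h2 : ∀ x ∈ R, lamn m * (R.card : ℝ) ≤ val x ∨ 1 < (∑ x ∈ R, ρ x) - ρ x) :
    Phi m ρ Λ R ≤ Lf m (∑ x ∈ R, ρ x) + (∑ x ∈ R, val x) / R.card := by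
  have hmr : (2 : ℝ) ≤ m := by exact_mod_cast hm
  have hm0 : (0 : ℝ) < m := by linarith
  have hn0 : (0 : ℝ) < (R.card : ℝ) := by exact_mod_cast card_pos.2 hR
  have hnm : (R.card : ℝ) + 1 ≤ m := by exact_mod_cast hRm
  set n : ℝ := (R.card : ℝ) with hn
  set s : ℝ := ∑ x ∈ R, ρ x with hsd
  set ν : ℝ := ∑ x ∈ R ∩ Λ, ρ x with hν
  set H := R \ Λ with hH
  have hsn : s ≤ n := mass_le hρ
  have hν0 : 0 ≤ ν := sum_nonneg fun x hx => (hρ x (mem_inter.1 hx).1).1.le
  have hνs : ν ≤ s := sum_le_sum_of_subset_of_nonneg inter_subset_left fun x hx _ => (hρ x hx).1.le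
  have hlam := lamn_pos hm
  have hcast : ((R.card - 1 : ℕ) : ℝ) = n - 1 := by
    rw [Nat.cast_sub (card_pos.2 hR)]
    simp [hn]
  have hHc : H.card + (R ∩ Λ).card = R.card := by
    rw [hH]
    exact card_sdiff_add_card_inter R Λ
  have hH1 : H.Nonempty → ν ≤ n - 1 := by
    intro hne
    have h4 : (R ∩ Λ).card + 1 ≤ R.card := by
      have := card_pos.2 hne
      omega
    have h5 : ((R ∩ Λ).card : ℝ) + 1 ≤ n := by
      rw [hn]
      exact_mod_cast h4
    have h6 := mass_le (fun x hx => hρ x (mem_inter.1 hx).1 : ∀ x ∈ R ∩ Λ, 0 < ρ x ∧ ρ x ≤ 1)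
    linarith
  set P := H.filter (fun h => 0 < ppi m (R.card - 1) (ρ h) ν) with hP
  have hHR : ∀ x ∈ H, x ∈ R := fun x hx => (mem_sdiff.1 hx).1
  rcases P.eq_empty_or_nonempty with hPe | hPne
  · -- no savings
    have hz : ∀ h ∈ H, ppi m (R.card - 1) (ρ h) ν = 0 := by
      intro h hh
      have h3 : h ∉ P := by
        rw [hPe]
        exact notMem_empty _
      rw [hP, mem_filter, not_and] at h3
      exact le_antisymm (not_lt.1 (h3 hh)) (ppi_nonneg _ _ _ _)
    have hLs1 : lamn m ≤ Lf m s := by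
      have := Lf_mono' (m := m) hs.le (by linarith) hm0
      rwa [Lf_one hm] at this
    have hval : ∀ x ∈ R, lamn m * n - (Lf m s - Lf m ν) ≤ val x := by
      intro x hx
      have hB : Lf m ν ≤ Lf m s := Lf_mono' hνs (by linarith) hm0
      rcases h2 x hx with h3 | h3
      · linarith
      · refine le_trans ?_ (h1 x hx)
        by_cases hxL : x ∈ Λ
        · have hxin : x ∈ R ∩ Λ := mem_inter.2 ⟨hx, hxL⟩
          rw [Phi_light m ρ Λ R x hxin]
          have hxν : ρ x ≤ ν := single_le_sum (f := ρ)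
            (fun y hy => (hρ y (mem_inter.1 hy).1).1.le) hxin
          have h4 : ∑ h ∈ R \ Λ, ppi m (R.card - 1) (ρ h) (∑ x ∈ R ∩ Λ, ρ x - ρ x) = 0 := by
            apply sum_eq_zero
            intro h hh
            have hρh := hρ h (hHR h hh)
            have h5 := ppi_mono m (R.card - 1) (ρ h) (ν - ρ x) ν hm hρh.1 hρh.2 (by linarith)
              (by linarith [(hρ x hx).1]) (by rw [hcast]; exact hH1 ⟨h, hh⟩)
              (by have := card_pos.2 hR; omega)
            rw [hz h hh] at h5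
            exact le_antisymm h5 (ppi_nonneg _ _ _ _)
          rw [h4, sub_zero, ← hν, ← hn]
          have h5 := Lf_convex (m := m) hνs (hρ x hx).1.le (by linarith) hm0
          have h6 := Lf_mono' (m := m) h3.le (by linarith [(hρ x hx).1]) hm0
          rw [Lf_one hm] at h6
          linarith
        · have hxin : x ∈ R \ Λ := mem_sdiff.2 ⟨hx, hxL⟩
          rw [Phi_heavy m ρ Λ R x hxin, ← hν, ← hn, hz x hxin, sum_eq_zero hz]
          linarith
    have h3 := sum_le_sum hval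
    rw [sum_const, nsmul_eq_mul, ← hn] at h3
    have h4 : lamn m * n - (Lf m s - Lf m ν) ≤ (∑ x ∈ R, val x) / n := by
      rw [le_div_iff₀ hn0]
      linarith
    have h5 : 0 ≤ ∑ h ∈ R \ Λ, ppi m R.card (ρ h) (∑ x ∈ R ∩ Λ, ρ x) :=
      sum_nonneg fun h _ => ppi_nonneg _ _ _ _
    have h6 : Phi m ρ Λ R ≤ lamn m * n + Lf m ν := by
      unfold Phi
      linarith
    linarith
  · -- savings: the T7L step
    set η : ℝ := (P.card : ℝ) with hη
    have hη1 : 1 ≤ η := by
      rw [hη]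
      exact_mod_cast card_pos.2 hPne
    have hPH : ∀ x ∈ P, x ∈ H := fun x hx => (mem_filter.1 hx).1
    have hηn : η ≤ n := by
      rw [hη, hn]
      have h3 : P.card ≤ H.card := card_le_card (filter_subset _ _)
      have h4 : P.card ≤ R.card := by omega
      exact_mod_cast h4
    have hvP : ∀ x ∈ P, -Real.log (ρ x) ≤
        Phi m ρ Λ (R.erase x) - (lamn m * n - (η - 1) / m) := by
      intro x hx
      have hxH := hPH x hx
      have hρx := hρ x (hHR x hxH)
      rw [Phi_heavy m ρ Λ R x hxH, ← hν, ← hn]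
      -- the other savings
      have h3 : ∑ h ∈ R \ Λ, ppi m (R.card - 1) (ρ h) ν - ppi m (R.card - 1) (ρ x) ν ≤
          (η - 1) / m := by
        have h4 : ∑ h ∈ R \ Λ, ppi m (R.card - 1) (ρ h) ν =
            ∑ h ∈ P, ppi m (R.card - 1) (ρ h) ν := by
          symm
          apply sum_subset (filter_subset _ _)
          intro h hh hnP
          rw [mem_filter, not_and] at hnP
          exact le_antisymm (not_lt.1 (hnP hh)) (ppi_nonneg _ _ _ _)
        rw [h4, ← add_sum_erase P _ hx]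
        have h5 : ∑ h ∈ P.erase x, ppi m (R.card - 1) (ρ h) ν ≤
            ∑ h ∈ P.erase x, 1 / (m : ℝ) := by
          apply sum_le_sum
          intro h hh
          have hhH := hPH h (mem_of_mem_erase hh)
          have hρh := hρ h (hHR h hhH)
          exact ppi_le m (R.card - 1) (ρ h) ν hm hρh.1 hρh.2 hν0
            (by rw [hcast]; exact hH1 ⟨h, hhH⟩) (by have := card_pos.2 hR; omega)
        rw [sum_const, nsmul_eq_mul, card_erase_of_mem hx, Nat.cast_sub (card_pos.2 hPne)] at h5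
        have h6 : ((P.card : ℝ) - ((1 : ℕ) : ℝ)) * (1 / (m : ℝ)) = (η - 1) / m := by
          rw [hη]
          push_cast
          ring
        linarith
      -- `u > 0`
      have hu : 0 < uu m (ρ x) ν := by
        have h4 := (mem_filter.1 hx).2
        unfold ppi at h4
        by_contra hc
        rw [if_neg hc] at h4
        exact lt_irrefl _ h4
      have hmν : 0 < (m : ℝ) - ν := by linarith
      have h4 : (m : ℝ) - ν < ((m : ℝ) - 1) * ρ x := by
        unfold uu at hu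
        have : 1 < ((m : ℝ) - 1) * ρ x / ((m : ℝ) - ν) := by linarith
        rwa [lt_div_iff₀ hmν, one_mul] at this
      have h5 : Real.log ((m : ℝ) - ν) ≤ Real.log ((m : ℝ) - 1) + Real.log (ρ x) := by
        rw [← Real.log_mul (by linarith) hρx.1.ne']
        exact Real.log_le_log hmν h4.le
      have h6 : Lf m ν = Real.log m - Real.log ((m : ℝ) - ν) := by
        unfold Lf
        have : 1 - ν / (m : ℝ) = ((m : ℝ) - ν) / m := by field_simp
        rw [this, Real.log_div hmν.ne' hm0.ne']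
        ring
      have h7 : lamn m = Real.log m - Real.log ((m : ℝ) - 1) := by
        unfold lamn
        rw [Real.log_div hm0.ne' (by linarith)]
      have h8 : lamn m * (n - 1) = lamn m * n - lamn m := by ring
      linarith
    have hstep := step m ρ Λ R ∅
      (fun x => if x ∈ P then min (-Real.log (ρ x)) (Phi m ρ Λ (R.erase x)) else val x) hm hR hRm
      (empty_subset _) hρ (by simp)
      (by
        intro x hx
        have hx' := mem_inter.1 (mem_sdiff.1 hx).1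
        have h3 : x ∉ P := fun h => (mem_sdiff.1 (hPH x h)).2 hx'.2
        simp only [if_neg h3]
        exact h1 x hx'.1)
      (by
        intro x hx
        by_cases h3 : x ∈ P
        · simp only [if_pos h3]
          exact le_rfl
        · simp only [if_neg h3]
          exact (min_le_right _ _).trans (h1 x (mem_sdiff.1 hx).1))
    have hc0 : cc m (∅ : Finset α).card R.card = 0 := by
      unfold cc
      simp [Lf_zero]
    rw [hc0, add_zero, ← hsd, ← hn] at hstep
    have hPR : P ⊆ R := fun x hx => hHR x (hPH x hx)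
    have h3 : ∑ x ∈ R, (if x ∈ P then min (-Real.log (ρ x)) (Phi m ρ Λ (R.erase x)) else val x) ≤
        ∑ x ∈ R, val x - n * lamn m := by
      have h4 : ∑ x ∈ R, (if x ∈ P then min (-Real.log (ρ x)) (Phi m ρ Λ (R.erase x))
          else val x) ≤ ∑ x ∈ R, (val x - if x ∈ P then (lamn m * n - (η - 1) / m) else 0) := by
        apply sum_le_sum
        intro x hx
        by_cases h5 : x ∈ P
        · rw [if_pos h5, if_pos h5]
          have h6 := hvP x h5
          have h7 := h1 x hx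
          have h8 := min_le_left (-Real.log (ρ x)) (Phi m ρ Λ (R.erase x))
          linarith
        · rw [if_neg h5, if_neg h5]
          linarith
      rw [sum_sub_distrib, ← sum_filter, filter_mem_eq_inter, inter_eq_right.2 hPR, sum_const,
        nsmul_eq_mul, ← hη] at h4
      have h5 : n * lamn m ≤ η * (lamn m * n - (η - 1) / m) := by
        have h6 := le_lamn hm
        have h7 : η / m ≤ lamn m * n := by
          calc η / m ≤ n / m := div_le_div_of_nonneg_right hηn hm0.le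
            _ = (1 / m) * n := by ring
            _ ≤ lamn m * n := mul_le_mul_of_nonneg_right h6 hn0.le
        have h8 : 0 ≤ (η - 1) * (lamn m * n - η / m) := mul_nonneg (by linarith) (by linarith)
        have h9 : η * (lamn m * n - (η - 1) / m) - n * lamn m =
            (η - 1) * (lamn m * n - η / m) := by ring
        linarith
      linarith
    have h4 := div_le_div_of_nonneg_right h3 hn0.le
    have h5 : (∑ x ∈ R, val x - n * lamn m) / n = (∑ x ∈ R, val x) / n - lamn m := by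
      field_simp
    rw [h5] at h4
    linarith

end T7

end R5
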