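import Pool.Agent.Work.MP_8b6acb_ti.T7A
import Pool.Agent.Work.MP_8b6acb_ti.CT0S

/-!
# CT0': the T-lemma with a credit for the levels without edge exit (helper55)
-/

namespace R5

open Finset T7

variable {α : Type} [DecidableEq α]

/-- first exit functional with a counter -/
noncomputable def runC (τ : Finset α → Lab) (cr : Finset α → ℕ) (pr : Finset α → ℝ)
    (ex : Finset α → α → ℝ) (xs : ℕ → Finset α → ℝ) : ℕ → Finset α → List α → ℝ
  | _, _, [] => 0
  | c, U, x :: π => pr U + (match τ (insert x U) with
      | Lab.A => runC τ cr pr ex xs (c + cr U) (insert x U) π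
      | Lab.B => ex U x
      | Lab.X => xs (c + cr U) (insert x U))

theorem runC_cons (τ : Finset α → Lab) (cr : Finset α → ℕ) (pr : Finset α → ℝ)
    (ex : Finset α → α → ℝ) (xs : ℕ → Finset α → ℝ) (c : ℕ) (U : Finset α) (x : α)
    (π : List α) :
    runC τ cr pr ex xs c U (x :: π) = pr U + (match τ (insert x U) with
      | Lab.A => runC τ cr pr ex xs (c + cr U) (insert x U) π
      | Lab.B => ex U x
      | Lab.X => xs (c + cr U) (insert x U)) := rfl

/-- one step -/
theorem Av_runC (τ : Finset α → Lab) (cr : Finset α → ℕ) (pr : Finset α → ℝ)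
    (ex : Finset α → α → ℝ) (xs : ℕ → Finset α → ℝ) (c : ℕ) {V U : Finset α}
    (hne : (V \ U).Nonempty) :
    Av (V \ U) (runC τ cr pr ex xs c U) = pr U +
      (∑ x ∈ V \ U, vl τ (fun U' => Av (V \ U') (runC τ cr pr ex xs (c + cr U) U')) ex
        (xs (c + cr U)) U x) / ((V \ U).card : ℝ) := by
  rw [Av_cons hne]
  have hn : (0 : ℝ) < ((V \ U).card : ℝ) := by exact_mod_cast card_pos.2 hne
  have h1 : ∀ x ∈ V \ U, Av ((V \ U).erase x) (fun π => runC τ cr pr ex xs c U (x :: π)) =
      pr U + vl τ (fun U' => Av (V \ U') (runC τ cr pr ex xs (c + cr U) U')) ex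
        (xs (c + cr U)) U x := by
    intro x _
    have h2 : (fun π => runC τ cr pr ex xs c U (x :: π)) =
        fun π => pr U + (match τ (insert x U) with
      | Lab.A => runC τ cr pr ex xs (c + cr U) (insert x U) π
      | Lab.B => ex U x
      | Lab.X => xs (c + cr U) (insert x U)) := rfl
    rw [h2, Av_add, Av_const, sdiff_erase_eq]
    congr 1
    unfold vl
    cases τ (insert x U)
    · rfl
    · exact Av_const _ _
    · exact Av_const _ _
  rw [sum_congr rfl h1, sum_add_distrib, sum_const, nsmul_eq_mul, add_div]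
  field_simp

/-- comparison with a potential; the counter is smaller than the level -/
theorem runC_ge (τ : Finset α → Lab) (cr : Finset α → ℕ) (pr : Finset α → ℝ)
    (ex : Finset α → α → ℝ) (xs : ℕ → Finset α → ℝ) (V : Finset α) (hV : τ V ≠ Lab.A)
    (hcr : ∀ U, cr U ≤ 1) (Ψ : ℕ → Finset α → ℝ)
    (hstep : ∀ (c : ℕ), ∀ U ⊆ V, U.Nonempty → U ≠ V → τ U = Lab.A → c + 1 ≤ U.card →
      Ψ c U ≤ pr U + (∑ x ∈ V \ U, vl τ (Ψ (c + cr U)) ex (xs (c + cr U)) U x) /
        ((V \ U).card : ℝ)) :
    ∀ (c : ℕ), ∀ U ⊆ V, U.Nonempty → U ≠ V → τ U = Lab.A → c + 1 ≤ U.card →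
      Ψ c U ≤ Av (V \ U) (runC τ cr pr ex xs c U) := by
  have key : ∀ (n c : ℕ) (U : Finset α), (V \ U).card = n → U ⊆ V → U.Nonempty → U ≠ V →
      τ U = Lab.A → c + 1 ≤ U.card → Ψ c U ≤ Av (V \ U) (runC τ cr pr ex xs c U) := by
    intro n
    induction n using Nat.strong_induction_on with
    | _ n ih =>
      intro c U hn hU hU0 hne hA hc
      have hne' : (V \ U).Nonempty := by
        rw [nonempty_iff_ne_empty, Ne, sdiff_eq_empty_iff_subset]
        intro h
        exact hne (Subset.antisymm hU h)
      rw [Av_runC τ cr pr ex xs c hne']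
      refine (hstep c U hU hU0 hne hA hc).trans ?_
      have h1 : ∀ x ∈ V \ U, vl τ (Ψ (c + cr U)) ex (xs (c + cr U)) U x ≤
          vl τ (fun U' => Av (V \ U') (runC τ cr pr ex xs (c + cr U) U')) ex
            (xs (c + cr U)) U x := by
        intro x hx
        have hx' := mem_sdiff.1 hx
        unfold vl
        rcases hl : τ (insert x U) with _ | _ | _
        · have h2 : (V \ insert x U).card < n := by
            rw [← sdiff_erase_eq, ← hn]
            exact card_erase_lt_of_mem hx
          have h3 := hcr U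
          exact ih _ h2 (c + cr U) (insert x U) rfl (insert_subset hx'.1 hU)
            (insert_nonempty _ _) (fun h => hV (h ▸ hl)) hl
            (by rw [card_insert_of_notMem hx'.2]; omega)
        · exact le_rfl
        · exact le_rfl
      have h2 := sum_le_sum h1
      have h3 := div_le_div_of_nonneg_right h2 (Nat.cast_nonneg ((V \ U).card))
      linarith
  exact fun c U hU hU0 hne hA hc => key _ c U rfl hU hU0 hne hA hc

/-- comparison with a potential, from the empty set -/
theorem runC_ge_top (τ : Finset α → Lab) (cr : Finset α → ℕ) (pr : Finset α → ℝ)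
    (ex : Finset α → α → ℝ) (xs : ℕ → Finset α → ℝ) (V : Finset α) (hV : τ V ≠ Lab.A)
    (hne : V.Nonempty) (hcr : ∀ U, cr U ≤ 1) (hcr0 : cr ∅ = 0) (Ψ : ℕ → Finset α → ℝ)
    (hstep : ∀ (c : ℕ), ∀ U ⊆ V, U.Nonempty → U ≠ V → τ U = Lab.A → c + 1 ≤ U.card →
      Ψ c U ≤ pr U + (∑ x ∈ V \ U, vl τ (Ψ (c + cr U)) ex (xs (c + cr U)) U x) /
        ((V \ U).card : ℝ)) :
    pr ∅ + (∑ x ∈ V, vl τ (Ψ 0) ex (xs 0) ∅ x) / (V.card : ℝ) ≤
      Av V (runC τ cr pr ex xs 0 ∅) := by
  have h0 := Av_runC τ cr pr ex xs 0 (V := V) (U := ∅) (by simpa using hne)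
  rw [sdiff_empty, hcr0] at h0
  rw [h0]
  have h1 : ∀ x ∈ V, vl τ (Ψ 0) ex (xs 0) ∅ x ≤
      vl τ (fun U' => Av (V \ U') (runC τ cr pr ex xs (0 + 0) U')) ex (xs (0 + 0)) ∅ x := by
    intro x hx
    unfold vl
    rcases hl : τ (insert x ∅) with _ | _ | _
    · exact runC_ge τ cr pr ex xs V hV hcr Ψ hstep 0 (insert x ∅)
        (insert_subset hx (empty_subset _)) (insert_nonempty _ _) (fun h => hV (h ▸ hl)) hl
        (card_pos.2 (insert_nonempty _ _))
    · exact le_rfl
    · exact le_rfl
  have h2 := sum_le_sum h1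
  have h3 := div_le_div_of_nonneg_right h2 (Nat.cast_nonneg V.card)
  linarith

/-- index form -/
theorem runC_index (π : List α) : ∀ (τ : Finset α → Lab) (cr : Finset α → ℕ)
    (pr : Finset α → ℝ) (ex : Finset α → α → ℝ) (xs : ℕ → Finset α → ℝ) (c : ℕ),
    π.Nodup → τ ∅ = Lab.A →
    runC τ cr pr ex xs c ∅ π = ∑ i ∈ range π.length, iA τ π i * pr (pre π i) +
      ∑ k ∈ range π.length, (iE τ π k * ∑ x ∈ nx π k, ex (pre π k) x +
        iX τ π k * xs (c + ∑ i ∈ range (k + 1), cr (pre π i)) (pre π (k + 1))) := by
  induction π with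
  | nil => intro τ cr pr ex xs c _ _; simp [runC]
  | cons x π ih =>
    intro τ cr pr ex xs c hnd h0
    rw [List.nodup_cons] at hnd
    rw [runC_cons, List.length_cons, sum_range_succ', sum_range_succ']
    have hsh : ∀ (l : List α) (c : ℕ) (U : Finset α), runC τ cr pr ex xs c (insert x U) l =
        runC (shf τ x) (fun U => cr (insert x U)) (fun U => pr (insert x U))
          (fun U y => ex (insert x U) y) (fun c U => xs c (insert x U)) c U l := by
      intro l
      induction l with
      | nil => intro c U; rfl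
      | cons y l ih2 =>
        intro c U
        rw [runC_cons, runC_cons]
        have e : insert y (insert x U) = insert x (insert y U) := insert_comm _ _ _
        rw [e]
        unfold shf
        cases τ (insert x (insert y U))
        · simp only []
          rw [ih2 _ (insert y U)]
          rfl
        · rfl
        · rfl
    have e0 : ∑ i ∈ range π.length, iA τ (x :: π) (i + 1) * pr (pre (x :: π) (i + 1)) =
        ∑ i ∈ range π.length, iA (shf τ x) π i * pr (insert x (pre π i)) := by
      refine sum_congr rfl fun i _ => ?_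
      rw [iA_shf h0, pre_cons_succ]
    have ec : ∀ k, c + ∑ i ∈ range (k + 1 + 1), cr (pre (x :: π) i) =
        c + cr ∅ + ∑ i ∈ range (k + 1), cr (insert x (pre π i)) := by
      intro k
      rw [sum_range_succ', pre_zero, add_assoc, add_comm (cr ∅)]
      congr 2
      refine sum_congr rfl fun i _ => ?_
      rw [pre_cons_succ]
    have e1 : ∑ k ∈ range π.length, (iE τ (x :: π) (k + 1) *
        ∑ y ∈ nx (x :: π) (k + 1), ex (pre (x :: π) (k + 1)) y +
        iX τ (x :: π) (k + 1) * xs (c + ∑ i ∈ range (k + 1 + 1), cr (pre (x :: π) i))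
          (pre (x :: π) (k + 1 + 1))) =
        ∑ k ∈ range π.length, (iE (shf τ x) π k *
          ∑ y ∈ nx π k, ex (insert x (pre π k)) y +
          iX (shf τ x) π k * xs (c + cr ∅ + ∑ i ∈ range (k + 1), cr (insert x (pre π i)))
            (insert x (pre π (k + 1)))) := by
      refine sum_congr rfl fun k _ => ?_
      rw [iE_shf h0, iX_shf h0, pre_cons_succ, pre_cons_succ, ec]
      have : nx (x :: π) (k + 1) = nx π k := by
        unfold nx
        rw [pre_cons_succ, pre_cons_succ]
        ext y
        simp only [mem_sdiff, mem_insert, not_or]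
        constructor
        · rintro ⟨h1 | h1, h2, h3⟩
          · exact absurd h1 h2
          · exact ⟨h1, h3⟩
        · rintro ⟨h1, h2⟩
          refine ⟨Or.inr h1, ?_, h2⟩
          rintro rfl
          exact hnd.1 (List.mem_toFinset.1 (pre_subset _ _ h1))
      rw [this]
    rw [e0, e1, iA_zero' h0, pre_zero]
    have hp1 : pre (x :: π) (0 + 1) = {x} := by
      rw [pre_cons_succ, pre_zero]
      rfl
    have hnx : nx (x :: π) 0 = {x} := by
      unfold nx
      rw [hp1, pre_zero, sdiff_empty]
    rw [hnx, sum_singleton, hp1]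
    have hE0 : iE τ (x :: π) 0 = if τ {x} = Lab.B then 1 else 0 := by
      refine if_congr ?_ rfl rfl
      unfold exE
      rw [hp1]
      exact ⟨fun h => h.2, fun h => ⟨allA_zero.2 h0, h⟩⟩
    have hX0 : iX τ (x :: π) 0 = if τ {x} = Lab.X then 1 else 0 := by
      refine if_congr ?_ rfl rfl
      unfold exX
      rw [hp1]
      exact ⟨fun h => h.2, fun h => ⟨allA_zero.2 h0, h⟩⟩
    rw [hE0, hX0]
    have hins : insert x (∅ : Finset α) = {x} := rfl
    have hc0 : c + ∑ i ∈ range (0 + 1), cr (pre (x :: π) i) = c + cr ∅ := by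
      rw [zero_add, range_one, sum_singleton, pre_zero]
    rw [hc0]
    rcases hl : τ {x} with _ | _ | _
    · rw [hins, hl]
      simp only []
      have h2 := hsh π (c + cr ∅) ∅
      rw [hins] at h2
      have h3 : shf τ x ∅ = Lab.A := by
        unfold shf
        rw [hins, hl]
      rw [h2, ih (shf τ x) _ _ _ _ _ hnd.2 h3]
      simp
      ring
    · rw [hins, hl]
      have h3 : shf τ x ∅ ≠ Lab.A := by
        unfold shf
        rw [hins, hl]
        decide
      simp only [iA_of_ne h3, iE_of_ne h3, iX_of_ne h3]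
      simp
    · rw [hins, hl]
      have h3 : shf τ x ∅ ≠ Lab.A := by
        unfold shf
        rw [hins, hl]
        decide
      simp only [iA_of_ne h3, iE_of_ne h3, iX_of_ne h3]
      simp

/-- credit of a level: no edge exit -/
def crd (τ : Finset α → Lab) (V U : Finset α) : ℕ :=
  if U ≠ ∅ ∧ ∀ x ∈ V \ U, τ (insert x U) ≠ Lab.B then 1 else 0

theorem crd_le (τ : Finset α → Lab) (V U : Finset α) : crd τ V U ≤ 1 := by
  unfold crd; split_ifs <;> omega

/-- **the potential argument** -/
theorem CT0_run (τ : Finset α → Lab) (ρ : α → ℝ) (V : Finset α) (hV : τ V ≠ Lab.A)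
    (hm : 2 ≤ V.card) (hρ : ∀ x ∈ V, 0 < ρ x ∧ ρ x ≤ 1) :
    lamn V.card * ((V.card : ℝ) - 1) ≤
      Av V (runC τ (crd τ V) (fun U => pr7 τ ρ V U - lamn V.card * (crd τ V U : ℝ))
        (fun _ x => -Real.log (ρ x)) (fun c U => xs7 ρ V U + lamn V.card * (c : ℝ)) 0 ∅) := by
  have hne : V.Nonempty := card_pos.1 (by omega)
  have hlam := lamn_pos hm
  have hmr : (2 : ℝ) ≤ (V.card : ℝ) := by exact_mod_cast hm
  set Λ := V.filter (fun z => τ {z} = Lab.B) with hΛ
  have hcr0 : crd τ V ∅ = 0 := by
    unfold crd
    rw [if_neg]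
    rintro ⟨h, _⟩
    exact h rfl
  have h1 := runC_ge_top τ (crd τ V) (fun U => pr7 τ ρ V U - lamn V.card * (crd τ V U : ℝ))
    (fun _ x => -Real.log (ρ x)) (fun c U => xs7 ρ V U + lamn V.card * (c : ℝ)) V hV hne
    (crd_le τ V) hcr0 (fun c U => Psi V.card ρ Λ c (V \ U)) (by
    intro c U hU hU0 hUV hA hc
    have hR : (V \ U).Nonempty := by
      rw [nonempty_iff_ne_empty, Ne, sdiff_eq_empty_iff_subset]
      intro h
      exact hUV (Subset.antisymm hU h)
    have hcardR : (V \ U).card + U.card = V.card := card_sdiff_add_card_eq_card hU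
    have hRm : (V \ U).card + 1 ≤ V.card := by
      have h2 := card_pos.2 hU0
      omega
    have hρR : ∀ x ∈ V \ U, 0 < ρ x ∧ ρ x ≤ 1 := fun x hx => hρ x (mem_sdiff.1 hx).1
    have hρe : ∀ x, ∀ y ∈ (V \ U).erase x, 0 < ρ y ∧ ρ y ≤ 1 :=
      fun x y hy => hρR y (mem_of_mem_erase hy)
    have hce : ∀ x ∈ V \ U, (((V \ U).erase x).card : ℝ) = ((V \ U).card : ℝ) - 1 := by
      intro x hx
      rw [card_erase_of_mem hx, Nat.cast_sub (card_pos.2 hR)]
      simp
    have hcem : ∀ x ∈ V \ U, ((V \ U).erase x).card + 1 ≤ V.card := by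
      intro x hx
      rw [card_erase_of_mem hx]
      omega
    have hse : ∀ x ∈ V \ U, ∑ y ∈ (V \ U).erase x, ρ y = ∑ y ∈ V \ U, ρ y - ρ x := by
      intro x hx
      have := add_sum_erase (V \ U) ρ hx
      linarith
    have hnr : ((V \ U).card : ℝ) + 1 ≤ V.card := by exact_mod_cast hRm
    have hsR : ∑ y ∈ V \ U, ρ y ≤ ((V \ U).card : ℝ) := mass_le hρR
    have hm0 : (0 : ℝ) < (V.card : ℝ) := by linarith
    -- masses of the rest
    have hLe : ∀ x ∈ V \ U, 0 ≤ Lf V.card (∑ y ∈ (V \ U).erase x, ρ y) := by
      intro x hx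
      apply Lf_nonneg (mass_nonneg (hρe x))
      rw [hse x hx]
      linarith [(hρR x hx).1]
    have hLx : ∀ x ∈ V \ U, Lf V.card (∑ y ∈ (V \ U).erase x, ρ y) ≤
        Lf V.card (∑ y ∈ V \ U, ρ y) := by
      intro x hx
      apply Lf_mono' _ (by linarith) hm0
      rw [hse x hx]
      linarith [(hρR x hx).1]
    have hxs : ∀ x ∈ V \ U, xs7 ρ V (insert x U) = lamn V.card * (((V \ U).card : ℝ) - 1) +
        Lf V.card (∑ y ∈ (V \ U).erase x, ρ y) := by
      intro x hx
      unfold xs7
      rw [← sdiff_erase_eq, hce x hx]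
    have hPX : ∀ x ∈ V \ U, Phi V.card ρ Λ ((V \ U).erase x) ≤ xs7 ρ V (insert x U) := by
      intro x hx
      have h2 := Phi_le V.card ρ Λ ((V \ U).erase x) (hcem x hx) (hρe x)
      rw [hce x hx] at h2
      rw [hxs x hx]
      exact h2
    have hPP : ∀ (c : ℕ), ∀ x ∈ V \ U, Phi V.card ρ Λ ((V \ U).erase x) ≤
        Psi V.card ρ Λ c ((V \ U).erase x) := fun c x hx =>
      Phi_le_Psi V.card ρ Λ c _ hm (hcem x hx) (hρe x)
    by_cases hcr : U ≠ ∅ ∧ ∀ x ∈ V \ U, τ (insert x U) ≠ Lab.B
    · -- credited level
      have hcrU : crd τ V U = 1 := if_pos hcr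
      have hAL : AL τ V U = ∅ := by
        unfold AL
        apply filter_eq_empty_iff.2
        intro z hz h
        exact hcr.2 z hz h.2
      have hpr : pr7 τ ρ V U - lamn V.card * (crd τ V U : ℝ) =
          Lf V.card (∑ y ∈ V \ U, ρ y) := by
        unfold pr7
        rw [if_neg hcr.1, hcrU, hAL]
        unfold cc
        simp [Lf_zero]
      rw [hpr, hcrU]
      by_cases hs1 : ∑ y ∈ V \ U, ρ y ≤ 1
      · -- `s ≤ 1`
        have hLs : Lf V.card (∑ y ∈ V \ U, ρ y) ≤ lamn V.card := by
          have := Lf_mono' (m := V.card) hs1 (by linarith) hm0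
          rwa [Lf_one hm] at this
        have h2 := cap_noexit V.card ρ (V \ U) c
          (vl τ (fun U => Psi V.card ρ Λ (c + 1) (V \ U)) (fun _ x => -Real.log (ρ x))
            (fun U => xs7 ρ V U + lamn V.card * ((c + 1 : ℕ) : ℝ)) U) hR
          (by
            intro x hx
            have hse1 : ∑ y ∈ (V \ U).erase x, ρ y ≤ 1 := by
              rw [hse x hx]
              linarith [(hρR x hx).1]
            have hc0 : (0 : ℝ) ≤ c := Nat.cast_nonneg c
            have hδ : (c : ℝ) * (lamn V.card - Lf V.card (∑ y ∈ V \ U, ρ y)) ≤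
                (c : ℝ) * (lamn V.card - Lf V.card (∑ y ∈ (V \ U).erase x, ρ y)) :=
              mul_le_mul_of_nonneg_left (by linarith [hLx x hx]) hc0
            unfold vl
            rcases hl : τ (insert x U) with _ | _ | _
            · simp only []
              rw [← sdiff_erase_eq]
              have h3 := Psi_ge V.card ρ Λ c ((V \ U).erase x) hm hse1
              rw [hce x hx] at h3
              linarith
            · exact absurd hl (hcr.2 x hx)
            · simp only []
              rw [hxs x hx]
              push_cast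
              have h4 : (c : ℝ) * (lamn V.card - Lf V.card (∑ y ∈ (V \ U).erase x, ρ y)) ≤
                  (c : ℝ) * lamn V.card :=
                mul_le_mul_of_nonneg_left (by linarith [hLe x hx]) hc0
              linarith [hLe x hx])
        refine le_trans ?_ h2
        rcases Nat.eq_zero_or_pos c with hc0 | hc0
        · rw [hc0]
          unfold Psi
          rw [if_neg (by omega)]
          have h3 := Phi_le V.card ρ Λ (V \ U) hRm hρR
          simp only [Nat.cast_zero, zero_mul, add_zero]
          exact h3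
        · unfold Psi
          rw [if_pos ⟨hc0, hs1⟩]
          unfold Cap
          apply le_of_eq
          ring
      · -- `s > 1`
        push Not at hs1
        have hPsi : Psi V.card ρ Λ c (V \ U) = Phi V.card ρ Λ (V \ U) := by
          unfold Psi
          rw [if_neg (fun h => absurd h.2 (not_le.2 hs1))]
        show Psi V.card ρ Λ c (V \ U) ≤ _
        rw [hPsi]
        apply phi_noexit V.card ρ Λ (V \ U) _ hm hR hRm hρR hs1
        · intro x hx
          unfold vl
          rcases hl : τ (insert x U) with _ | _ | _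
          · simp only []
            rw [← sdiff_erase_eq]
            exact hPP (c + 1) x hx
          · exact absurd hl (hcr.2 x hx)
          · simp only []
            have h3 := hPX x hx
            have h4 : 0 ≤ lamn V.card * ((c + 1 : ℕ) : ℝ) :=
              mul_nonneg hlam.le (Nat.cast_nonneg _)
            linarith
        · intro x hx
          unfold vl
          rcases hl : τ (insert x U) with _ | _ | _
          · simp only []
            rw [← sdiff_erase_eq]
            rcases le_or_gt (∑ y ∈ V \ U, ρ y - ρ x) 1 with h3 | h3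
            · left
              have hse1 : ∑ y ∈ (V \ U).erase x, ρ y ≤ 1 := by
                rw [hse x hx]
                exact h3
              have h4 := Psi_ge V.card ρ Λ c ((V \ U).erase x) hm hse1
              rw [hce x hx] at h4
              have h5 : Lf V.card (∑ y ∈ (V \ U).erase x, ρ y) ≤ lamn V.card := by
                have := Lf_mono' (m := V.card) hse1 (by linarith) hm0
                rwa [Lf_one hm] at this
              have h6 : 0 ≤ (c : ℝ) *
                  (lamn V.card - Lf V.card (∑ y ∈ (V \ U).erase x, ρ y)) :=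
                mul_nonneg (Nat.cast_nonneg c) (by linarith)
              linarith
            · exact Or.inr h3
          · exact absurd hl (hcr.2 x hx)
          · left
            simp only []
            rw [hxs x hx]
            push_cast
            have h3 : 0 ≤ lamn V.card * (c : ℝ) := mul_nonneg hlam.le (Nat.cast_nonneg _)
            linarith [hLe x hx]
    · -- a level with an edge exit
      have hcrU : crd τ V U = 0 := if_neg hcr
      have hpr : pr7 τ ρ V U - lamn V.card * (crd τ V U : ℝ) = pr7 τ ρ V U := by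
        rw [hcrU]
        simp
      rw [hpr, hcrU, add_zero]
      by_cases hcs : 1 ≤ c ∧ ∑ y ∈ V \ U, ρ y ≤ 1
      · -- the cap
        have hPsi : Psi V.card ρ Λ c (V \ U) = Cap V.card ρ c (V \ U) := by
          unfold Psi
          rw [if_pos hcs]
        show Psi V.card ρ Λ c (V \ U) ≤ _
        rw [hPsi]
        have hE : ∃ x ∈ V \ U, τ (insert x U) = Lab.B := by
          by_contra hno
          push Not at hno
          exact hcr ⟨hU0.ne_empty, hno⟩
        have hLs : Lf V.card (∑ y ∈ V \ U, ρ y) ≤ lamn V.card := by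
          have := Lf_mono' (m := V.card) hcs.2 (by linarith) hm0
          rwa [Lf_one hm] at this
        have hmem : ∀ x, x ∈ AL τ V U ∪
            ((V \ U).filter (fun z => τ (insert z U) = Lab.B) \ AL τ V U) ↔
            x ∈ V \ U ∧ τ (insert x U) = Lab.B := by
          intro x
          rw [union_sdiff_self_eq_union, mem_union, mem_filter]
          constructor
          · rintro (h | h)
            · unfold AL at h
              rw [mem_filter] at h
              exact ⟨h.1, h.2.2⟩
            · exact h
          · intro h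
            exact Or.inr h
        have h2 := cap_exit V.card ρ (V \ U) (AL τ V U)
          ((V \ U).filter (fun z => τ (insert z U) = Lab.B) \ AL τ V U) c
          (vl τ (fun U => Psi V.card ρ Λ c (V \ U)) (fun _ x => -Real.log (ρ x))
            (fun U => xs7 ρ V U + lamn V.card * (c : ℝ)) U) hm hR hcs.1 (by omega)
          (filter_subset _ _) (sdiff_subset.trans (filter_subset _ _)) disjoint_sdiff
          (by
            obtain ⟨x, hx1, hx2⟩ := hE
            exact ⟨x, (hmem x).2 ⟨hx1, hx2⟩⟩)
          hρR hcs.2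
          (by
            intro x hx
            have h3 := ((hmem x).1 hx).2
            unfold vl
            rw [h3])
          (by
            intro x hx
            have hx' := mem_sdiff.1 hx
            have h3 : τ (insert x U) ≠ Lab.B := fun h => hx'.2 ((hmem x).2 ⟨hx'.1, h⟩)
            have hse1 : ∑ y ∈ (V \ U).erase x, ρ y ≤ 1 := by
              rw [hse x hx'.1]
              linarith [(hρR x hx'.1).1, hcs.2]
            have hc1 : (1 : ℝ) ≤ c := by exact_mod_cast hcs.1
            have hδ : ((c : ℝ) - 1) * (lamn V.card - Lf V.card (∑ y ∈ V \ U, ρ y)) ≤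
                ((c : ℝ) - 1) * (lamn V.card - Lf V.card (∑ y ∈ (V \ U).erase x, ρ y)) :=
              mul_le_mul_of_nonneg_left (by linarith [hLx x hx'.1]) (by linarith)
            unfold vl
            rcases hl : τ (insert x U) with _ | _ | _
            · simp only []
              rw [← sdiff_erase_eq]
              have h4 : Psi V.card ρ Λ c ((V \ U).erase x) = Cap V.card ρ c ((V \ U).erase x) := by
                unfold Psi
                rw [if_pos ⟨hcs.1, hse1⟩]
              rw [h4]
              unfold Cap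
              rw [hce x hx'.1]
              linarith
            · exact absurd hl h3
            · simp only []
              rw [hxs x hx'.1]
              have h4 : ((c : ℝ) - 1) *
                  (lamn V.card - Lf V.card (∑ y ∈ (V \ U).erase x, ρ y)) ≤
                  ((c : ℝ) - 1) * lamn V.card :=
                mul_le_mul_of_nonneg_left (by linarith [hLe x hx'.1]) (by linarith)
              linarith [hLe x hx'.1])
        refine h2.trans ?_
        unfold pr7
        rw [if_neg hU0.ne_empty]
      · -- T7L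
        have hPsi : Psi V.card ρ Λ c (V \ U) = Phi V.card ρ Λ (V \ U) := by
          unfold Psi
          rw [if_neg hcs]
        show Psi V.card ρ Λ c (V \ U) ≤ _
        rw [hPsi]
        have hcl : 0 ≤ lamn V.card * (c : ℝ) := mul_nonneg hlam.le (Nat.cast_nonneg c)
        have h2 := step V.card ρ Λ (V \ U) (AL τ V U)
          (vl τ (fun U => Psi V.card ρ Λ c (V \ U)) (fun _ x => -Real.log (ρ x))
            (fun U => xs7 ρ V U + lamn V.card * (c : ℝ)) U) hm hR hRm
          (by
            intro z hz
            unfold AL at hz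
            rw [mem_filter] at hz
            rw [mem_inter, hΛ, mem_filter]
            exact ⟨hz.1, (mem_sdiff.1 hz.1).1, hz.2.1⟩)
          hρR
          (by
            intro x hx
            unfold AL at hx
            rw [mem_filter] at hx
            unfold vl
            rw [hx.2.2])
          (by
            intro x hx
            rw [mem_sdiff, mem_inter] at hx
            have h3 : τ (insert x U) ≠ Lab.B := by
              intro h3
              apply hx.2
              unfold AL
              rw [mem_filter]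
              rw [hΛ, mem_filter] at hx
              exact ⟨hx.1.1, hx.1.2.2, h3⟩
            unfold vl
            rcases hl : τ (insert x U) with _ | _ | _
            · simp only []
              rw [← sdiff_erase_eq]
              exact hPP c x hx.1.1
            · exact absurd hl h3
            · simp only []
              linarith [hPX x hx.1.1])
          (by
            intro x hx
            rw [mem_sdiff] at hx
            unfold vl
            rcases hl : τ (insert x U) with _ | _ | _
            · simp only []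
              rw [← sdiff_erase_eq]
              exact (min_le_right _ _).trans (hPP c x hx.1)
            · exact min_le_left _ _
            · simp only []
              have h3 := min_le_right (-Real.log (ρ x)) (Phi V.card ρ Λ ((V \ U).erase x))
              linarith [hPX x hx.1])
        refine h2.trans ?_
        unfold pr7
        rw [if_neg hU0.ne_empty])
  refine le_trans ?_ h1
  have h2 := top V.card ρ Λ V (vl τ (fun U => Phi V.card ρ Λ (V \ U))
    (fun _ x => -Real.log (ρ x)) (xs7 ρ V) ∅) hm rfl (filter_subset _ _) hρ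
    (by
      intro x hx
      rw [hΛ, mem_filter] at hx
      unfold vl
      have : insert x (∅ : Finset α) = {x} := rfl
      rw [this, hx.2])
    (by
      intro x hx
      rw [mem_sdiff] at hx
      have h3 : τ (insert x ∅) ≠ Lab.B := by
        intro h3
        apply hx.2
        rw [hΛ, mem_filter]
        exact ⟨hx.1, h3⟩
      unfold vl
      rcases hl : τ (insert x ∅) with _ | _ | _
      · simp only []
        have : V.erase x = V \ insert x ∅ := by
          rw [← sdiff_erase_eq, sdiff_empty]
        rw [this]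
      · exact absurd hl h3
      · simp only []
        have : V.erase x = V \ insert x ∅ := by
          rw [← sdiff_erase_eq, sdiff_empty]
        rw [this]
        unfold xs7
        apply Phi_le_X
        · rw [← this, card_erase_of_mem hx.1]
          omega
        · intro y hy
          exact hρ y (mem_sdiff.1 hy).1)
  have hPsi0 : ∀ R : Finset α, Psi V.card ρ Λ 0 R = Phi V.card ρ Λ R := by
    intro R
    unfold Psi
    rw [if_neg (by omega)]
  have h4 : (∑ x ∈ V, vl τ (fun U => Psi V.card ρ Λ 0 (V \ U)) (fun _ x => -Real.log (ρ x))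
      (fun U => xs7 ρ V U + lamn V.card * ((0 : ℕ) : ℝ)) ∅ x) =
      ∑ x ∈ V, vl τ (fun U => Phi V.card ρ Λ (V \ U)) (fun _ x => -Real.log (ρ x))
        (xs7 ρ V) ∅ x := by
    refine sum_congr rfl fun x _ => ?_
    simp only [hPsi0, Nat.cast_zero, mul_zero, add_zero]
  refine h2.trans ?_
  show _ ≤ (pr7 τ ρ V ∅ - lamn V.card * (crd τ V ∅ : ℝ)) +
    (∑ x ∈ V, vl τ (fun U => Psi V.card ρ Λ 0 (V \ U)) (fun _ x => -Real.log (ρ x))
      (fun U => xs7 ρ V U + lamn V.card * ((0 : ℕ) : ℝ)) ∅ x) / (V.card : ℝ)
  rw [h4, hcr0]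
  have h3 : pr7 τ ρ V ∅ = cc V.card Λ.card V.card := by
    unfold pr7
    rw [if_pos rfl, zero_add, sdiff_empty]
    have : AL τ V ∅ = Λ := by
      unfold AL
      rw [hΛ, sdiff_empty]
      refine filter_congr fun z _ => ?_
      have : insert z (∅ : Finset α) = {z} := rfl
      rw [this, and_self]
    rw [this]
  rw [h3]
  simp

/-- the path identity of T7L -/
theorem T7L_key (τ : Finset α → Lab) (ρ : α → ℝ) (V : Finset α) (h0 : τ ∅ = Lab.A)
    (hV : τ V ≠ Lab.A) (hm : 1 ≤ V.card) : ∀ π ∈ seqs V.card V,
    runA τ (pr7 τ ρ V) (fun _ x => -Real.log (ρ x)) (xs7 ρ V) ∅ π =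
      lamn V.card * ((V.card : ℝ) - 1) -
        lamn V.card * (∑ k ∈ range V.card, iE τ π k * ((V.card : ℝ) - 1 - k)) +
        cst τ ρ V π + ∑ i ∈ range V.card,
          iA τ π i * cc V.card (AL τ V (pre π i)).card (V.card - i) := by
  intro π hπ
  have hlen : π.length = V.card := length_of_mem hπ
  rw [runA_index π τ _ _ _ (mem_seqs_card.1 hπ).1 h0, hlen]
  -- split the prices
  set m := V.card with hmd
  set L : ℕ → ℝ := fun i => Lf m (∑ x ∈ V \ pre π i, ρ x) with hL
  have hcard : ∀ i ≤ m, (V \ pre π i).card = m - i := by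
    intro i hi
    rw [card_sdiff_of_subset (pre_subset_of_mem hπ i), card_pre_of_mem hπ hi]
  have e1 : ∑ i ∈ range m, iA τ π i * pr7 τ ρ V (pre π i) =
      ∑ i ∈ range m, iA τ π i * (if i = 0 then 0 else lamn m + L i) +
      ∑ i ∈ range m, iA τ π i * cc m (AL τ V (pre π i)).card (m - i) := by
    rw [← sum_add_distrib]
    refine sum_congr rfl fun i hi => ?_
    rw [mem_range] at hi
    unfold pr7
    have h2 : pre π i = ∅ ↔ i = 0 := by
      rw [← card_eq_zero, card_pre_of_mem hπ (by omega)]
    rw [if_congr h2 rfl rfl, hcard i hi.le, ← hmd]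
    ring
  have hz : iA τ π m = 0 := iA_top hV hπ (le_of_eq hmd.symm)
  have e2 := sum_exit τ π m (fun i => if i = 0 then (0 : ℝ) else lamn m + L i)
  rw [hz, zero_mul, sub_zero] at e2
  have e3 := sum_exit τ π m (fun i => if i = 0 then (1 : ℝ) else 0)
  rw [hz, zero_mul, sub_zero] at e3
  have e4 : ∀ k : ℕ, ∑ i ∈ range (k + 1), (if i = 0 then (1 : ℝ) else 0) = 1 := by
    intro k
    rw [sum_ite_eq' (range (k + 1)) 0 (fun _ => (1 : ℝ))]
    simp
  have e5 : ∀ k : ℕ, ∑ i ∈ range (k + 1), (if i = 0 then (0 : ℝ) else lamn m + L i) =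
      k * lamn m + ∑ i ∈ Icc 1 k, L i := by
    intro k
    induction k with
    | zero => simp
    | succ k ih =>
      rw [sum_range_succ, ih, if_neg (Nat.succ_ne_zero k),
        sum_Icc_succ_top (by omega : 1 ≤ k + 1)]
      push_cast
      ring
  have e6 : ∑ i ∈ range m, iA τ π i * (if i = 0 then (1 : ℝ) else 0) = 1 := by
    rw [sum_eq_single 0]
    · rw [iA_zero' h0]
      simp
    · intro i _ hi
      simp [hi]
    · intro h
      exact absurd (mem_range.2 (by omega)) h
  rw [e6] at e3
  simp only [e4, e5] at e2 e3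
  rw [e1, ← e2]
  have e7 : cst τ ρ V π = ∑ k ∈ range m, (iE τ π k * (∑ x ∈ nx π k, (-Real.log (ρ x)) +
      ∑ i ∈ Icc 1 k, L i) + iX τ π k * ∑ i ∈ Icc 1 (k + 1), L i) := rfl
  rw [e7]
  have e8 : lamn m * ((m : ℝ) - 1) = ∑ k ∈ range m, (iE τ π k + iX τ π k) *
      (lamn m * ((m : ℝ) - 1)) := by
    rw [← sum_mul]
    have : ∑ k ∈ range m, (iE τ π k + iX τ π k) = 1 := by
      simpa using e3
    rw [this, one_mul]
  rw [e8]
  have e9 : ∑ k ∈ range m, (iE τ π k + iX τ π k) * (k * lamn m + ∑ i ∈ Icc 1 k, L i) +
      ∑ k ∈ range m, (iE τ π k * ∑ x ∈ nx π k, (-Real.log (ρ x)) +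
        iX τ π k * xs7 ρ V (pre π (k + 1))) =
      ∑ k ∈ range m, (iE τ π k + iX τ π k) * (lamn m * ((m : ℝ) - 1)) -
      lamn m * ∑ k ∈ range m, iE τ π k * ((m : ℝ) - 1 - k) +
      ∑ k ∈ range m, (iE τ π k * (∑ x ∈ nx π k, (-Real.log (ρ x)) +
      ∑ i ∈ Icc 1 k, L i) + iX τ π k * ∑ i ∈ Icc 1 (k + 1), L i) := by
    rw [mul_sum, ← sum_sub_distrib, ← sum_add_distrib, ← sum_add_distrib]
    refine sum_congr rfl fun k hk => ?_
    rw [mem_range] at hk
    have h3 : xs7 ρ V (pre π (k + 1)) = lamn m * ((m : ℝ) - 1 - k) + L (k + 1) := by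
      unfold xs7
      rw [hcard (k + 1) hk, ← hmd, Nat.cast_sub hk]
      push_cast
      ring
    rw [h3, sum_Icc_succ_top (by omega : 1 ≤ k + 1)]
    ring
  linarith

/-- number of levels `1 ≤ i ≤ k` without edge exit -/
noncomputable def n0 (τ : Finset α → Lab) (V : Finset α) (π : List α) (k : ℕ) : ℝ :=
  ∑ i ∈ Icc 1 k, if ∀ x ∈ V \ pre π i, τ (insert x (pre π i)) ≠ Lab.B then 1 else 0

/-- **CT0'**, path form: one state -/
theorem CT0_Av (τ : Finset α → Lab) (ρ : α → ℝ) (V : Finset α) (h0 : τ ∅ = Lab.A)
    (hV : τ V ≠ Lab.A) (hm : 1 ≤ V.card) (hρ : ∀ x ∈ V, 0 < ρ x ∧ ρ x ≤ 1) :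
    lamn V.card * Av V (fun π => ∑ k ∈ range V.card,
        iE τ π k * (((V.card : ℝ) - 1 - k) + n0 τ V π k)) ≤
      Av V (cst τ ρ V) + Av V (fun π => ∑ i ∈ range V.card,
        iA τ π i * cc V.card (AL τ V (pre π i)).card (V.card - i)) := by
  rcases Nat.eq_or_lt_of_le hm with hm1 | hm2
  · -- one element
    have h1 := T7L_Av τ ρ V h0 hV hm hρ
    have hl : lamn V.card = 0 := by
      rw [← hm1]
      unfold lamn
      simp
    rw [hl, zero_mul] at h1 ⊢
    exact h1
  · have hrun := CT0_run τ ρ V hV hm2 hρ
    have key : ∀ π ∈ seqs V.card V,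
        runC τ (crd τ V) (fun U => pr7 τ ρ V U - lamn V.card * (crd τ V U : ℝ))
          (fun _ x => -Real.log (ρ x)) (fun c U => xs7 ρ V U + lamn V.card * (c : ℝ)) 0 ∅ π =
        lamn V.card * ((V.card : ℝ) - 1) -
          lamn V.card * (∑ k ∈ range V.card,
            iE τ π k * (((V.card : ℝ) - 1 - k) + n0 τ V π k)) +
          cst τ ρ V π + ∑ i ∈ range V.card,
            iA τ π i * cc V.card (AL τ V (pre π i)).card (V.card - i) := by
      intro π hπ
      have h1 := T7L_key τ ρ V h0 hV hm π hπ
      have hlen : π.length = V.card := length_of_mem hπ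
      rw [runA_index π τ _ _ _ (mem_seqs_card.1 hπ).1 h0, hlen] at h1
      rw [runC_index π τ _ _ _ _ _ (mem_seqs_card.1 hπ).1 h0, hlen]
      have hz : iA τ π V.card = 0 := iA_top hV hπ le_rfl
      have e2 := sum_exit τ π V.card (fun i => (crd τ V (pre π i) : ℝ))
      rw [hz, zero_mul, sub_zero] at e2
      have hn0 : ∀ k ∈ range V.card, ∑ i ∈ range (k + 1), (crd τ V (pre π i) : ℝ) =
          n0 τ V π k := by
        intro k hk
        rw [mem_range] at hk
        have h3 : range (k + 1) = insert 0 (Icc 1 k) := by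
          ext i
          simp only [mem_range, mem_insert, mem_Icc]
          omega
        rw [h3, sum_insert (by simp)]
        have h4 : (crd τ V (pre π 0) : ℝ) = 0 := by
          rw [pre_zero]
          unfold crd
          rw [if_neg (fun h => h.1 rfl)]
          simp
        rw [h4, zero_add]
        unfold n0
        refine sum_congr rfl fun i hi => ?_
        rw [mem_Icc] at hi
        have h5 : pre π i ≠ ∅ := by
          intro h6
          have h7 := card_pre_of_mem hπ (show i ≤ V.card by omega)
          rw [h6, card_empty] at h7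
          omega
        unfold crd
        by_cases h6 : ∀ x ∈ V \ pre π i, τ (insert x (pre π i)) ≠ Lab.B
        · rw [if_pos ⟨h5, h6⟩, if_pos h6]
          simp
        · rw [if_neg (fun h => h6 h.2), if_neg h6]
          simp
      -- split
      have e3 : ∑ i ∈ range V.card, iA τ π i *
          (pr7 τ ρ V (pre π i) - lamn V.card * (crd τ V (pre π i) : ℝ)) =
          ∑ i ∈ range V.card, iA τ π i * pr7 τ ρ V (pre π i) -
            lamn V.card * ∑ i ∈ range V.card, iA τ π i * (crd τ V (pre π i) : ℝ) := by
        rw [mul_sum, ← sum_sub_distrib]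
        refine sum_congr rfl fun i _ => ?_
        ring
      have e4 : ∑ k ∈ range V.card, (iE τ π k * ∑ x ∈ nx π k, (-Real.log (ρ x)) +
          iX τ π k * (xs7 ρ V (pre π (k + 1)) + lamn V.card *
            ((0 + ∑ i ∈ range (k + 1), crd τ V (pre π i) : ℕ) : ℝ))) =
          ∑ k ∈ range V.card, (iE τ π k * ∑ x ∈ nx π k, (-Real.log (ρ x)) +
          iX τ π k * xs7 ρ V (pre π (k + 1))) +
          lamn V.card * ∑ k ∈ range V.card, iX τ π k *
            ∑ i ∈ range (k + 1), (crd τ V (pre π i) : ℝ) := by
        rw [mul_sum, ← sum_add_distrib]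
        refine sum_congr rfl fun k _ => ?_
        rw [zero_add]
        push_cast
        ring
      have e5 : ∑ k ∈ range V.card, (iE τ π k + iX τ π k) *
          ∑ i ∈ range (k + 1), (crd τ V (pre π i) : ℝ) =
          ∑ k ∈ range V.card, iE τ π k * n0 τ V π k +
          ∑ k ∈ range V.card, iX τ π k *
            ∑ i ∈ range (k + 1), (crd τ V (pre π i) : ℝ) := by
        rw [← sum_add_distrib]
        refine sum_congr rfl fun k hk => ?_
        rw [← hn0 k hk]
        ring
      have e6 : ∑ k ∈ range V.card, iE τ π k * (((V.card : ℝ) - 1 - k) + n0 τ V π k) =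
          ∑ k ∈ range V.card, iE τ π k * ((V.card : ℝ) - 1 - k) +
          ∑ k ∈ range V.card, iE τ π k * n0 τ V π k := by
        rw [← sum_add_distrib]
        refine sum_congr rfl fun k _ => ?_
        ring
      rw [e3, e4, e6]
      rw [e5] at e2
      rw [← e2]
      rw [mul_add, mul_add]
      linarith [h1]
    rw [Av_congr key, Av_add, Av_add, Av_sub, Av_const, Av_mul] at hrun
    linarith

end R5
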