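import Pool.Agent.Work.MP_8b6acb_ti.T7A

/-!
# The charges in telescoping form (helper55)
-/

namespace R5

open Finset T7

variable {α : Type} [DecidableEq α]

/-- conditioning on the first `k` elements -/
theorem Av_eq_of_split {G : Finset α} {k : ℕ} (hk : k ≤ G.card) {f f' : List α → ℝ}
    (h : ∀ U ∈ powersetCard k G, ∀ π1 ∈ seqs U.card U,
      Av (G \ U) (fun π2 => f (π1 ++ π2)) = Av (G \ U) (fun π2 => f' (π1 ++ π2))) :
    Av G f = Av G f' := by
  rw [Av_split k G hk f, Av_split k G hk f']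
  congr 1
  exact sum_congr rfl fun U hU => Av_congr fun π1 h1 => h U hU π1 h1

theorem Av_le_of_split {G : Finset α} {k : ℕ} (hk : k ≤ G.card) {f f' : List α → ℝ}
    (h : ∀ U ∈ powersetCard k G, ∀ π1 ∈ seqs U.card U,
      Av (G \ U) (fun π2 => f (π1 ++ π2)) ≤ Av (G \ U) (fun π2 => f' (π1 ++ π2))) :
    Av G f ≤ Av G f' := by
  rw [Av_split k G hk f, Av_split k G hk f']
  apply div_le_div_of_nonneg_right _ (Nat.cast_nonneg _)
  exact sum_le_sum fun U hU => Av_mono fun π1 h1 => h U hU π1 h1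

/-- conditioning on the last elements -/
theorem Av_eq_of_split' {G : Finset α} {k : ℕ} (hk : k ≤ G.card) {f f' : List α → ℝ}
    (h : ∀ U ∈ powersetCard k G, ∀ π2 ∈ seqs (G \ U).card (G \ U),
      Av U (fun π1 => f (π1 ++ π2)) = Av U (fun π1 => f' (π1 ++ π2))) :
    Av G f = Av G f' := by
  have sw : ∀ (g : List α → ℝ) (U : Finset α),
      Av U (fun π1 => Av (G \ U) (fun π2 => g (π1 ++ π2))) =
      Av (G \ U) (fun π2 => Av U (fun π1 => g (π1 ++ π2))) := by
    intro g U
    unfold Av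
    simp only [sum_div]
    rw [sum_comm]
    refine sum_congr rfl fun x _ => sum_congr rfl fun y _ => ?_
    ring
  rw [Av_split k G hk f, Av_split k G hk f']
  congr 1
  refine sum_congr rfl fun U hU => ?_
  rw [sw f, sw f']
  exact Av_congr fun π2 h2 => h U hU π2 h2

/-- the last element -/
theorem Av_last {W A : Finset α} (hW : W.Nonempty) (hA : A ⊆ W) (G : ℕ → ℝ) :
    Av W (fun π => G (A ∩ pre π (W.card - 1)).card) =
      ((A.card : ℝ) * G (A.card - 1) + ((W.card : ℝ) - A.card) * G A.card) / (W.card : ℝ) := by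
  rw [Av_snoc hW]
  congr 1
  have h1 : ∀ x ∈ W, Av (W.erase x) (fun π => G (A ∩ pre (π ++ [x]) (W.card - 1)).card) =
      G (A.erase x).card := by
    intro x hx
    refine (Av_congr (f' := fun _ => G (A.erase x).card) fun π hπ => ?_).trans (Av_const _ _)
    have hl : π.length = W.card - 1 := by rw [length_of_mem hπ, card_erase_of_mem hx]
    rw [pre_append_le (le_of_eq hl.symm), ← hl, pre_of_ge le_rfl, (mem_seqs_card.1 hπ).2]
    congr 2
    ext y
    simp only [mem_inter, mem_erase]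
    constructor
    · rintro ⟨h1, h2, _⟩
      exact ⟨h2, h1⟩
    · rintro ⟨h1, h2⟩
      exact ⟨h2, h1, hA h2⟩
  rw [sum_congr rfl h1, ← sum_sdiff hA]
  have h2 : ∑ x ∈ W \ A, G (A.erase x).card = ((W.card : ℝ) - A.card) * G A.card := by
    have : ∀ x ∈ W \ A, G (A.erase x).card = G A.card := by
      intro x hx
      rw [erase_eq_of_notMem (mem_sdiff.1 hx).2]
    rw [sum_congr rfl this, sum_const, nsmul_eq_mul, card_sdiff_cast hA]
  have h3 : ∑ x ∈ A, G (A.erase x).card = (A.card : ℝ) * G (A.card - 1) := by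
    have : ∀ x ∈ A, G (A.erase x).card = G (A.card - 1) := by
      intro x hx
      rw [card_erase_of_mem hx]
    rw [sum_congr rfl this, sum_const, nsmul_eq_mul]
  rw [h2, h3]
  ring

theorem iA_append {τ : Finset α → Lab} {π1 π2 : List α} {i : ℕ} (h : i ≤ π1.length) :
    iA τ (π1 ++ π2) i = iA τ π1 i := iA_congr (allA_append h)

theorem AL_inter {τ : Finset α → Lab} {V U P : Finset α} (hP : P ⊆ V \ U) :
    AL τ (U ∪ P) U = AL τ V U ∩ P := by
  unfold AL
  ext z
  simp only [mem_filter, mem_sdiff, mem_union, mem_inter]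
  constructor
  · rintro ⟨⟨h1 | h1, h2⟩, h3⟩
    · exact absurd h1 h2
    · exact ⟨⟨mem_sdiff.1 (hP h1), h3⟩, h1⟩
  · rintro ⟨⟨h1, h3⟩, h2⟩
    exact ⟨⟨Or.inr h2, (mem_sdiff.1 (hP h2)).2⟩, h3⟩

/-- the charge of a level -/
theorem charge_num {m a n : ℕ} (han : a ≤ n) (hnm : n ≤ m) (hn : 1 ≤ n) :
    cc m a n = gg m a - ((a : ℝ) * gg (m - 1) (a - 1) + ((n : ℝ) - a) * gg (m - 1) a) / n := by
  have hn0 : (0 : ℝ) < n := by exact_mod_cast hn
  have hL : a + 1 ≤ m → Lf m a = Real.log ((m : ℝ) / ((m : ℝ) - a)) := by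
    intro ha
    unfold Lf
    have h1 : (a : ℝ) + 1 ≤ m := by exact_mod_cast ha
    have h0 : (0 : ℝ) ≤ a := Nat.cast_nonneg a
    have h2 : (0 : ℝ) < m := by linarith
    rw [← Real.log_inv]
    congr 1
    have h3 : (0 : ℝ) < (m : ℝ) - a := by linarith
    field_simp
  rcases Nat.eq_zero_or_pos a with rfl | ha
  · have h1 : Lf m ((0 : ℕ) : ℝ) = 0 := by
      unfold Lf
      simp
    have h2 : gg m 0 = 0 := by simp [gg]
    have h3 : gg (m - 1) 0 = 0 := by simp [gg]
    unfold cc
    rw [h1, h2, h3]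
    simp
  · obtain ⟨b, rfl⟩ : ∃ b, a = b + 1 := ⟨a - 1, by omega⟩
    have h1 := Lev.del_live (m := m) (a := b) (by omega)
    rw [Nat.add_sub_cancel]
    have hlam : lamn m = Real.log ((m : ℝ) / ((m : ℝ) - 1)) := rfl
    rcases Nat.eq_or_lt_of_le han with he | hlt
    · -- all elements are live
      have h3 : (n : ℝ) = ((b + 1 : ℕ) : ℝ) := by rw [he]
      rw [h3, sub_self, zero_mul, add_zero]
      have hb0 : (0 : ℝ) < ((b + 1 : ℕ) : ℝ) := by positivity
      rw [mul_div_cancel_left₀ _ hb0.ne', h1, ← hlam]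
      have h4 : ((n : ℕ) : ℝ) = ((b + 1 : ℕ) : ℝ) := h3
      unfold cc
      rw [h4, div_self hb0.ne']
      push_cast
      ring
    · have h2 := Lev.del_dead (m := m) (a := b + 1) (by omega)
      rw [← hlam] at h1 h2
      rw [← hL (by omega)] at h2
      unfold cc
      have e1 : gg (m - 1) b = gg m (b + 1) - b * lamn m := by linarith
      have e2 : gg (m - 1) (b + 1) = gg m (b + 1) - ((b + 1 : ℕ) : ℝ) * lamn m +
          Lf m ((b + 1 : ℕ) : ℝ) := by linarith
      rw [e1, e2]
      field_simp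
      push_cast
      ring

/-- the charges in telescoping form -/
theorem charge_g (τ : Finset α → Lab) (V : Finset α) {i : ℕ} (hi : i < V.card) :
    Av V (fun π => iA τ π i * cc V.card (AL τ V (pre π i)).card (V.card - i)) =
      Av V (fun π => iA τ π i * (gg V.card (AL τ V (pre π i)).card -
        gg (V.card - 1) (AL τ (pre π (V.card - 1)) (pre π i)).card)) := by
  apply Av_eq_of_split hi.le
  intro U hU π1 h1
  obtain ⟨hU1, hU2⟩ := mem_powersetCard.1 hU
  have hl : π1.length = i := by rw [length_of_mem h1, hU2]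
  have hpU : pre π1 i = U := pre_card_of_mem h1 (le_of_eq hU2)
  have hne : (V \ U).Nonempty := by
    rw [← card_pos, card_sdiff_of_subset hU1]
    omega
  have hc : (V \ U).card = V.card - i := by rw [card_sdiff_of_subset hU1, hU2]
  have e1 : ∀ π2 : List α, iA τ (π1 ++ π2) i = iA τ π1 i := fun π2 =>
    iA_append (le_of_eq hl.symm)
  have e2 : ∀ π2 : List α, pre (π1 ++ π2) i = U := fun π2 => by
    rw [pre_append_le (le_of_eq hl.symm), hpU]
  have e3 : ∀ π2 ∈ seqs (V \ U).card (V \ U),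
      AL τ (pre (π1 ++ π2) (V.card - 1)) U = AL τ V U ∩ pre π2 ((V \ U).card - 1) := by
    intro π2 h2
    have h3 : V.card - 1 = π1.length + ((V \ U).card - 1) := by
      rw [hl, hc]
      omega
    rw [h3, pre_append_add, (mem_seqs_card.1 h1).2]
    exact AL_inter (pre_subset_of_mem h2 _)
  simp only [e1, e2]
  rw [Av_const]
  have e4 : Av (V \ U) (fun π2 => iA τ π1 i * (gg V.card (AL τ V U).card -
        gg (V.card - 1) (AL τ (pre (π1 ++ π2) (V.card - 1)) U).card)) =
      iA τ π1 i * (gg V.card (AL τ V U).card -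
        Av (V \ U) (fun π2 => gg (V.card - 1) (AL τ V U ∩ pre π2 ((V \ U).card - 1)).card)) := by
    rw [← Av_const (V \ U) (gg V.card (AL τ V U).card), ← Av_sub, ← Av_mul]
    refine Av_congr fun π2 h2 => ?_
    rw [e3 π2 h2, Av_const]
  have hAL : AL τ V U ⊆ V \ U := filter_subset _ _
  rw [e4, Av_last hne hAL (fun a => gg (V.card - 1) a)]
  congr 1
  have h5 : (AL τ V U).card ≤ (V \ U).card := card_le_card (filter_subset _ _)
  rw [← hc]
  exact charge_num h5 (card_le_card sdiff_subset) (card_pos.2 hne)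

end R5
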