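import Pool.Agent.Work.MP_8b6acb_ti.Av

/-!
# Prefix sets, initial A-runs and final B-runs (helper55)
-/

namespace R5

open Finset

variable {α : Type} [DecidableEq α]

/-- prefix sets of an order -/
def pre (π : List α) (j : ℕ) : Finset α := (π.take j).toFinset

/-- all prefix sets up to level `i` have label `A` -/
def allA (τ : Finset α → Lab) (π : List α) (i : ℕ) : Prop :=
  ∀ j ∈ range (i + 1), τ (pre π j) = Lab.A

instance (τ : Finset α → Lab) (π : List α) (i : ℕ) : Decidable (allA τ π i) := by
  unfold allA; infer_instance

/-- all prefix sets from level `j` on have label `B` -/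
def allB (τ : Finset α → Lab) (π : List α) (j : ℕ) : Prop :=
  ∀ i ∈ Icc j π.length, τ (pre π i) = Lab.B

instance (τ : Finset α → Lab) (π : List α) (j : ℕ) : Decidable (allB τ π j) := by
  unfold allB; infer_instance

/-- all sets `V ∪ prefix` have label `B` -/
def goodB (τ : Finset α → Lab) (V : Finset α) (π : List α) : Prop :=
  ∀ i ∈ range (π.length + 1), τ (V ∪ pre π i) = Lab.B

instance (τ : Finset α → Lab) (V : Finset α) (π : List α) : Decidable (goodB τ V π) := by
  unfold goodB; infer_instance

@[simp] theorem pre_zero (π : List α) : pre π 0 = ∅ := by simp [pre]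

@[simp] theorem pre_nil (j : ℕ) : pre ([] : List α) j = ∅ := by simp [pre]

theorem pre_of_ge {π : List α} {j : ℕ} (h : π.length ≤ j) : pre π j = π.toFinset := by
  unfold pre
  rw [List.take_of_length_le h]

theorem pre_cons_succ (x : α) (π : List α) (i : ℕ) :
    pre (x :: π) (i + 1) = insert x (pre π i) := by
  unfold pre
  rw [List.take_succ_cons, List.toFinset_cons]

theorem pre_append_le {π1 π2 : List α} {j : ℕ} (h : j ≤ π1.length) :
    pre (π1 ++ π2) j = pre π1 j := by
  unfold pre
  rw [List.take_append_of_le_length h]

theorem pre_append_add {π1 π2 : List α} {i : ℕ} :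
    pre (π1 ++ π2) (π1.length + i) = π1.toFinset ∪ pre π2 i := by
  unfold pre
  rw [List.take_length_add_append, List.toFinset_append]

theorem pre_take {π : List α} {i j : ℕ} (h : i ≤ j) : pre (π.take j) i = pre π i := by
  unfold pre
  rw [List.take_take, min_eq_left h]

theorem pre_take_ge {π : List α} {i j : ℕ} (h : j ≤ i) : pre (π.take j) i = pre π j := by
  unfold pre
  rw [List.take_take, min_eq_right h]

theorem pre_mono {π : List α} {i j : ℕ} (h : i ≤ j) : pre π i ⊆ pre π j := by
  intro x hx
  unfold pre at hx ⊢
  rw [List.mem_toFinset] at hx ⊢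
  exact (List.take_sublist_take_left h).subset hx

theorem pre_subset (π : List α) (j : ℕ) : pre π j ⊆ π.toFinset := by
  intro x hx
  unfold pre at hx
  rw [List.mem_toFinset] at hx ⊢
  exact List.mem_of_mem_take hx

theorem pre_subset_of_mem {G : Finset α} {π : List α} (h : π ∈ seqs G.card G) (j : ℕ) :
    pre π j ⊆ G := by
  have := pre_subset π j
  rwa [(mem_seqs_card.1 h).2] at this

theorem pre_card_of_mem {G : Finset α} {π : List α} (h : π ∈ seqs G.card G) {j : ℕ}
    (hj : G.card ≤ j) : pre π j = G := by
  rw [pre_of_ge (by rw [length_of_mem h]; exact hj), (mem_seqs_card.1 h).2]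

theorem card_pre {π : List α} (h : π.Nodup) {j : ℕ} (hj : j ≤ π.length) : (pre π j).card = j := by
  unfold pre
  rw [List.toFinset_card_of_nodup (h.sublist (List.take_sublist _ _)), List.length_take,
    min_eq_left hj]

theorem card_pre_of_mem {G : Finset α} {π : List α} (h : π ∈ seqs G.card G) {j : ℕ}
    (hj : j ≤ G.card) : (pre π j).card = j :=
  card_pre (mem_seqs_card.1 h).1 (by rw [length_of_mem h]; exact hj)

theorem take_mem {G : Finset α} {π : List α} (h : π ∈ seqs G.card G) (j : ℕ) :
    π.take j ∈ seqs (pre π j).card (pre π j) := by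
  rw [mem_seqs_card]
  exact ⟨(mem_seqs_card.1 h).1.sublist (List.take_sublist _ _), rfl⟩

theorem drop_mem {G : Finset α} {π : List α} (h : π ∈ seqs G.card G) (j : ℕ) :
    π.drop j ∈ seqs (G \ pre π j).card (G \ pre π j) := by
  rw [mem_seqs_card]
  obtain ⟨h1, h2⟩ := mem_seqs_card.1 h
  refine ⟨h1.sublist (List.drop_sublist _ _), ?_⟩
  ext x
  rw [List.mem_toFinset, mem_sdiff, ← h2]
  unfold pre
  rw [List.mem_toFinset, List.mem_toFinset]
  have h3 : x ∈ π ↔ x ∈ π.take j ∨ x ∈ π.drop j := by
    rw [← List.mem_append, List.take_append_drop]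
  have h4 : List.Disjoint (π.take j) (π.drop j) := by
    have : (π.take j ++ π.drop j).Nodup := by rw [List.take_append_drop]; exact h1
    exact (List.nodup_append'.1 this).2.2
  constructor
  · intro hx
    exact ⟨h3.2 (Or.inr hx), fun h5 => h4 h5 hx⟩
  · rintro ⟨h5, h6⟩
    exact (h3.1 h5).resolve_left h6

theorem allA_mono {τ : Finset α → Lab} {π : List α} {i j : ℕ} (h : i ≤ j) (hj : allA τ π j) :
    allA τ π i := fun k hk => hj k (by rw [mem_range] at hk ⊢; omega)

theorem allB_mono {τ : Finset α → Lab} {π : List α} {i j : ℕ} (h : i ≤ j) (hi : allB τ π i) :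
    allB τ π j := fun k hk => hi k (by rw [mem_Icc] at hk ⊢; omega)

theorem allA_congr {τ : Finset α → Lab} {π π' : List α} {i : ℕ}
    (h : ∀ j ≤ i, pre π j = pre π' j) : allA τ π i ↔ allA τ π' i := by
  constructor
  · intro hA k hk
    rw [← h _ (by rw [mem_range] at hk; omega)]
    exact hA k hk
  · intro hA k hk
    rw [h _ (by rw [mem_range] at hk; omega)]
    exact hA k hk

theorem allA_take {τ : Finset α → Lab} {π : List α} {i j : ℕ} (h : i ≤ j) :
    allA τ (π.take j) i ↔ allA τ π i := allA_congr fun k hk => pre_take (hk.trans h)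

theorem allA_append {τ : Finset α → Lab} {π1 π2 : List α} {i : ℕ} (h : i ≤ π1.length) :
    allA τ (π1 ++ π2) i ↔ allA τ π1 i := allA_congr fun k hk => pre_append_le (hk.trans h)

theorem allA_succ {τ : Finset α → Lab} {π : List α} {i : ℕ} :
    allA τ π (i + 1) ↔ allA τ π i ∧ τ (pre π (i + 1)) = Lab.A := by
  constructor
  · intro h
    exact ⟨allA_mono (Nat.le_succ i) h, h (i + 1) (by simp)⟩
  · rintro ⟨h1, h2⟩ k hk
    rw [mem_range] at hk
    rcases Nat.lt_succ_iff_lt_or_eq.1 hk with h3 | h3
    · exact h1 k (by rw [mem_range]; omega)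
    · rw [h3]; exact h2

theorem allA_zero {τ : Finset α → Lab} {π : List α} : allA τ π 0 ↔ τ ∅ = Lab.A := by
  unfold allA
  simp

theorem allB_pred {τ : Finset α → Lab} {π : List α} {j : ℕ} (hj : j < π.length) :
    allB τ π j ↔ τ (pre π j) = Lab.B ∧ allB τ π (j + 1) := by
  constructor
  · intro h
    exact ⟨h j (by rw [mem_Icc]; omega), allB_mono (Nat.le_succ j) h⟩
  · rintro ⟨h1, h2⟩ k hk
    rw [mem_Icc] at hk
    rcases Nat.eq_or_lt_of_le hk.1 with h3 | h3
    · rw [← h3]; exact h1
    · exact h2 k (by rw [mem_Icc]; omega)

theorem allB_length {τ : Finset α → Lab} {π : List α} :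
    allB τ π π.length ↔ τ π.toFinset = Lab.B := by
  unfold allB
  constructor
  · intro h
    have := h π.length (by simp)
    rwa [pre_of_ge le_rfl] at this
  · intro h k hk
    rw [mem_Icc] at hk
    rw [pre_of_ge hk.1]
    exact h

/-- A label function along a second piece. -/
theorem allB_append {τ : Finset α → Lab} {π1 π2 : List α} :
    allB τ (π1 ++ π2) π1.length ↔ goodB τ π1.toFinset π2 := by
  unfold allB goodB
  constructor
  · intro h i hi
    rw [mem_range] at hi
    have := h (π1.length + i) (by rw [mem_Icc, List.length_append]; omega)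
    rwa [pre_append_add] at this
  · intro h k hk
    rw [mem_Icc, List.length_append] at hk
    obtain ⟨i, rfl⟩ := Nat.exists_eq_add_of_le hk.1
    rw [pre_append_add]
    exact h i (by rw [mem_range]; omega)

/-- `fw` as an average -/
theorem fw_eq_Av (τ : Finset α → Lab) (V : Finset α) :
    fw τ V = Av V (fun π => if allA τ π V.card then 1 else 0) := by
  induction hn : V.card using Nat.strong_induction_on generalizing V with
  | _ n ih =>
    rcases V.eq_empty_or_nonempty with rfl | hV
    · rw [fw_empty, Av_empty]
      simp only [card_empty] at hn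
      subst hn
      simp only [allA_zero]
    · rw [fw_rec hV.ne_empty, Av_snoc hV]
      obtain ⟨m, hm⟩ : ∃ m, V.card = m + 1 := Nat.exists_eq_succ_of_ne_zero (card_pos.2 hV).ne'
      rw [← hn] at ih ⊢
      have h1 : ∀ g ∈ V, Av (V.erase g) (fun π => if allA τ (π ++ [g]) V.card then (1 : ℝ) else 0) =
          (if τ V = Lab.A then 1 else 0) * fw τ (V.erase g) := by
        intro g hg
        have hc : (V.erase g).card = m := by rw [card_erase_of_mem hg, hm]; rfl
        rw [ih _ (card_erase_lt_of_mem hg) (V.erase g) rfl, ← Av_mul]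
        refine Av_congr fun π hπ => ?_
        have hl : π.length = m := by rw [length_of_mem hπ, hc]
        have h2 : allA τ (π ++ [g]) V.card ↔ allA τ π (V.erase g).card ∧ τ V = Lab.A := by
          rw [hm, allA_succ, hc]
          rw [allA_append (by rw [hl])]
          have h3 : pre (π ++ [g]) (m + 1) = V := by
            rw [pre_of_ge (by simp [hl]), List.toFinset_append, (mem_seqs_card.1 hπ).2]
            ext y
            simp only [mem_union, mem_erase, List.mem_toFinset, List.mem_singleton]
            constructor
            · rintro (h | h)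
              · exact h.2
              · rw [h]; exact hg
            · intro h
              by_cases hy : y = g
              · exact Or.inr hy
              · exact Or.inl ⟨hy, h⟩
          rw [h3]
        simp only [h2]
        by_cases hA : τ V = Lab.A
        · simp [hA]
        · simp [hA]
      rw [sum_congr rfl h1, ← mul_sum, mul_div_assoc]
      unfold fwb
      split_ifs <;> simp

/-- `bw` as an average -/
theorem bw_eq_Av (τ : Finset α → Lab) {D : Finset α} : ∀ (V : Finset α), V ⊆ D →
    bw τ D V = Av (D \ V) (fun π => if goodB τ V π then 1 else 0) := by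
  have key : ∀ (n : ℕ) (V : Finset α), V ⊆ D → (D \ V).card = n →
      bw τ D V = Av (D \ V) (fun π => if goodB τ V π then 1 else 0) := by
    intro n
    induction n with
    | zero =>
      intro V hV hn
      have h1 : D \ V = ∅ := card_eq_zero.1 hn
      have h2 : V = D := Subset.antisymm hV (sdiff_eq_empty_iff_subset.1 h1)
      subst h2
      rw [bw_top, h1, Av_empty]
      have : goodB τ V [] ↔ τ V = Lab.B := by
        unfold goodB
        simp
      simp only [this]
    | succ n ih =>
      intro V hV hn
      have hne : (D \ V).Nonempty := card_pos.1 (by omega)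
      have hVD : V ≠ D := by
        rintro rfl
        simp at hn
      rw [bw_rec hV hVD, Av_cons hne]
      have h1 : ∀ g ∈ D \ V, Av ((D \ V).erase g)
          (fun π => if goodB τ V (g :: π) then (1 : ℝ) else 0) =
          (if τ V = Lab.B then 1 else 0) * bw τ D (insert g V) := by
        intro g hg
        rw [mem_sdiff] at hg
        have hc : (D \ insert g V).card = n := by
          rw [← sdiff_erase_eq, card_erase_of_mem (mem_sdiff.2 hg), hn]; rfl
        rw [ih (insert g V) (insert_subset hg.1 hV) hc, ← Av_mul, sdiff_erase_eq]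
        refine Av_congr fun π hπ => ?_
        have h2 : goodB τ V (g :: π) ↔ goodB τ (insert g V) π ∧ τ V = Lab.B := by
          unfold goodB
          rw [List.length_cons]
          constructor
          · intro h
            refine ⟨fun i hi => ?_, ?_⟩
            · have := h (i + 1) (by rw [mem_range] at hi ⊢; omega)
              rw [pre_cons_succ] at this
              rwa [insert_union, ← union_insert]
            · have := h 0 (by simp)
              simpa using this
          · rintro ⟨h3, h4⟩ i hi
            cases i with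
            | zero => simpa using h4
            | succ i =>
              rw [pre_cons_succ, union_insert, ← insert_union]
              exact h3 i (by rw [mem_range] at hi ⊢; omega)
        simp only [h2]
        by_cases hB : τ V = Lab.B
        · simp [hB]
        · simp [hB]
      rw [sum_congr rfl h1, ← mul_sum, mul_div_assoc]
      unfold bwb
      split_ifs <;> simp
  exact fun V hV => key _ V hV rfl

/-- chains of `A`-sets -/
theorem chain_A (τ : Finset α → Lab) {D : Finset α} {i : ℕ} (hi : i ≤ D.card)
    (h : Finset α → List α → ℝ) :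
    ∑ X ∈ powersetCard i D, fw τ X / (D.card.choose i : ℝ) * Av (D \ X) (h X) =
      Av D (fun π => if allA τ π i then h (pre π i) (π.drop i) else 0) := by
  have e : Av D (fun π => if allA τ π i then h (pre π i) (π.drop i) else 0) =
      Av D (fun π => (fun (π1 π2 : List α) => if allA τ π1 i then h π1.toFinset π2 else 0)
        (π.take i) (π.drop i)) := by
    refine Av_congr fun π _ => ?_
    simp only [allA_take (le_refl i)]
    rfl
  rw [e, Av_take_drop hi (fun (π1 π2 : List α) => if allA τ π1 i then h π1.toFinset π2 else 0),
    sum_div]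
  refine sum_congr rfl fun X hX => ?_
  obtain ⟨hX1, hX2⟩ := mem_powersetCard.1 hX
  rw [fw_eq_Av, hX2, div_mul_eq_mul_div, ← Av_mul_right]
  congr 1
  refine Av_congr fun π1 h1 => ?_
  simp only [(mem_seqs_card.1 h1).2]
  split_ifs with hA
  · rw [one_mul]
  · rw [zero_mul, Av_zero]

/-- chains of `B`-sets -/
theorem chain_B (τ : Finset α → Lab) {D : Finset α} {j : ℕ} (hj : j ≤ D.card)
    (h : Finset α → List α → ℝ) :
    ∑ V ∈ powersetCard j D, bw τ D V / (D.card.choose j : ℝ) * Av V (h V) =
      Av D (fun π => if allB τ π j then h (pre π j) (π.take j) else 0) := by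
  have e : Av D (fun π => if allB τ π j then h (pre π j) (π.take j) else 0) =
      Av D (fun π => (fun (π1 π2 : List α) => if goodB τ π1.toFinset π2 then
        h π1.toFinset π1 else 0) (π.take j) (π.drop j)) := by
    refine Av_congr fun π hπ => ?_
    have hl : (π.take j).length = j := by
      rw [List.length_take, length_of_mem hπ, min_eq_left hj]
    have h1 := allB_append (τ := τ) (π1 := π.take j) (π2 := π.drop j)
    rw [List.take_append_drop, hl] at h1
    simp only [h1]
    rfl
  rw [e, Av_take_drop hj (fun (π1 π2 : List α) => if goodB τ π1.toFinset π2 then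
        h π1.toFinset π1 else 0), sum_div]
  refine sum_congr rfl fun V hV => ?_
  obtain ⟨hV1, hV2⟩ := mem_powersetCard.1 hV
  rw [bw_eq_Av τ V hV1, div_mul_eq_mul_div, ← Av_mul]
  congr 1
  refine Av_congr fun π1 h1 => ?_
  simp only [(mem_seqs_card.1 h1).2]
  rw [← Av_mul_right]
  refine Av_congr fun π2 _ => ?_
  split_ifs <;> simp

end R5
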