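import Pool.Agent.Work.MP_8b6acb_ti.TForm2

/-!
# First exit functionals: recursion and index form (helper55)
-/

namespace R5

open Finset

variable {α : Type} [DecidableEq α]

/-- value of a step -/
noncomputable def vl (τ : Finset α → Lab) (Ψ : Finset α → ℝ) (ex : Finset α → α → ℝ)
    (xs : Finset α → ℝ) (U : Finset α) (x : α) : ℝ :=
  match τ (insert x U) with
  | Lab.A => Ψ (insert x U)
  | Lab.B => ex U x
  | Lab.X => xs (insert x U)

/-- first exit functional -/
noncomputable def runA (τ : Finset α → Lab) (pr : Finset α → ℝ) (ex : Finset α → α → ℝ)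
    (xs : Finset α → ℝ) : Finset α → List α → ℝ
  | _, [] => 0
  | U, x :: π => pr U + (match τ (insert x U) with
      | Lab.A => runA τ pr ex xs (insert x U) π
      | Lab.B => ex U x
      | Lab.X => xs (insert x U))

theorem runA_cons (τ : Finset α → Lab) (pr : Finset α → ℝ) (ex : Finset α → α → ℝ)
    (xs : Finset α → ℝ) (U : Finset α) (x : α) (π : List α) :
    runA τ pr ex xs U (x :: π) = pr U + (match τ (insert x U) with
      | Lab.A => runA τ pr ex xs (insert x U) π
      | Lab.B => ex U x
      | Lab.X => xs (insert x U)) := rfl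

/-- one step -/
theorem Av_runA (τ : Finset α → Lab) (pr : Finset α → ℝ) (ex : Finset α → α → ℝ)
    (xs : Finset α → ℝ) {V U : Finset α} (hne : (V \ U).Nonempty) :
    Av (V \ U) (runA τ pr ex xs U) = pr U +
      (∑ x ∈ V \ U, vl τ (fun U' => Av (V \ U') (runA τ pr ex xs U')) ex xs U x) /
        ((V \ U).card : ℝ) := by
  rw [Av_cons hne]
  have hn : (0 : ℝ) < ((V \ U).card : ℝ) := by exact_mod_cast card_pos.2 hne
  have h1 : ∀ x ∈ V \ U, Av ((V \ U).erase x) (fun π => runA τ pr ex xs U (x :: π)) =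
      pr U + vl τ (fun U' => Av (V \ U') (runA τ pr ex xs U')) ex xs U x := by
    intro x _
    have h2 : (fun π => runA τ pr ex xs U (x :: π)) = fun π => pr U + (match τ (insert x U) with
      | Lab.A => runA τ pr ex xs (insert x U) π
      | Lab.B => ex U x
      | Lab.X => xs (insert x U)) := rfl
    rw [h2, Av_add, Av_const, sdiff_erase_eq]
    congr 1
    unfold vl
    cases τ (insert x U)
    · rfl
    · exact Av_const _ _
    · exact Av_const _ _
  rw [sum_congr rfl h1, sum_add_distrib, sum_const, nsmul_eq_mul, add_div]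
  field_simp

/-- comparison with a potential -/
theorem run_ge (τ : Finset α → Lab) (pr : Finset α → ℝ) (ex : Finset α → α → ℝ)
    (xs : Finset α → ℝ) (V : Finset α) (hV : τ V ≠ Lab.A) (Ψ : Finset α → ℝ)
    (hstep : ∀ U ⊆ V, U.Nonempty → U ≠ V → τ U = Lab.A →
      Ψ U ≤ pr U + (∑ x ∈ V \ U, vl τ Ψ ex xs U x) / ((V \ U).card : ℝ)) :
    ∀ U ⊆ V, U.Nonempty → U ≠ V → τ U = Lab.A → Ψ U ≤ Av (V \ U) (runA τ pr ex xs U) := by
  have key : ∀ (n : ℕ) (U : Finset α), (V \ U).card = n → U ⊆ V → U.Nonempty → U ≠ V →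
      τ U = Lab.A → Ψ U ≤ Av (V \ U) (runA τ pr ex xs U) := by
    intro n
    induction n using Nat.strong_induction_on with
    | _ n ih =>
      intro U hn hU hU0 hne hA
      have hne' : (V \ U).Nonempty := by
        rw [nonempty_iff_ne_empty, Ne, sdiff_eq_empty_iff_subset]
        intro h
        exact hne (Subset.antisymm hU h)
      rw [Av_runA τ pr ex xs hne']
      refine (hstep U hU hU0 hne hA).trans ?_
      have h1 : ∀ x ∈ V \ U, vl τ Ψ ex xs U x ≤
          vl τ (fun U' => Av (V \ U') (runA τ pr ex xs U')) ex xs U x := by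
        intro x hx
        have hx' := mem_sdiff.1 hx
        unfold vl
        rcases hl : τ (insert x U) with _ | _ | _
        · have h2 : (V \ insert x U).card < n := by
            rw [← sdiff_erase_eq, ← hn]
            exact card_erase_lt_of_mem hx
          exact ih _ h2 (insert x U) rfl (insert_subset hx'.1 hU) (insert_nonempty _ _)
            (fun h => hV (h ▸ hl)) hl
        · exact le_rfl
        · exact le_rfl
      have h2 := sum_le_sum h1
      have h3 := div_le_div_of_nonneg_right h2 (Nat.cast_nonneg ((V \ U).card))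
      linarith
  exact fun U hU hU0 hne hA => key _ U rfl hU hU0 hne hA

/-- comparison with a potential, from the empty set -/
theorem run_ge_top (τ : Finset α → Lab) (pr : Finset α → ℝ) (ex : Finset α → α → ℝ)
    (xs : Finset α → ℝ) (V : Finset α) (hV : τ V ≠ Lab.A) (hne : V.Nonempty) (Ψ : Finset α → ℝ)
    (hstep : ∀ U ⊆ V, U.Nonempty → U ≠ V → τ U = Lab.A →
      Ψ U ≤ pr U + (∑ x ∈ V \ U, vl τ Ψ ex xs U x) / ((V \ U).card : ℝ)) :
    pr ∅ + (∑ x ∈ V, vl τ Ψ ex xs ∅ x) / (V.card : ℝ) ≤ Av V (runA τ pr ex xs ∅) := by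
  have h0 := Av_runA τ pr ex xs (V := V) (U := ∅) (by simpa using hne)
  rw [sdiff_empty] at h0
  rw [h0]
  have h1 : ∀ x ∈ V, vl τ Ψ ex xs ∅ x ≤
      vl τ (fun U' => Av (V \ U') (runA τ pr ex xs U')) ex xs ∅ x := by
    intro x hx
    unfold vl
    rcases hl : τ (insert x ∅) with _ | _ | _
    · exact run_ge τ pr ex xs V hV Ψ hstep (insert x ∅) (insert_subset hx (empty_subset _))
        (insert_nonempty _ _) (fun h => hV (h ▸ hl)) hl
    · exact le_rfl
    · exact le_rfl
  have h2 := sum_le_sum h1
  have h3 := div_le_div_of_nonneg_right h2 (Nat.cast_nonneg V.card)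
  linarith

/-! ### index form -/

/-- indicators -/
noncomputable def iA (τ : Finset α → Lab) (π : List α) (i : ℕ) : ℝ := if allA τ π i then 1 else 0
noncomputable def iE (τ : Finset α → Lab) (π : List α) (i : ℕ) : ℝ := if exE τ π i then 1 else 0
noncomputable def iX (τ : Finset α → Lab) (π : List α) (i : ℕ) : ℝ := if exX τ π i then 1 else 0

theorem iA_nonneg (τ : Finset α → Lab) (π : List α) (i : ℕ) : 0 ≤ iA τ π i := by
  unfold iA; split_ifs <;> norm_num
theorem iE_nonneg (τ : Finset α → Lab) (π : List α) (i : ℕ) : 0 ≤ iE τ π i := by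
  unfold iE; split_ifs <;> norm_num
theorem iX_nonneg (τ : Finset α → Lab) (π : List α) (i : ℕ) : 0 ≤ iX τ π i := by
  unfold iX; split_ifs <;> norm_num

theorem iA_pos {τ : Finset α → Lab} {π : List α} {i : ℕ} (h : allA τ π i) : iA τ π i = 1 :=
  if_pos h
theorem iA_neg {τ : Finset α → Lab} {π : List α} {i : ℕ} (h : ¬ allA τ π i) : iA τ π i = 0 :=
  if_neg h
theorem iE_pos {τ : Finset α → Lab} {π : List α} {i : ℕ} (h : exE τ π i) : iE τ π i = 1 :=
  if_pos h
theorem iE_neg {τ : Finset α → Lab} {π : List α} {i : ℕ} (h : ¬ exE τ π i) : iE τ π i = 0 :=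
  if_neg h
theorem iX_pos {τ : Finset α → Lab} {π : List α} {i : ℕ} (h : exX τ π i) : iX τ π i = 1 :=
  if_pos h
theorem iX_neg {τ : Finset α → Lab} {π : List α} {i : ℕ} (h : ¬ exX τ π i) : iX τ π i = 0 :=
  if_neg h

theorem iA_congr {τ τ' : Finset α → Lab} {π π' : List α} {i i' : ℕ}
    (h : allA τ π i ↔ allA τ' π' i') : iA τ π i = iA τ' π' i' := if_congr h rfl rfl
theorem iE_congr {τ τ' : Finset α → Lab} {π π' : List α} {i i' : ℕ}
    (h : exE τ π i ↔ exE τ' π' i') : iE τ π i = iE τ' π' i' := if_congr h rfl rfl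
theorem iX_congr {τ τ' : Finset α → Lab} {π π' : List α} {i i' : ℕ}
    (h : exX τ π i ↔ exX τ' π' i') : iX τ π i = iX τ' π' i' := if_congr h rfl rfl

/-- an exit happens when the A-run stops -/
theorem iE_add_iX (τ : Finset α → Lab) (π : List α) (k : ℕ) :
    iE τ π k + iX τ π k = iA τ π k - iA τ π (k + 1) := by
  by_cases h : allA τ π k
  · rw [iA_pos h]
    rcases hl : τ (pre π (k + 1)) with _ | _ | _
    · rw [iE_neg (fun h' => by rw [h'.2] at hl; exact absurd hl (by decide)),
        iX_neg (fun h' => by rw [h'.2] at hl; exact absurd hl (by decide)),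
        iA_pos (allA_succ.2 ⟨h, hl⟩)]
      ring
    · rw [iE_pos ⟨h, hl⟩,
        iX_neg (fun h' => by rw [h'.2] at hl; exact absurd hl (by decide)),
        iA_neg (fun h' => by rw [(allA_succ.1 h').2] at hl; exact absurd hl (by decide))]
      ring
    · rw [iX_pos ⟨h, hl⟩,
        iE_neg (fun h' => by rw [h'.2] at hl; exact absurd hl (by decide)),
        iA_neg (fun h' => by rw [(allA_succ.1 h').2] at hl; exact absurd hl (by decide))]
      ring
  · rw [iA_neg h, iE_neg (fun h' => h h'.1), iX_neg (fun h' => h h'.1),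
      iA_neg (fun h' => h (allA_succ.1 h').1)]
    ring

/-- summation by parts -/
theorem sum_exit (τ : Finset α → Lab) (π : List α) (m : ℕ) (f : ℕ → ℝ) :
    ∑ k ∈ range m, (iE τ π k + iX τ π k) * ∑ i ∈ range (k + 1), f i =
      ∑ i ∈ range m, iA τ π i * f i - iA τ π m * ∑ i ∈ range m, f i := by
  induction m with
  | zero => simp
  | succ m ih =>
    rw [sum_range_succ, ih, iE_add_iX, sum_range_succ (fun i => iA τ π i * f i) m,
      sum_range_succ f m]
    ring

/-- at the top -/
theorem iA_top {τ : Finset α → Lab} {V : Finset α} (hV : τ V ≠ Lab.A) {π : List α}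
    (hπ : π ∈ seqs V.card V) {m : ℕ} (hm : V.card ≤ m) : iA τ π m = 0 := by
  unfold iA
  rw [if_neg]
  intro h
  apply hV
  have := h m (by simp)
  rwa [pre_card_of_mem hπ hm] at this

/-- prefix along `insert` -/
theorem allA_cons {τ : Finset α → Lab} {x : α} {π : List α} {i : ℕ} :
    allA τ (x :: π) (i + 1) ↔ τ ∅ = Lab.A ∧ ∀ j ∈ range (i + 1), τ (insert x (pre π j)) = Lab.A := by
  constructor
  · intro h
    refine ⟨by simpa using h 0 (by simp), fun j hj => ?_⟩
    have := h (j + 1) (by rw [mem_range] at hj ⊢; omega)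
    rwa [pre_cons_succ] at this
  · rintro ⟨h1, h2⟩ j hj
    cases j with
    | zero => simpa using h1
    | succ j =>
      rw [pre_cons_succ]
      exact h2 j (by rw [mem_range] at hj ⊢; omega)

/-- shifted label function -/
def shf (τ : Finset α → Lab) (x : α) : Finset α → Lab := fun U => τ (insert x U)

theorem allA_shf {τ : Finset α → Lab} {x : α} {π : List α} {i : ℕ} (h0 : τ ∅ = Lab.A) :
    allA τ (x :: π) (i + 1) ↔ allA (shf τ x) π i := by
  rw [allA_cons]
  unfold allA shf
  tauto

theorem iA_shf {τ : Finset α → Lab} {x : α} {π : List α} {i : ℕ} (h0 : τ ∅ = Lab.A) :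
    iA τ (x :: π) (i + 1) = iA (shf τ x) π i := by
  unfold iA
  rw [if_congr (allA_shf h0) rfl rfl]

theorem iE_shf {τ : Finset α → Lab} {x : α} {π : List α} {i : ℕ} (h0 : τ ∅ = Lab.A) :
    iE τ (x :: π) (i + 1) = iE (shf τ x) π i := by
  apply iE_congr
  unfold exE
  rw [allA_shf h0, pre_cons_succ]
  rfl

theorem iX_shf {τ : Finset α → Lab} {x : α} {π : List α} {i : ℕ} (h0 : τ ∅ = Lab.A) :
    iX τ (x :: π) (i + 1) = iX (shf τ x) π i := by
  apply iX_congr
  unfold exX
  rw [allA_shf h0, pre_cons_succ]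
  rfl

theorem iA_zero' {τ : Finset α → Lab} {π : List α} (h0 : τ ∅ = Lab.A) : iA τ π 0 = 1 := by
  unfold iA
  rw [if_pos (allA_zero.2 h0)]

theorem iA_of_ne {τ : Finset α → Lab} {π : List α} (h0 : τ ∅ ≠ Lab.A) (i : ℕ) : iA τ π i = 0 := by
  unfold iA
  rw [if_neg]
  intro h
  exact h0 (allA_zero.1 (allA_mono (Nat.zero_le i) h))

theorem iE_of_ne {τ : Finset α → Lab} {π : List α} (h0 : τ ∅ ≠ Lab.A) (i : ℕ) : iE τ π i = 0 := by
  unfold iE
  rw [if_neg]
  intro h
  exact h0 (allA_zero.1 (allA_mono (Nat.zero_le i) h.1))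

theorem iX_of_ne {τ : Finset α → Lab} {π : List α} (h0 : τ ∅ ≠ Lab.A) (i : ℕ) : iX τ π i = 0 := by
  unfold iX
  rw [if_neg]
  intro h
  exact h0 (allA_zero.1 (allA_mono (Nat.zero_le i) h.1))

/-- index form of a first exit functional -/
theorem runA_index (π : List α) : ∀ (τ : Finset α → Lab) (pr : Finset α → ℝ)
    (ex : Finset α → α → ℝ) (xs : Finset α → ℝ), π.Nodup → τ ∅ = Lab.A →
    runA τ pr ex xs ∅ π = ∑ i ∈ range π.length, iA τ π i * pr (pre π i) +
      ∑ k ∈ range π.length, (iE τ π k * ∑ x ∈ nx π k, ex (pre π k) x +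
        iX τ π k * xs (pre π (k + 1))) := by
  induction π with
  | nil => intro τ pr ex xs _ _; simp [runA]
  | cons x π ih =>
    intro τ pr ex xs hnd h0
    rw [List.nodup_cons] at hnd
    rw [runA_cons, List.length_cons, sum_range_succ', sum_range_succ']
    have hsh : ∀ (U : Finset α) (l : List α), runA τ pr ex xs (insert x U) l =
        runA (shf τ x) (fun U => pr (insert x U)) (fun U y => ex (insert x U) y)
          (fun U => xs (insert x U)) U l := by
      intro U l
      induction l generalizing U with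
      | nil => rfl
      | cons y l ih2 =>
        rw [runA_cons, runA_cons]
        have e : insert y (insert x U) = insert x (insert y U) := insert_comm _ _ _
        rw [e]
        unfold shf
        cases τ (insert x (insert y U))
        · simp only []
          rw [ih2 (insert y U)]
          rfl
        · rfl
        · rfl
    have e0 : ∑ i ∈ range π.length, iA τ (x :: π) (i + 1) * pr (pre (x :: π) (i + 1)) =
        ∑ i ∈ range π.length, iA (shf τ x) π i * pr (insert x (pre π i)) := by
      refine sum_congr rfl fun i _ => ?_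
      rw [iA_shf h0, pre_cons_succ]
    have e1 : ∑ k ∈ range π.length, (iE τ (x :: π) (k + 1) *
        ∑ y ∈ nx (x :: π) (k + 1), ex (pre (x :: π) (k + 1)) y +
        iX τ (x :: π) (k + 1) * xs (pre (x :: π) (k + 1 + 1))) =
        ∑ k ∈ range π.length, (iE (shf τ x) π k *
          ∑ y ∈ nx π k, ex (insert x (pre π k)) y +
          iX (shf τ x) π k * xs (insert x (pre π (k + 1)))) := by
      refine sum_congr rfl fun k _ => ?_
      rw [iE_shf h0, iX_shf h0, pre_cons_succ, pre_cons_succ]
      have : nx (x :: π) (k + 1) = nx π k := by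
        unfold nx
        rw [pre_cons_succ, pre_cons_succ]
        ext y
        simp only [mem_sdiff, mem_insert, not_or]
        constructor
        · rintro ⟨h1 | h1, h2, h3⟩
          · exact absurd h1 h2
          · exact ⟨h1, h3⟩
        · rintro ⟨h1, h2⟩
          refine ⟨Or.inr h1, ?_, h2⟩
          rintro rfl
          exact hnd.1 (List.mem_toFinset.1 (pre_subset _ _ h1))
      rw [this]
    rw [e0, e1, iA_zero' h0, pre_zero]
    have hp1 : pre (x :: π) (0 + 1) = {x} := by
      rw [pre_cons_succ, pre_zero]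
      rfl
    have hnx : nx (x :: π) 0 = {x} := by
      unfold nx
      rw [hp1, pre_zero, sdiff_empty]
    rw [hnx, sum_singleton, hp1]
    have hE0 : iE τ (x :: π) 0 = if τ {x} = Lab.B then 1 else 0 := by
      refine if_congr ?_ rfl rfl
      unfold exE
      rw [hp1]
      exact ⟨fun h => h.2, fun h => ⟨allA_zero.2 h0, h⟩⟩
    have hX0 : iX τ (x :: π) 0 = if τ {x} = Lab.X then 1 else 0 := by
      refine if_congr ?_ rfl rfl
      unfold exX
      rw [hp1]
      exact ⟨fun h => h.2, fun h => ⟨allA_zero.2 h0, h⟩⟩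
    rw [hE0, hX0]
    have hins : insert x (∅ : Finset α) = {x} := rfl
    rcases hl : τ {x} with _ | _ | _
    · rw [hins, hl]
      simp only []
      have h2 := hsh ∅ π
      rw [hins] at h2
      have h3 : shf τ x ∅ = Lab.A := by
        unfold shf
        rw [hins, hl]
      rw [h2, ih (shf τ x) _ _ _ hnd.2 h3]
      simp
      ring
    · rw [hins, hl]
      have h3 : shf τ x ∅ ≠ Lab.A := by
        unfold shf
        rw [hins, hl]
        decide
      simp only [iA_of_ne h3, iE_of_ne h3, iX_of_ne h3]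
      simp
    · rw [hins, hl]
      have h3 : shf τ x ∅ ≠ Lab.A := by
        unfold shf
        rw [hins, hl]
        decide
      simp only [iA_of_ne h3, iE_of_ne h3, iX_of_ne h3]
      simp

end R5
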