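import Pool.Agent.Work.MP_8b6acb_ti.T7L
import Pool.Agent.Work.MP_8b6acb_ti.SetIneq

/-!
# The scalar inequalities of the set kernel T-lemma in the notation of the path layer (helper13)

`q = -log ρ`, `L(a) = Lf m a`, `lam = lamn m`, `n = m - 1 - j`, `kap = Lf m ρ`,
`l = -log (1 - ρ / (m - a))`.
-/

namespace R5

namespace SI

open Real T7

theorem log_split (m a : ℕ) (ham : a < m) {ρ : ℝ} (h0 : 0 < ρ) :
    -log ((m : ℝ) * ρ / ((m : ℝ) - a)) = -log ρ - Lf m a := by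
  have ham' : (a : ℝ) < m := by exact_mod_cast ham
  have hm : (0 : ℝ) < m := lt_of_le_of_lt (Nat.cast_nonneg a) ham'
  have hM : (0 : ℝ) < (m : ℝ) - a := by linarith
  unfold Lf
  have e : (1 - (a : ℝ) / m) = ((m : ℝ) - a) / m := by field_simp
  rw [e, log_div (by positivity) hM.ne', log_mul hm.ne' h0.ne', log_div hM.ne' hm.ne']
  ring

/-- IS1: the inequality for `x = n` (all the others exit) -/
theorem IS1 (m j a d : ℕ) (hj : 1 ≤ j) (hjm : j + 2 ≤ m) (ha : a + j + 1 ≤ m) (hd : d + 1 ≤ j)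
    {ρ : ℝ} (h0 : 0 < ρ) (h1 : ρ ≤ 1) :
    0 ≤ -log ρ - Lf m a - lamn m * ((m : ℝ) - 1 - j) + ((m : ℝ) - j) * (ρ / ((m : ℝ) - a)) +
      ((j : ℝ) - 1) * (ρ / m) + d * (((m : ℝ) - 1 - j) * Lf m ρ - lamn m) := by
  obtain ⟨n, rfl⟩ : ∃ n, m = n + j + 1 := ⟨m - j - 1, by omega⟩
  have h := is1 n j a d (by omega) hj (by omega) hd (m := ((n + j + 1 : ℕ) : ℝ))
    (M := ((n + j + 1 : ℕ) : ℝ) - a) h0 h1 (by push_cast; ring) rfl
  rw [log_split (n + j + 1) a (by omega) h0] at h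
  have e1 : ((n + j + 1 : ℕ) : ℝ) - 1 - j = n := by push_cast; ring
  have e2 : ((n + j + 1 : ℕ) : ℝ) - j = 1 + n := by push_cast; ring
  rw [e1, e2]
  unfold lamn
  unfold Lf at h ⊢
  calc (0 : ℝ) ≤ _ := h
    _ = _ := by ring

/-- IS2: the inequality for `x = a` (only the live lights exit) -/
theorem IS2 (m j a d : ℕ) (hj : 1 ≤ j) (hjm : j + 2 ≤ m) (ha : a + j + 1 ≤ m) (hd : d + 1 ≤ j)
    {ρ : ℝ} (h0 : 0 < ρ) (h1 : ρ ≤ 1) :
    0 ≤ -log ρ - Lf m a - lamn m * ((m : ℝ) - 1 - j) + (1 + (a : ℝ)) * (ρ / ((m : ℝ) - a)) +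
      ((m : ℝ) - 1 - j - a) * (-log (1 - ρ / ((m : ℝ) - a))) -
      (((m : ℝ) - 1 - j - a) / ((m : ℝ) - 1 - j)) * (j * (ρ / m)) + ((j : ℝ) - 1) * (ρ / m) +
      d * (Lf m ρ * (a + ((m : ℝ) - 1 - j - a) / ((m : ℝ) - 1 - j)) - lamn m) := by
  obtain ⟨n, rfl⟩ : ∃ n, m = n + j + 1 := ⟨m - j - 1, by omega⟩
  have h := is2 n j a d (by omega) hj (by omega) hd (m := ((n + j + 1 : ℕ) : ℝ))
    (M := ((n + j + 1 : ℕ) : ℝ) - a) h0 h1 (by push_cast; ring) rfl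
  rw [log_split (n + j + 1) a (by omega) h0] at h
  have e1 : ((n + j + 1 : ℕ) : ℝ) - 1 - j = n := by push_cast; ring
  rw [e1]
  unfold lamn
  unfold Lf at h ⊢
  calc (0 : ℝ) ≤ _ := h
    _ = _ := by ring

end SI

end R5
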