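import Pool.Agent.Work.MP_8b6acb_ti.T7L

/-!
# T7L: the step and the top (helper55)
-/

namespace R5

namespace T7

open Finset

variable {α : Type} [DecidableEq α]

/-- charge of a level with `a` live lights and `n` remaining elements -/
noncomputable def cc (m a n : ℕ) : ℝ :=
  (a : ℝ) * lamn m - Lf m a + (a : ℝ) / n * (Lf m a - lamn m)

/-- the potential -/
noncomputable def Phi (m : ℕ) (ρ : α → ℝ) (Λ R : Finset α) : ℝ :=
  lamn m * (R.card : ℝ) + Lf m (∑ x ∈ R ∩ Λ, ρ x) -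
    ∑ h ∈ R \ Λ, ppi m R.card (ρ h) (∑ x ∈ R ∩ Λ, ρ x)

theorem log_one_sub_sum (H : Finset α) (z : α → ℝ) (hz : ∀ h ∈ H, 0 ≤ z h)
    (hs : ∑ h ∈ H, z h < 1) :
    ∑ h ∈ H, -Real.log (1 - z h) ≤ -Real.log (1 - ∑ h ∈ H, z h) := by
  induction H using Finset.induction_on with
  | empty => simp
  | insert x H hx ih =>
    rw [sum_insert hx] at hs ⊢
    rw [sum_insert hx]
    have h1 : 0 ≤ z x := hz x (mem_insert_self _ _)
    have h2 : 0 ≤ ∑ h ∈ H, z h := sum_nonneg (fun h hh => hz h (mem_insert_of_mem hh))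
    have h3 := ih (fun h hh => hz h (mem_insert_of_mem hh)) (by linarith)
    have h4 : Real.log (1 - (z x + ∑ h ∈ H, z h)) ≤
        Real.log (1 - z x) + Real.log (1 - ∑ h ∈ H, z h) := by
      rw [← Real.log_mul (by linarith) (by linarith)]
      apply Real.log_le_log (by linarith)
      nlinarith
    linarith

/-- tangent -/
theorem Lf_tangent (m : ℕ) (s a : ℝ) (hs : s < m) (ha : a < m) (hm : (0 : ℝ) < m) :
    Lf m a + (s - a) / ((m : ℝ) - a) ≤ Lf m s := by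
  unfold Lf
  have h1 : 0 < (m : ℝ) - s := by linarith
  have h2 : 0 < (m : ℝ) - a := by linarith
  have e1 : 1 - s / (m : ℝ) = (1 - a / m) * (((m : ℝ) - s) / ((m : ℝ) - a)) := by
    field_simp
  have h3 : (0 : ℝ) < 1 - a / m := by
    rw [sub_pos, div_lt_one hm]
    exact ha
  rw [e1, Real.log_mul h3.ne' (div_pos h1 h2).ne']
  have h4 := Real.log_le_sub_one_of_pos (div_pos h1 h2)
  have e2 : ((m : ℝ) - s) / ((m : ℝ) - a) - 1 = -((s - a) / ((m : ℝ) - a)) := by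
    field_simp
    ring
  linarith

theorem Lf_split (m : ℕ) (s : ℝ) (H : Finset α) (ρ : α → ℝ) (hs : 0 ≤ s)
    (hρ : ∀ h ∈ H, 0 ≤ ρ h) (hm : s + ∑ h ∈ H, ρ h < m) :
    Lf m s + ∑ h ∈ H, -Real.log (1 - ρ h / ((m : ℝ) - s)) ≤ Lf m (s + ∑ h ∈ H, ρ h) := by
  have h0 : 0 ≤ ∑ h ∈ H, ρ h := sum_nonneg hρ
  have hms : 0 < (m : ℝ) - s := by linarith
  have hm0 : (0 : ℝ) < m := by linarith
  have h1 : ∑ h ∈ H, ρ h / ((m : ℝ) - s) < 1 := by
    rw [← sum_div, div_lt_one hms]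
    linarith
  have h2 := log_one_sub_sum H (fun h => ρ h / ((m : ℝ) - s))
    (fun h hh => div_nonneg (hρ h hh) hms.le) h1
  have e1 : Lf m (s + ∑ h ∈ H, ρ h) = Lf m s +
      -Real.log (1 - ∑ h ∈ H, ρ h / ((m : ℝ) - s)) := by
    unfold Lf
    have e : 1 - (s + ∑ h ∈ H, ρ h) / (m : ℝ) =
        (1 - s / m) * (1 - ∑ h ∈ H, ρ h / ((m : ℝ) - s)) := by
      rw [← sum_div]
      field_simp
      ring
    rw [e, Real.log_mul _ (by linarith)]
    · ring
    · have : 0 < 1 - s / (m : ℝ) := by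
        rw [sub_pos, div_lt_one hm0]
        linarith
      exact this.ne'
  rw [e1]
  linarith

theorem Phi_light (m : ℕ) (ρ : α → ℝ) (Λ R : Finset α) (x : α) (hx : x ∈ R ∩ Λ) :
    Phi m ρ Λ (R.erase x) = lamn m * ((R.card : ℝ) - 1) + Lf m ((∑ x ∈ R ∩ Λ, ρ x) - ρ x) -
      ∑ h ∈ R \ Λ, ppi m (R.card - 1) (ρ h) ((∑ x ∈ R ∩ Λ, ρ x) - ρ x) := by
  have hxR := (mem_inter.1 hx).1
  have hxL := (mem_inter.1 hx).2
  have e1 : (R.erase x) ∩ Λ = (R ∩ Λ).erase x := by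
    rw [erase_inter]
  have e2 : (R.erase x) \ Λ = R \ Λ := by
    ext y
    simp only [mem_sdiff, mem_erase]
    constructor
    · rintro ⟨⟨_, h1⟩, h2⟩
      exact ⟨h1, h2⟩
    · rintro ⟨h1, h2⟩
      exact ⟨⟨fun h => h2 (h ▸ hxL), h1⟩, h2⟩
  have e3 : ∑ x ∈ (R ∩ Λ).erase x, ρ x = (∑ x ∈ R ∩ Λ, ρ x) - ρ x := by
    have := add_sum_erase (R ∩ Λ) ρ hx
    linarith
  unfold Phi
  rw [e1, e2, e3, card_erase_of_mem hxR, Nat.cast_sub (card_pos.2 ⟨x, hxR⟩)]
  simp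

theorem Phi_heavy (m : ℕ) (ρ : α → ℝ) (Λ R : Finset α) (x : α) (hx : x ∈ R \ Λ) :
    Phi m ρ Λ (R.erase x) = lamn m * ((R.card : ℝ) - 1) + Lf m (∑ x ∈ R ∩ Λ, ρ x) -
      ((∑ h ∈ R \ Λ, ppi m (R.card - 1) (ρ h) (∑ x ∈ R ∩ Λ, ρ x)) -
        ppi m (R.card - 1) (ρ x) (∑ x ∈ R ∩ Λ, ρ x)) := by
  have hxR := (mem_sdiff.1 hx).1
  have hxL := (mem_sdiff.1 hx).2
  have e1 : (R.erase x) ∩ Λ = R ∩ Λ := by
    ext y
    simp only [mem_inter, mem_erase]
    constructor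
    · rintro ⟨⟨_, h1⟩, h2⟩
      exact ⟨h1, h2⟩
    · rintro ⟨h1, h2⟩
      exact ⟨⟨fun h => hxL (h ▸ h2), h1⟩, h2⟩
  have e2 : (R.erase x) \ Λ = (R \ Λ).erase x := by
    ext y
    simp only [mem_sdiff, mem_erase]
    tauto
  unfold Phi
  rw [e1, e2, card_erase_of_mem hxR, Nat.cast_sub (card_pos.2 ⟨x, hxR⟩)]
  have e3 := add_sum_erase (R \ Λ) (fun h => ppi m (R.card - 1) (ρ h) (∑ x ∈ R ∩ Λ, ρ x)) hx
  simp only [Nat.cast_one] at e3 ⊢
  linarith

/-- **the step** -/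
theorem step (m : ℕ) (ρ : α → ℝ) (Λ R A : Finset α) (val : α → ℝ) (hm : 2 ≤ m)
    (hR : R.Nonempty) (hRm : R.card + 1 ≤ m) (hA : A ⊆ R ∩ Λ)
    (hρ : ∀ x ∈ R, 0 < ρ x ∧ ρ x ≤ 1) (h1 : ∀ x ∈ A, -Real.log (ρ x) ≤ val x)
    (h2 : ∀ x ∈ (R ∩ Λ) \ A, Phi m ρ Λ (R.erase x) ≤ val x)
    (h3 : ∀ x ∈ R \ Λ, min (-Real.log (ρ x)) (Phi m ρ Λ (R.erase x)) ≤ val x) :
    Phi m ρ Λ R ≤ lamn m + Lf m (∑ x ∈ R, ρ x) + cc m A.card R.card +
      (∑ x ∈ R, val x) / R.card := by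
  have hmr : (2 : ℝ) ≤ m := by exact_mod_cast hm
  have hm0 : (0 : ℝ) < m := by linarith
  have hn0 : (0 : ℝ) < (R.card : ℝ) := by exact_mod_cast card_pos.2 hR
  have hnm : (R.card : ℝ) + 1 ≤ m := by exact_mod_cast hRm
  set n : ℝ := (R.card : ℝ) with hn
  set ν : ℝ := ∑ x ∈ R ∩ Λ, ρ x with hν
  set H := R \ Λ with hH
  set D := (R ∩ Λ) \ A with hD
  set a : ℝ := (A.card : ℝ) with ha
  set d : ℝ := (D.card : ℝ) with hd
  set η : ℝ := (H.card : ℝ) with hη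
  have ha0 : 0 ≤ a := Nat.cast_nonneg _
  have hd0 : 0 ≤ d := Nat.cast_nonneg _
  have hη0 : 0 ≤ η := Nat.cast_nonneg _
  have hDA : D.card + A.card = (R ∩ Λ).card := by
    rw [hD]
    exact card_sdiff_add_card_eq_card hA
  have hHc : H.card + (R ∩ Λ).card = R.card := by
    rw [hH]
    exact card_sdiff_add_card_inter R Λ
  have hsum : a + d + η = n := by
    rw [ha, hd, hη, hn]
    have : A.card + D.card + H.card = R.card := by omega
    exact_mod_cast this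
  have han : a ≤ n := by linarith
  have ham : a < m := by linarith
  -- masses
  have hρ0 : ∀ x ∈ R, 0 ≤ ρ x := fun x hx => (hρ x hx).1.le
  have hν0 : 0 ≤ ν := sum_nonneg (fun x hx => hρ0 x (mem_inter.1 hx).1)
  have hνle : ν ≤ ((R ∩ Λ).card : ℝ) := by
    have := sum_le_sum (fun x hx => (hρ x (mem_inter.1 hx).1).2 : ∀ x ∈ R ∩ Λ, ρ x ≤ 1)
    rw [sum_const, nsmul_eq_mul, mul_one] at this
    exact this
  have hRsum : ∑ x ∈ R, ρ x = ν + ∑ h ∈ H, ρ h := by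
    rw [hν, hH, ← sum_inter_add_sum_sdiff R Λ]
  have hRle : ∑ x ∈ R, ρ x ≤ n := by
    have := sum_le_sum (fun x hx => (hρ x hx).2 : ∀ x ∈ R, ρ x ≤ 1)
    rw [sum_const, nsmul_eq_mul, mul_one] at this
    exact this
  have hνm : ν < m := by
    have : ((R ∩ Λ).card : ℝ) ≤ n := by
      rw [hn]
      exact_mod_cast card_le_card inter_subset_left
    linarith
  set rA : ℝ := ∑ x ∈ A, ρ x with hrA
  set rD : ℝ := ∑ x ∈ D, ρ x with hrD
  have hsplit : ν = rD + rA := by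
    rw [hν, hrD, hrA, hD]
    exact (sum_sdiff hA).symm
  have hARs : ∀ x ∈ A, x ∈ R := fun x hx => (mem_inter.1 (hA hx)).1
  have hDRs : ∀ x ∈ D, x ∈ R := fun x hx => (mem_inter.1 (mem_sdiff.1 hx).1).1
  have hHRs : ∀ x ∈ H, x ∈ R := fun x hx => (mem_sdiff.1 hx).1
  have hrA_le : rA ≤ a := by
    have := sum_le_sum (fun x hx => (hρ x (hARs x hx)).2 : ∀ x ∈ A, ρ x ≤ 1)
    rw [sum_const, nsmul_eq_mul, mul_one] at this
    exact this
  have hrD0 : 0 ≤ rD := sum_nonneg (fun x hx => hρ0 x (hDRs x hx))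
  have hrD_le : rD ≤ d := by
    have := sum_le_sum (fun x hx => (hρ x (hDRs x hx)).2 : ∀ x ∈ D, ρ x ≤ 1)
    rw [sum_const, nsmul_eq_mul, mul_one] at this
    exact this
  -- the slot
  have hslot : Lf m ν + ∑ h ∈ H, -Real.log (1 - ρ h / ((m : ℝ) - ν)) ≤
      Lf m (∑ x ∈ R, ρ x) := by
    rw [hRsum]
    apply Lf_split m ν H ρ hν0 (fun h hh => hρ0 h (hHRs h hh))
    rw [← hRsum]
    linarith
  -- lower bound for the sum of the values
  have hval : ∑ x ∈ R, val x = ∑ x ∈ A, val x + ∑ x ∈ D, val x + ∑ x ∈ H, val x := by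
    rw [← sum_inter_add_sum_sdiff R Λ, ← hH, ← sum_sdiff hA, ← hD]
    ring
  -- lights which are live
  have hvA : a - rA ≤ ∑ x ∈ A, val x := by
    have h4 : ∀ x ∈ A, 1 - ρ x ≤ val x := by
      intro x hx
      have h5 := Real.log_le_sub_one_of_pos (hρ x (hARs x hx)).1
      have h6 := h1 x hx
      linarith
    have h7 := sum_le_sum h4
    rw [sum_sub_distrib, sum_const, nsmul_eq_mul, mul_one] at h7
    exact h7
  -- dead lights
  set π1 : α → ℝ := fun h => ppi m (R.card - 1) (ρ h) ν with hπ1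
  set π0 : α → ℝ := fun h => ppi m R.card (ρ h) ν with hπ0
  have hπ1n : ∀ h, 0 ≤ π1 h := fun h => ppi_nonneg _ _ _ _
  have hH1 : H.Nonempty → ν ≤ n - 1 := by
    intro hne
    have h4 : (R ∩ Λ).card + 1 ≤ R.card := by
      have := card_pos.2 hne
      omega
    have h5 : ((R ∩ Λ).card : ℝ) + 1 ≤ n := by
      rw [hn]
      exact_mod_cast h4
    linarith
  have hcast : ((R.card - 1 : ℕ) : ℝ) = n - 1 := by
    rw [Nat.cast_sub (card_pos.2 hR)]
    simp [hn]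
  have hvD : ∀ x ∈ D, lamn m * (n - 1) + (Lf m a + (ν - ρ x - a) / ((m : ℝ) - a)) -
      ∑ h ∈ H, ((1 - ρ x) * π1 h + ρ x / m) ≤ val x := by
    intro x hx
    have hxin : x ∈ R ∩ Λ := (mem_sdiff.1 hx).1
    have h4 := h2 x hx
    rw [Phi_light m ρ Λ R x hxin] at h4
    have hρx := hρ x (hDRs x hx)
    have hxν : ρ x ≤ ν := single_le_sum (fun y hy => hρ0 y (mem_inter.1 hy).1) hxin
    have h5 := Lf_tangent m (ν - ρ x) a (by linarith [hρx.1]) ham hm0
    have h6 : ∑ h ∈ H, ppi m (R.card - 1) (ρ h) (ν - ρ x) ≤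
        ∑ h ∈ H, ((1 - ρ x) * π1 h + ρ x / m) := by
      apply sum_le_sum
      intro h hh
      have hρh := hρ h (hHRs h hh)
      apply ppi_dead m (R.card - 1) (ρ h) ν (ρ x) hm hρh.1 hρh.2 hρx.1.le hρx.2 hxν
      · rw [hcast]
        exact hH1 ⟨h, hh⟩
      · have := card_pos.2 hR
        omega
    linarith
  -- heavies
  have hvH : ∀ x ∈ H, lamn m * (n - 1) + Lf m ν - ((∑ h ∈ H, π1 h) - π1 x) -
      max 0 (lamn m * (n - 1) + Lf m ν - (-Real.log (ρ x))) ≤ val x := by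
    intro x hx
    have h4 := h3 x hx
    rw [Phi_heavy m ρ Λ R x hx] at h4
    have h5 : 0 ≤ (∑ h ∈ H, π1 h) - π1 x := by
      have := single_le_sum (fun h _ => hπ1n h) hx
      linarith
    refine le_trans ?_ h4
    apply le_min
    · have := le_max_right 0 (lamn m * (n - 1) + Lf m ν - (-Real.log (ρ x)))
      linarith
    · have := le_max_left 0 (lamn m * (n - 1) + Lf m ν - (-Real.log (ρ x)))
      linarith
  have hsD := sum_le_sum hvD
  have hsH := sum_le_sum hvH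
  -- heavy inequality, multiplied by n
  have hhv : ∀ h ∈ H, max 0 (lamn m * (n - 1) + Lf m ν - (-Real.log (ρ h))) +
      (n - 1 - ν) * π1 h ≤ n * (-Real.log (1 - ρ h / ((m : ℝ) - ν)) + π0 h) := by
    intro h hh
    have hρh := hρ h (hHRs h hh)
    have h4 := heavy m R.card (ρ h) ν hm (card_pos.2 hR) hRm hρh.1 hρh.2 hν0 (hH1 ⟨h, hh⟩)
    have h5 := mul_le_mul_of_nonneg_left h4 hn0.le
    have e : n * (1 / (R.card : ℝ) * max 0 (Real.log ((m : ℝ) / ((m : ℝ) - 1)) *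
        ((R.card : ℝ) - 1) + Lf m ν - (-Real.log (ρ h))) +
        ((R.card : ℝ) - 1 - ν) / R.card * ppi m (R.card - 1) (ρ h) ν) =
        max 0 (lamn m * (n - 1) + Lf m ν - (-Real.log (ρ h))) + (n - 1 - ν) * π1 h := by
      rw [← hn]
      have hn' : n ≠ 0 := hn0.ne'
      unfold lamn
      simp only [hπ1]
      field_simp
    rw [e] at h5
    exact h5
  have hshv := sum_le_sum hhv
  -- tangent for the heavies
  have htan : Lf m a + (ν - a) / ((m : ℝ) - a) ≤ Lf m ν := Lf_tangent m ν a hνm ham hm0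
  -- expand the sums
  have eD : ∑ x ∈ D, (lamn m * (n - 1) + (Lf m a + (ν - ρ x - a) / ((m : ℝ) - a)) -
      ∑ h ∈ H, ((1 - ρ x) * π1 h + ρ x / m)) =
      d * (lamn m * (n - 1)) + d * Lf m a + (d * (ν - a) - rD) / ((m : ℝ) - a) -
        ((d - rD) * (∑ h ∈ H, π1 h) + η * rD / m) := by
    have e1 : ∀ x ∈ D, (lamn m * (n - 1) + (Lf m a + (ν - ρ x - a) / ((m : ℝ) - a)) -
      ∑ h ∈ H, ((1 - ρ x) * π1 h + ρ x / m)) =
      (lamn m * (n - 1) + Lf m a + (ν - a) / ((m : ℝ) - a) - (∑ h ∈ H, π1 h)) +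
        ρ x * ((∑ h ∈ H, π1 h) - 1 / ((m : ℝ) - a) - η / m) := by
      intro x _
      rw [sum_add_distrib, ← mul_sum, sum_const, nsmul_eq_mul, ← hη]
      ring
    rw [sum_congr rfl e1, sum_add_distrib, sum_const, nsmul_eq_mul, ← sum_mul, ← hd, ← hrD]
    ring
  have eH : ∑ x ∈ H, (lamn m * (n - 1) + Lf m ν - ((∑ h ∈ H, π1 h) - π1 x) -
      max 0 (lamn m * (n - 1) + Lf m ν - (-Real.log (ρ x)))) =
      η * (lamn m * (n - 1)) + η * Lf m ν - (η - 1) * (∑ h ∈ H, π1 h) -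
        ∑ x ∈ H, max 0 (lamn m * (n - 1) + Lf m ν - (-Real.log (ρ x))) := by
    rw [sum_sub_distrib, sum_sub_distrib, sum_sub_distrib, sum_const, sum_const, nsmul_eq_mul,
      nsmul_eq_mul, ← hη]
    ring
  have eh1 : ∑ h ∈ H, (max 0 (lamn m * (n - 1) + Lf m ν - (-Real.log (ρ h))) +
      (n - 1 - ν) * π1 h) =
      ∑ h ∈ H, max 0 (lamn m * (n - 1) + Lf m ν - (-Real.log (ρ h))) +
      (n - 1 - ν) * ∑ h ∈ H, π1 h := by
    rw [sum_add_distrib, mul_sum]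
  have eh2 : ∑ h ∈ H, n * (-Real.log (1 - ρ h / ((m : ℝ) - ν)) + π0 h) =
      n * (∑ h ∈ H, -Real.log (1 - ρ h / ((m : ℝ) - ν))) + n * ∑ h ∈ H, π0 h := by
    rw [← mul_sum, sum_add_distrib, mul_add]
  rw [eD] at hsD
  rw [eH] at hsH
  rw [eh1, eh2] at hshv
  -- the light surplus
  have hlight : η * rD / m ≤ (a - rA) + (d * (ν - a) - rD) / ((m : ℝ) - a) +
      η * ((ν - a) / ((m : ℝ) - a)) := by
    have hma : 0 < (m : ℝ) - a := by linarith
    have e1 : (a - rA) + (d * (ν - a) - rD) / ((m : ℝ) - a) + η * ((ν - a) / ((m : ℝ) - a)) =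
        (a - rA) * (1 - (d + η) / ((m : ℝ) - a)) + (d + η - 1) * rD / ((m : ℝ) - a) := by
      rw [hsplit]
      field_simp
      ring
    rw [e1]
    have h4 : 0 ≤ (a - rA) * (1 - (d + η) / ((m : ℝ) - a)) := by
      apply mul_nonneg (by linarith)
      rw [sub_nonneg, div_le_one hma]
      linarith
    have h5 : η * rD / m ≤ (d + η - 1) * rD / ((m : ℝ) - a) := by
      rcases D.eq_empty_or_nonempty with hDe | hDne
      · have : rD = 0 := by
          rw [hrD, hDe, sum_empty]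
        rw [this]
        simp
      · have hd1 : 1 ≤ d := by
          rw [hd]
          exact_mod_cast card_pos.2 hDne
        apply div_le_div₀ (mul_nonneg (by linarith) hrD0) (mul_le_mul_of_nonneg_right
          (by linarith) hrD0) hma (by linarith)
    linarith
  -- the savings
  have hsav : (d - rD) * (∑ h ∈ H, π1 h) + (η - 1) * (∑ h ∈ H, π1 h) ≤
      (n - 1 - ν) * ∑ h ∈ H, π1 h := by
    have h4 : 0 ≤ ∑ h ∈ H, π1 h := sum_nonneg (fun h _ => hπ1n h)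
    have h5 : (d - rD) + (η - 1) ≤ n - 1 - ν := by linarith
    have := mul_le_mul_of_nonneg_right h5 h4
    linarith
  -- final
  have hn' : n ≠ 0 := hn0.ne'
  have hPhi : Phi m ρ Λ R = lamn m * n + Lf m ν - ∑ h ∈ H, π0 h := rfl
  rw [hPhi]
  have hcc : cc m A.card R.card = a * lamn m - Lf m a + a / n * (Lf m a - lamn m) := rfl
  rw [hcc]
  have key : n * (lamn m * n + Lf m ν - ∑ h ∈ H, π0 h) ≤
      n * (lamn m + Lf m (∑ x ∈ R, ρ x) + (a * lamn m - Lf m a + a / n * (Lf m a - lamn m))) +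
        ∑ x ∈ R, val x := by
    have e1 : n * (lamn m + Lf m (∑ x ∈ R, ρ x) +
        (a * lamn m - Lf m a + a / n * (Lf m a - lamn m))) =
        n * lamn m + n * Lf m (∑ x ∈ R, ρ x) + n * (a * lamn m) - n * Lf m a +
          a * (Lf m a - lamn m) := by
      field_simp
      ring
    rw [e1, hval]
    have h4 := mul_le_mul_of_nonneg_left hslot hn0.le
    have h5 := mul_le_mul_of_nonneg_left htan hη0
    have hηe : η = n - a - d := by linarith
    have e2 : n * (lamn m * n) = n * lamn m + n * (a * lamn m) - a * lamn m +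
        d * (lamn m * (n - 1)) + η * (lamn m * (n - 1)) := by
      rw [hηe]
      ring
    have e3 : n * Lf m a - a * Lf m a = d * Lf m a + η * Lf m a := by
      rw [hηe]
      ring
    linarith [h4, h5, hsD, hsH, hshv, hlight, hsav, hvA, e2, e3]
  have key2 : lamn m * n + Lf m ν - ∑ h ∈ H, π0 h ≤
      (n * (lamn m + Lf m (∑ x ∈ R, ρ x) +
        (a * lamn m - Lf m a + a / n * (Lf m a - lamn m))) + ∑ x ∈ R, val x) / n := by
    rw [le_div_iff₀ hn0]
    linarith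
  have e4 : (n * (lamn m + Lf m (∑ x ∈ R, ρ x) +
        (a * lamn m - Lf m a + a / n * (Lf m a - lamn m))) + ∑ x ∈ R, val x) / n =
      lamn m + Lf m (∑ x ∈ R, ρ x) + (a * lamn m - Lf m a + a / n * (Lf m a - lamn m)) +
        (∑ x ∈ R, val x) / n := by
    rw [add_div, mul_div_cancel_left₀ _ hn']
  rw [e4] at key2
  exact key2

/-- **the top** -/
theorem top (m : ℕ) (ρ : α → ℝ) (Λ V : Finset α) (val : α → ℝ) (hm : 2 ≤ m) (hV : V.card = m)
    (hΛ : Λ ⊆ V) (hρ : ∀ x ∈ V, 0 < ρ x ∧ ρ x ≤ 1)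
    (h1 : ∀ x ∈ Λ, -Real.log (ρ x) ≤ val x)
    (h2 : ∀ x ∈ V \ Λ, Phi m ρ Λ (V.erase x) ≤ val x) :
    lamn m * ((m : ℝ) - 1) ≤ cc m Λ.card m + (∑ x ∈ V, val x) / m := by
  have hmr : (2 : ℝ) ≤ m := by exact_mod_cast hm
  have hm0 : (0 : ℝ) < m := by linarith
  have hρ0 : ∀ x ∈ V, 0 ≤ ρ x := fun x hx => (hρ x hx).1.le
  have hVL : V ∩ Λ = Λ := inter_eq_right.2 hΛ
  set ν : ℝ := ∑ x ∈ Λ, ρ x with hν
  set a : ℝ := (Λ.card : ℝ) with ha
  have hν0 : 0 ≤ ν := sum_nonneg (fun x hx => hρ0 x (hΛ hx))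
  have hνa : ν ≤ a := by
    have := sum_le_sum (fun x hx => (hρ x (hΛ hx)).2 : ∀ x ∈ Λ, ρ x ≤ 1)
    rw [sum_const, nsmul_eq_mul, mul_one] at this
    exact this
  have hHc : (V \ Λ).card + Λ.card = m := by
    rw [card_sdiff_add_card_eq_card hΛ, hV]
  have hHc' : ((V \ Λ).card : ℝ) = m - a := by
    have : ((V \ Λ).card : ℝ) + a = m := by
      rw [ha]
      exact_mod_cast hHc
    linarith
  have hval : ∑ x ∈ V, val x = ∑ x ∈ V \ Λ, val x + ∑ x ∈ Λ, val x := (sum_sdiff hΛ).symm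
  have hvA : a - ν ≤ ∑ x ∈ Λ, val x := by
    have h4 : ∀ x ∈ Λ, 1 - ρ x ≤ val x := by
      intro x hx
      have h5 := Real.log_le_sub_one_of_pos (hρ x (hΛ hx)).1
      have h6 := h1 x hx
      linarith
    have h7 := sum_le_sum h4
    rw [sum_sub_distrib, sum_const, nsmul_eq_mul, mul_one] at h7
    exact h7
  have hvH : ∀ x ∈ V \ Λ, lamn m * ((m : ℝ) - 1) + Lf m ν ≤ val x := by
    intro x hx
    have h4 := h2 x hx
    rw [Phi_heavy m ρ Λ V x hx, hVL, ← hν, hV] at h4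
    have hlt : Λ.card + 1 ≤ m := by
      have := card_pos.2 ⟨x, hx⟩
      omega
    have hlt' : a + 1 ≤ m := by
      rw [ha]
      exact_mod_cast hlt
    have h5 : ∀ h ∈ V \ Λ, ppi m (m - 1) (ρ h) ν = 0 := fun h hh =>
      ppi_top m (ρ h) ν hm (hρ h (mem_sdiff.1 hh).1).2 hν0 (by linarith)
    rw [sum_eq_zero h5, h5 x hx] at h4
    linarith
  have hsH := sum_le_sum hvH
  rw [sum_const, nsmul_eq_mul, hHc'] at hsH
  have hcc : cc m Λ.card m = a * lamn m - Lf m a + a / m * (Lf m a - lamn m) := rfl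
  rw [hcc]
  have htan : ν - a ≤ (m - a) * (Lf m ν - Lf m a) := by
    rcases eq_or_lt_of_le (show a ≤ m by
      rw [ha]
      have : Λ.card ≤ m := by omega
      exact_mod_cast this) with h | h
    · rw [h]
      rw [h] at hνa
      linarith
    · have h4 := Lf_tangent m ν a (by linarith) h hm0
      have hma : 0 < (m : ℝ) - a := by linarith
      have h5 : (ν - a) / ((m : ℝ) - a) ≤ Lf m ν - Lf m a := by linarith
      rw [div_le_iff₀ hma] at h5
      linarith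
  have key : lamn m * ((m : ℝ) - 1) * m ≤
      (a * lamn m - Lf m a + a / m * (Lf m a - lamn m)) * m + ∑ x ∈ V, val x := by
    have e1 : (a * lamn m - Lf m a + a / m * (Lf m a - lamn m)) * m =
        m * a * lamn m - m * Lf m a + a * (Lf m a - lamn m) := by
      field_simp
    rw [e1, hval]
    nlinarith
  have e2 : (a * lamn m - Lf m a + a / m * (Lf m a - lamn m)) + (∑ x ∈ V, val x) / m =
      ((a * lamn m - Lf m a + a / m * (Lf m a - lamn m)) * m + ∑ x ∈ V, val x) / m := by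
    field_simp
  rw [e2, le_div_iff₀ hm0]
  exact key

end T7

end R5
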