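import Pool.Agent.Work.MP_8b6acb_ti.Run
import Pool.Agent.Work.MP_8b6acb_ti.T7S
import Pool.Agent.Work.MP_8b6acb_ti_helper76.Level

/-!
# T7L as an inequality between averages over orders (helper55)
-/

namespace R5

open Finset T7

variable {α : Type} [DecidableEq α]

/-- live lights of `V` at `U` -/
def AL (τ : Finset α → Lab) (V U : Finset α) : Finset α :=
  (V \ U).filter (fun z => τ {z} = Lab.B ∧ τ (insert z U) = Lab.B)

/-- cost of a T-state `V`, slots see everything (`U` kernel, no marks) -/
noncomputable def cst (τ : Finset α → Lab) (ρ : α → ℝ) (V : Finset α) (π : List α) : ℝ :=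
  ∑ k ∈ range V.card,
    (iE τ π k * (∑ x ∈ nx π k, (-Real.log (ρ x)) +
        ∑ i ∈ Icc 1 k, Lf V.card (∑ x ∈ V \ pre π i, ρ x)) +
      iX τ π k * ∑ i ∈ Icc 1 (k + 1), Lf V.card (∑ x ∈ V \ pre π i, ρ x))

theorem Lf_mono {m : ℕ} {s t : ℝ} (hst : s ≤ t) (ht : t < m) (hm : (0 : ℝ) < m) :
    Lf m s ≤ Lf m t := by
  unfold Lf
  have h1 : 0 < 1 - t / (m : ℝ) := by
    rw [sub_pos, div_lt_one hm]
    exact ht
  have h2 : 1 - t / (m : ℝ) ≤ 1 - s / (m : ℝ) := by
    have := div_le_div_of_nonneg_right hst hm.le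
    linarith
  have := Real.log_le_log h1 h2
  linarith

theorem Phi_le_X (m : ℕ) (ρ : α → ℝ) (Λ R : Finset α) (hR : R.card + 1 ≤ m)
    (hρ : ∀ x ∈ R, 0 < ρ x ∧ ρ x ≤ 1) :
    Phi m ρ Λ R ≤ lamn m * (R.card : ℝ) + Lf m (∑ x ∈ R, ρ x) := by
  unfold Phi
  have h1 : 0 ≤ ∑ h ∈ R \ Λ, ppi m R.card (ρ h) (∑ x ∈ R ∩ Λ, ρ x) :=
    sum_nonneg fun h _ => ppi_nonneg _ _ _ _
  have h2 : ∑ x ∈ R ∩ Λ, ρ x ≤ ∑ x ∈ R, ρ x :=
    sum_le_sum_of_subset_of_nonneg inter_subset_left fun x hx _ => (hρ x hx).1.le
  have h3 : ∑ x ∈ R, ρ x ≤ (R.card : ℝ) := by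
    have := sum_le_sum (fun x hx => (hρ x hx).2 : ∀ x ∈ R, ρ x ≤ 1)
    rwa [sum_const, nsmul_eq_mul, mul_one] at this
  have h4 : (R.card : ℝ) + 1 ≤ m := by exact_mod_cast hR
  have h0 : (0 : ℝ) ≤ R.card := Nat.cast_nonneg _
  have h5 := Lf_mono (m := m) h2 (by linarith) (by linarith)
  linarith

/-- the price of a level -/
noncomputable def pr7 (τ : Finset α → Lab) (ρ : α → ℝ) (V : Finset α) (U : Finset α) : ℝ :=
  (if U = ∅ then 0 else lamn V.card + Lf V.card (∑ x ∈ V \ U, ρ x)) +
    cc V.card (AL τ V U).card (V \ U).card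

/-- the value of a vertex stop -/
noncomputable def xs7 (ρ : α → ℝ) (V : Finset α) (U : Finset α) : ℝ :=
  lamn V.card * ((V \ U).card : ℝ) + Lf V.card (∑ x ∈ V \ U, ρ x)

theorem T7L_run (τ : Finset α → Lab) (ρ : α → ℝ) (V : Finset α) (hV : τ V ≠ Lab.A)
    (hm : 2 ≤ V.card) (hρ : ∀ x ∈ V, 0 < ρ x ∧ ρ x ≤ 1) :
    lamn V.card * ((V.card : ℝ) - 1) ≤
      Av V (runA τ (pr7 τ ρ V) (fun _ x => -Real.log (ρ x)) (xs7 ρ V) ∅) := by
  have hne : V.Nonempty := card_pos.1 (by omega)
  set Λ := V.filter (fun z => τ {z} = Lab.B) with hΛ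
  have h1 := run_ge_top τ (pr7 τ ρ V) (fun _ x => -Real.log (ρ x)) (xs7 ρ V) V hV hne
    (fun U => Phi V.card ρ Λ (V \ U)) (by
    intro U hU hU0 hUV hA
    have hR : (V \ U).Nonempty := by
      rw [nonempty_iff_ne_empty, Ne, sdiff_eq_empty_iff_subset]
      intro h
      exact hUV (Subset.antisymm hU h)
    have hRm : (V \ U).card + 1 ≤ V.card := by
      rw [card_sdiff_of_subset hU]
      have h2 := card_pos.2 hU0
      have h3 := card_le_card hU
      omega
    have hρR : ∀ x ∈ V \ U, 0 < ρ x ∧ ρ x ≤ 1 := fun x hx => hρ x (mem_sdiff.1 hx).1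
    have hXv : ∀ x ∈ V \ U, Phi V.card ρ Λ ((V \ U).erase x) ≤ xs7 ρ V (insert x U) := by
      intro x hx
      unfold xs7
      rw [← sdiff_erase_eq]
      apply Phi_le_X
      · rw [card_erase_of_mem hx]
        omega
      · intro y hy
        exact hρR y (mem_of_mem_erase hy)
    have h2 := step V.card ρ Λ (V \ U) (AL τ V U)
      (vl τ (fun U => Phi V.card ρ Λ (V \ U)) (fun _ x => -Real.log (ρ x)) (xs7 ρ V) U) hm hR hRm
      (by
        intro z hz
        unfold AL at hz
        rw [mem_filter] at hz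
        rw [mem_inter, hΛ, mem_filter]
        exact ⟨hz.1, (mem_sdiff.1 hz.1).1, hz.2.1⟩)
      hρR
      (by
        intro x hx
        unfold AL at hx
        rw [mem_filter] at hx
        unfold vl
        rw [hx.2.2])
      (by
        intro x hx
        rw [mem_sdiff, mem_inter] at hx
        have h3 : τ (insert x U) ≠ Lab.B := by
          intro h3
          apply hx.2
          unfold AL
          rw [mem_filter]
          rw [hΛ, mem_filter] at hx
          exact ⟨hx.1.1, hx.1.2.2, h3⟩
        unfold vl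
        rcases hl : τ (insert x U) with _ | _ | _
        · simp only []
          rw [sdiff_erase_eq]
        · exact absurd hl h3
        · exact hXv x hx.1.1)
      (by
        intro x hx
        rw [mem_sdiff] at hx
        unfold vl
        rcases hl : τ (insert x U) with _ | _ | _
        · simp only []
          rw [sdiff_erase_eq]
          exact min_le_right _ _
        · exact min_le_left _ _
        · exact (min_le_right _ _).trans (hXv x hx.1))
    refine h2.trans ?_
    unfold pr7
    rw [if_neg hU0.ne_empty])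
  refine le_trans ?_ h1
  have h2 := top V.card ρ Λ V (vl τ (fun U => Phi V.card ρ Λ (V \ U))
    (fun _ x => -Real.log (ρ x)) (xs7 ρ V) ∅) hm rfl (filter_subset _ _) hρ
    (by
      intro x hx
      rw [hΛ, mem_filter] at hx
      unfold vl
      have : insert x (∅ : Finset α) = {x} := rfl
      rw [this, hx.2])
    (by
      intro x hx
      rw [mem_sdiff] at hx
      have h3 : τ (insert x ∅) ≠ Lab.B := by
        intro h3
        apply hx.2
        rw [hΛ, mem_filter]
        exact ⟨hx.1, h3⟩
      unfold vl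
      rcases hl : τ (insert x ∅) with _ | _ | _
      · simp only []
        have : V.erase x = V \ insert x ∅ := by
          rw [← sdiff_erase_eq, sdiff_empty]
        rw [this]
      · exact absurd hl h3
      · simp only []
        have : V.erase x = V \ insert x ∅ := by
          rw [← sdiff_erase_eq, sdiff_empty]
        rw [this]
        unfold xs7
        apply Phi_le_X
        · rw [← this, card_erase_of_mem hx.1]
          omega
        · intro y hy
          exact hρ y (mem_sdiff.1 hy).1)
  refine h2.trans ?_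
  have h3 : pr7 τ ρ V ∅ = cc V.card Λ.card V.card := by
    unfold pr7
    rw [if_pos rfl, zero_add, sdiff_empty]
    have : AL τ V ∅ = Λ := by
      unfold AL
      rw [hΛ, sdiff_empty]
      refine filter_congr fun z _ => ?_
      have : insert z (∅ : Finset α) = {z} := rfl
      rw [this, and_self]
    rw [this]
  rw [h3]

/-- **T7L**, path form: one state -/
theorem T7L_Av (τ : Finset α → Lab) (ρ : α → ℝ) (V : Finset α) (h0 : τ ∅ = Lab.A)
    (hV : τ V ≠ Lab.A) (hm : 1 ≤ V.card) (hρ : ∀ x ∈ V, 0 < ρ x ∧ ρ x ≤ 1) :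
    lamn V.card * Av V (fun π => ∑ k ∈ range V.card, iE τ π k * ((V.card : ℝ) - 1 - k)) ≤
      Av V (cst τ ρ V) + Av V (fun π => ∑ i ∈ range V.card,
        iA τ π i * cc V.card (AL τ V (pre π i)).card (V.card - i)) := by
  rcases Nat.eq_or_lt_of_le hm with hm1 | hm2
  · -- one element
    have hl : lamn V.card = 0 := by
      rw [← hm1]
      unfold lamn
      simp
    rw [hl, zero_mul]
    have h1 : 0 ≤ Av V (cst τ ρ V) := by
      apply Av_nonneg
      intro π hπ
      unfold cst
      rw [← hm1]
      simp only [range_one, sum_singleton]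
      have hI : Icc 1 0 = (∅ : Finset ℕ) := by decide
      have hI1 : Icc 1 (0 + 1) = ({1} : Finset ℕ) := by decide
      rw [hI, hI1, sum_empty, add_zero, sum_singleton]
      have hpr : pre π 1 = V := pre_card_of_mem hπ (by omega)
      rw [hpr, sdiff_self, bot_eq_empty, sum_empty]
      have h2 : Lf 1 0 = 0 := by
        unfold Lf
        simp
      rw [h2, mul_zero, add_zero]
      apply mul_nonneg (iE_nonneg _ _ _)
      apply sum_nonneg
      intro x hx
      have hxV : x ∈ V := by
        unfold nx at hx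
        exact pre_subset_of_mem hπ _ (mem_sdiff.1 hx).1
      have := Real.log_nonpos (hρ x hxV).1.le (hρ x hxV).2
      linarith
    have h2 : 0 ≤ Av V (fun π => ∑ i ∈ range V.card,
        iA τ π i * cc V.card (AL τ V (pre π i)).card (V.card - i)) := by
      apply Av_nonneg
      intro π hπ
      rw [← hm1]
      simp only [range_one, sum_singleton, Nat.sub_zero]
      apply mul_nonneg (iA_nonneg _ _ _)
      have h3 : (AL τ V (pre π 0)).card ≤ 1 := by
        refine (card_le_card (filter_subset _ _)).trans ?_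
        rw [pre_zero, sdiff_empty]
        omega
      unfold cc
      have h4 : lamn 1 = 0 := by
        unfold lamn
        simp
      rw [h4]
      interval_cases h5 : (AL τ V (pre π 0)).card
      · have : Lf 1 0 = 0 := by
          unfold Lf
          simp
        simp [this]
      · simp
    linarith
  · have hm2' : 2 ≤ V.card := hm2
    have hrun := T7L_run τ ρ V hV hm2' hρ
    have key : ∀ π ∈ seqs V.card V,
        runA τ (pr7 τ ρ V) (fun _ x => -Real.log (ρ x)) (xs7 ρ V) ∅ π =
        lamn V.card * ((V.card : ℝ) - 1) -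
          lamn V.card * (∑ k ∈ range V.card, iE τ π k * ((V.card : ℝ) - 1 - k)) +
          cst τ ρ V π + ∑ i ∈ range V.card,
            iA τ π i * cc V.card (AL τ V (pre π i)).card (V.card - i) := by
      intro π hπ
      have hlen : π.length = V.card := length_of_mem hπ
      rw [runA_index π τ _ _ _ (mem_seqs_card.1 hπ).1 h0, hlen]
      -- split the prices
      set m := V.card with hmd
      set L : ℕ → ℝ := fun i => Lf m (∑ x ∈ V \ pre π i, ρ x) with hL
      have hcard : ∀ i ≤ m, (V \ pre π i).card = m - i := by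
        intro i hi
        rw [card_sdiff_of_subset (pre_subset_of_mem hπ i), card_pre_of_mem hπ hi]
      have e1 : ∑ i ∈ range m, iA τ π i * pr7 τ ρ V (pre π i) =
          ∑ i ∈ range m, iA τ π i * (if i = 0 then 0 else lamn m + L i) +
          ∑ i ∈ range m, iA τ π i * cc m (AL τ V (pre π i)).card (m - i) := by
        rw [← sum_add_distrib]
        refine sum_congr rfl fun i hi => ?_
        rw [mem_range] at hi
        unfold pr7
        have h2 : pre π i = ∅ ↔ i = 0 := by
          rw [← card_eq_zero, card_pre_of_mem hπ (by omega)]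
        rw [if_congr h2 rfl rfl, hcard i hi.le, ← hmd]
        ring
      have hz : iA τ π m = 0 := iA_top hV hπ (le_of_eq hmd.symm)
      have e2 := sum_exit τ π m (fun i => if i = 0 then (0 : ℝ) else lamn m + L i)
      rw [hz, zero_mul, sub_zero] at e2
      have e3 := sum_exit τ π m (fun i => if i = 0 then (1 : ℝ) else 0)
      rw [hz, zero_mul, sub_zero] at e3
      have e4 : ∀ k : ℕ, ∑ i ∈ range (k + 1), (if i = 0 then (1 : ℝ) else 0) = 1 := by
        intro k
        rw [sum_ite_eq' (range (k + 1)) 0 (fun _ => (1 : ℝ))]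
        simp
      have e5 : ∀ k : ℕ, ∑ i ∈ range (k + 1), (if i = 0 then (0 : ℝ) else lamn m + L i) =
          k * lamn m + ∑ i ∈ Icc 1 k, L i := by
        intro k
        induction k with
        | zero => simp
        | succ k ih =>
          rw [sum_range_succ, ih, if_neg (Nat.succ_ne_zero k),
            sum_Icc_succ_top (by omega : 1 ≤ k + 1)]
          push_cast
          ring
      have e6 : ∑ i ∈ range m, iA τ π i * (if i = 0 then (1 : ℝ) else 0) = 1 := by
        rw [sum_eq_single 0]
        · rw [iA_zero' h0]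
          simp
        · intro i _ hi
          simp [hi]
        · intro h
          exact absurd (mem_range.2 (by omega)) h
      rw [e6] at e3
      simp only [e4, e5] at e2 e3
      rw [e1, ← e2]
      have e7 : cst τ ρ V π = ∑ k ∈ range m, (iE τ π k * (∑ x ∈ nx π k, (-Real.log (ρ x)) +
          ∑ i ∈ Icc 1 k, L i) + iX τ π k * ∑ i ∈ Icc 1 (k + 1), L i) := rfl
      rw [e7]
      have e8 : lamn m * ((m : ℝ) - 1) = ∑ k ∈ range m, (iE τ π k + iX τ π k) *
          (lamn m * ((m : ℝ) - 1)) := by
        rw [← sum_mul]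
        have : ∑ k ∈ range m, (iE τ π k + iX τ π k) = 1 := by
          simpa using e3
        rw [this, one_mul]
      rw [e8]
      have e9 : ∑ k ∈ range m, (iE τ π k + iX τ π k) * (k * lamn m + ∑ i ∈ Icc 1 k, L i) +
          ∑ k ∈ range m, (iE τ π k * ∑ x ∈ nx π k, (-Real.log (ρ x)) +
            iX τ π k * xs7 ρ V (pre π (k + 1))) =
          ∑ k ∈ range m, (iE τ π k + iX τ π k) * (lamn m * ((m : ℝ) - 1)) -
          lamn m * ∑ k ∈ range m, iE τ π k * ((m : ℝ) - 1 - k) +
          ∑ k ∈ range m, (iE τ π k * (∑ x ∈ nx π k, (-Real.log (ρ x)) +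
          ∑ i ∈ Icc 1 k, L i) + iX τ π k * ∑ i ∈ Icc 1 (k + 1), L i) := by
        rw [mul_sum, ← sum_sub_distrib, ← sum_add_distrib, ← sum_add_distrib]
        refine sum_congr rfl fun k hk => ?_
        rw [mem_range] at hk
        have h3 : xs7 ρ V (pre π (k + 1)) = lamn m * ((m : ℝ) - 1 - k) + L (k + 1) := by
          unfold xs7
          rw [hcard (k + 1) hk, ← hmd, Nat.cast_sub hk]
          push_cast
          ring
        rw [h3, sum_Icc_succ_top (by omega : 1 ≤ k + 1)]
        ring
      linarith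
    rw [Av_congr key, Av_add, Av_add, Av_sub, Av_const, Av_mul] at hrun
    linarith

end R5
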