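import Pool.Agent.Work.MP_8b6acb_cap.Defs

/-!
# T7L: the potential (helper55)

Note 1465 of the R5 room (potential of helper33's T7L, note 1426, in rational form).
`m` = number of elements of the state, `R` = elements which remain, `n = |R| ≤ m - 1`.
-/

namespace R5

namespace T7

open Finset

/-- cost of a slot which sees the mass `s` -/
noncomputable def Lf (m : ℕ) (s : ℝ) : ℝ := -Real.log (1 - s / (m : ℝ))

/-- `u` -/
noncomputable def uu (m : ℕ) (r y : ℝ) : ℝ := ((m : ℝ) - 1) * r / ((m : ℝ) - y) - 1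

/-- `P_n` in terms of `u` -/
noncomputable def pt (m n : ℕ) (u y : ℝ) : ℝ :=
  u / (y + 1) - ((n : ℝ) + 1) * (1 + m * u) / (((m : ℝ) - 1) ^ 2 * (y + 2))

/-- the savings of a heavy element -/
noncomputable def ppi (m n : ℕ) (r y : ℝ) : ℝ :=
  if 0 < uu m r y then max 0 (pt m n (uu m r y) y) else 0

theorem ppi_nonneg (m n : ℕ) (r y : ℝ) : 0 ≤ ppi m n r y := by
  unfold ppi
  split_ifs
  · exact le_max_left _ _
  · exact le_rfl

/-- the recursion -/
theorem pt_rec (m n : ℕ) (u y : ℝ) (hn : 1 ≤ n) (hy : 0 ≤ y) (hm : 2 ≤ m) :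
    pt m n u y = (u / n - (1 + m * u) / ((m : ℝ) - 1) ^ 2) +
      (((n : ℝ) - 1 - y) / n) * pt m (n - 1) u y := by
  have hn' : (0 : ℝ) < n := by exact_mod_cast hn
  have hm' : (0 : ℝ) < (m : ℝ) - 1 := by
    have : (2 : ℝ) ≤ m := by exact_mod_cast hm
    linarith
  have h1 : ((n - 1 : ℕ) : ℝ) = (n : ℝ) - 1 := by
    rw [Nat.cast_sub hn]
    simp
  unfold pt
  rw [h1]
  have hy1 : y + 1 ≠ 0 := by positivity
  have hy2 : y + 2 ≠ 0 := by positivity
  field_simp
  ring

/-- (1): the main inequality for a heavy element -/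
theorem heavy (m n : ℕ) (r y : ℝ) (hm : 2 ≤ m) (hn : 1 ≤ n) (hnm : n + 1 ≤ m) (hr0 : 0 < r)
    (hr1 : r ≤ 1) (hy : 0 ≤ y) (hyn : y ≤ (n : ℝ) - 1) :
    (1 / (n : ℝ)) * max 0 (Real.log ((m : ℝ) / ((m : ℝ) - 1)) * ((n : ℝ) - 1) +
        Lf m y - (-Real.log r)) + (((n : ℝ) - 1 - y) / n) * ppi m (n - 1) r y ≤
      -Real.log (1 - r / ((m : ℝ) - y)) + ppi m n r y := by
  have hn' : (0 : ℝ) < n := by exact_mod_cast hn
  have hmr : (2 : ℝ) ≤ m := by exact_mod_cast hm
  have hnm' : (n : ℝ) + 1 ≤ m := by exact_mod_cast hnm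
  have hm1 : (0 : ℝ) < (m : ℝ) - 1 := by linarith
  have hm0 : (0 : ℝ) < m := by linarith
  have hmy : (1 : ℝ) < (m : ℝ) - y := by linarith
  have hmy0 : (0 : ℝ) < (m : ℝ) - y := by linarith
  set z : ℝ := r / ((m : ℝ) - y) with hz
  have hz0 : 0 < z := div_pos hr0 hmy0
  have hz1 : z < 1 := by
    rw [hz, div_lt_one hmy0]
    linarith
  have hu : uu m r y = ((m : ℝ) - 1) * z - 1 := by
    unfold uu
    rw [hz]
    ring
  set u : ℝ := ((m : ℝ) - 1) * z - 1 with hudef
  have hzu : z = (1 + u) / ((m : ℝ) - 1) := by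
    rw [hudef]
    field_simp
    ring
  have hu1 : 0 < 1 + u := by
    rw [hudef]
    have : 0 < ((m : ℝ) - 1) * z := mul_pos hm1 hz0
    linarith
  -- the logarithm
  have hlog : Real.log ((m : ℝ) / ((m : ℝ) - 1)) * ((n : ℝ) - 1) + Lf m y - (-Real.log r) =
      Real.log ((m : ℝ) / ((m : ℝ) - 1)) * n + Real.log (1 + u) := by
    have e1 : Lf m y = Real.log m - Real.log ((m : ℝ) - y) := by
      unfold Lf
      have : 1 - y / (m : ℝ) = ((m : ℝ) - y) / m := by field_simp
      rw [this, Real.log_div hmy0.ne' hm0.ne']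
      ring
    have e2 : Real.log (1 + u) = Real.log ((m : ℝ) - 1) + Real.log r -
        Real.log ((m : ℝ) - y) := by
      have : 1 + u = ((m : ℝ) - 1) * (r / ((m : ℝ) - y)) := by
        rw [hudef, hz]
        ring
      rw [this, Real.log_mul hm1.ne' (div_pos hr0 hmy0).ne', Real.log_div hr0.ne' hmy0.ne']
      ring
    rw [e1, e2, Real.log_div hm0.ne' hm1.ne']
    ring
  rw [hlog]
  have hmulmax : (1 / (n : ℝ)) * max 0 (Real.log ((m : ℝ) / ((m : ℝ) - 1)) * n +
      Real.log (1 + u)) = max 0 (Real.log ((m : ℝ) / ((m : ℝ) - 1)) + Real.log (1 + u) / n) := by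
    rw [mul_max_of_nonneg _ _ (by positivity : (0 : ℝ) ≤ 1 / (n : ℝ)), mul_zero]
    congr 1
    field_simp
  rw [hmulmax]
  have hcoef : 0 ≤ ((n : ℝ) - 1 - y) / n := div_nonneg (by linarith) hn'.le
  have hP0 : 0 ≤ -Real.log (1 - z) := by
    rw [neg_nonneg]
    exact Real.log_nonpos (by linarith) (by linarith)
  have hlam : -Real.log (1 - z) - Real.log ((m : ℝ) / ((m : ℝ) - 1)) =
      -Real.log (1 - (1 + m * u) / ((m : ℝ) - 1) ^ 2) := by
    have e : 1 - (1 + m * u) / ((m : ℝ) - 1) ^ 2 = (1 - z) * ((m : ℝ) / ((m : ℝ) - 1)) := by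
      rw [hzu]
      field_simp
      ring
    rw [e, Real.log_mul (by linarith) (div_pos hm0 hm1).ne']
    ring
  by_cases hup : 0 < u
  · -- `u > 0`
    have hppi : ∀ k, ppi m k r y = max 0 (pt m k u y) := by
      intro k
      unfold ppi
      rw [hu, if_pos hup]
    rw [hppi, hppi]
    have hrec := pt_rec m n u y hn hy hm
    have hb : Real.log ((m : ℝ) / ((m : ℝ) - 1)) + Real.log (1 + u) / n - -Real.log (1 - z) ≤
        u / n - (1 + m * u) / ((m : ℝ) - 1) ^ 2 := by
      have h1 : Real.log (1 + u) / n ≤ u / n := by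
        apply div_le_div_of_nonneg_right _ hn'.le
        have := Real.log_le_sub_one_of_pos hu1
        linarith
      have h2 : (1 + m * u) / ((m : ℝ) - 1) ^ 2 ≤
          -Real.log (1 - (1 + m * u) / ((m : ℝ) - 1) ^ 2) := by
        have e : 1 - (1 + m * u) / ((m : ℝ) - 1) ^ 2 = (1 - z) * ((m : ℝ) / ((m : ℝ) - 1)) := by
          rw [hzu]
          field_simp
          ring
        have hpos : 0 < 1 - (1 + m * u) / ((m : ℝ) - 1) ^ 2 := by
          rw [e]
          exact mul_pos (by linarith) (div_pos hm0 hm1)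
        have := Real.log_le_sub_one_of_pos hpos
        linarith
      linarith
    rcases le_or_gt 0 (pt m (n - 1) u y) with h0 | h0
    · rw [max_eq_right h0]
      have h1 : pt m n u y ≤ max 0 (pt m n u y) := le_max_right _ _
      have h2 : 0 ≤ (((n : ℝ) - 1 - y) / n) * pt m (n - 1) u y := mul_nonneg hcoef h0
      rcases le_total (Real.log ((m : ℝ) / ((m : ℝ) - 1)) + Real.log (1 + u) / n) 0 with h3 | h3
      · exfalso
        have h4 : 0 < Real.log ((m : ℝ) / ((m : ℝ) - 1)) := by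
          apply Real.log_pos
          rw [one_lt_div hm1]
          linarith
        have h5 : 0 ≤ Real.log (1 + u) / n := div_nonneg (Real.log_nonneg (by linarith)) hn'.le
        linarith
      · rw [max_eq_right h3]
        linarith
    · rw [max_eq_left h0.le, mul_zero, add_zero]
      -- `bt < 0`
      have h1 : u / (y + 1) < (n : ℝ) * (1 + m * u) / (((m : ℝ) - 1) ^ 2 * (y + 2)) := by
        unfold pt at h0
        have h2 : ((n - 1 : ℕ) : ℝ) + 1 = n := by
          rw [Nat.cast_sub hn]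
          simp
        rw [h2] at h0
        linarith
      have h3 : u / n - (1 + m * u) / ((m : ℝ) - 1) ^ 2 ≤ 0 := by
        have h4 : u * (((m : ℝ) - 1) ^ 2 * (y + 2)) < (n : ℝ) * (1 + m * u) * (y + 1) := by
          rw [div_lt_div_iff₀ (by positivity) (by positivity)] at h1
          exact h1
        have h5 : u * ((m : ℝ) - 1) ^ 2 ≤ (1 + m * u) * n := by
          by_contra hc
          push Not at hc
          have h6 : 0 < 1 + (m : ℝ) * u := by positivity
          have h7 : (1 + (m : ℝ) * u) * n * (y + 1) ≤ u * ((m : ℝ) - 1) ^ 2 * (y + 1) :=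
            mul_le_mul_of_nonneg_right hc.le (by linarith)
          have h8 : 0 < u * ((m : ℝ) - 1) ^ 2 := by positivity
          nlinarith
        rw [sub_nonpos, div_le_div_iff₀ hn' (by positivity)]
        exact h5
      have h9 : Real.log ((m : ℝ) / ((m : ℝ) - 1)) + Real.log (1 + u) / n ≤
          -Real.log (1 - z) := by linarith
      have h10 : 0 ≤ max 0 (pt m n u y) := le_max_left _ _
      have h11 := max_le hP0 h9
      linarith
  · -- `u ≤ 0`
    push Not at hup
    have hppi : ∀ k, ppi m k r y = 0 := by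
      intro k
      unfold ppi
      rw [hu, if_neg (not_lt.2 hup)]
    rw [hppi, hppi, mul_zero, add_zero, add_zero]
    apply max_le hP0
    by_cases hc : (1 : ℝ) / m ≤ z
    · have h1 : Real.log (1 + u) / n ≤ 0 :=
        div_nonpos_of_nonpos_of_nonneg (Real.log_nonpos hu1.le (by linarith)) hn'.le
      have h2 : Real.log ((m : ℝ) / ((m : ℝ) - 1)) ≤ -Real.log (1 - z) := by
        rw [← Real.log_inv]
        apply Real.log_le_log (div_pos hm0 hm1)
        rw [div_le_iff₀ hm1, inv_mul_eq_div, le_div_iff₀ (by linarith)]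
        rw [div_le_iff₀ hm0] at hc
        nlinarith
      linarith
    · push Not at hc
      have h1 : z ≤ -Real.log (1 - z) := by
        have := Real.log_le_sub_one_of_pos (show (0 : ℝ) < 1 - z by linarith)
        linarith
      have h2 : Real.log ((m : ℝ) / ((m : ℝ) - 1)) ≤ 1 / ((m : ℝ) - 1) := by
        have h3 := Real.log_le_sub_one_of_pos (div_pos hm0 hm1)
        have h4 : (m : ℝ) / ((m : ℝ) - 1) - 1 = 1 / ((m : ℝ) - 1) := by
          field_simp
          ring
        linarith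
      -- log (1 + u) = log ((m-1) z) = log (m z) - lam
      have h3 : Real.log (1 + u) = Real.log (m * z) - Real.log ((m : ℝ) / ((m : ℝ) - 1)) := by
        rw [← Real.log_div (mul_pos hm0 hz0).ne' (div_pos hm0 hm1).ne']
        congr 1
        rw [hudef]
        field_simp
        ring
      have h4 : Real.log (m * z) ≤ m * z - 1 := Real.log_le_sub_one_of_pos (mul_pos hm0 hz0)
      have h5 : Real.log ((m : ℝ) / ((m : ℝ) - 1)) * ((n : ℝ) - 1) ≤
          1 / ((m : ℝ) - 1) * ((n : ℝ) - 1) := by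
        apply mul_le_mul_of_nonneg_right h2
        have : (1 : ℝ) ≤ n := by exact_mod_cast hn
        linarith
      have h6 : 1 / ((m : ℝ) - 1) * ((n : ℝ) - 1) + m * z - 1 ≤ n * z := by
        have h7 : z ≤ 1 / ((m : ℝ) - 1) := by
          apply hc.le.trans
          apply one_div_le_one_div_of_le hm1
          linarith
        have h8 : 1 / ((m : ℝ) - 1) * ((n : ℝ) - 1) = 1 - ((m : ℝ) - n) * (1 / ((m : ℝ) - 1)) := by
          field_simp
          ring
        have h9 : ((m : ℝ) - n) * z ≤ ((m : ℝ) - n) * (1 / ((m : ℝ) - 1)) :=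
          mul_le_mul_of_nonneg_left h7 (by linarith)
        linarith
      have h10 : (Real.log ((m : ℝ) / ((m : ℝ) - 1)) + Real.log (1 + u) / n) * n ≤
          -Real.log (1 - z) * n := by
        have e : (Real.log ((m : ℝ) / ((m : ℝ) - 1)) + Real.log (1 + u) / n) * n =
            Real.log ((m : ℝ) / ((m : ℝ) - 1)) * ((n : ℝ) - 1) + Real.log (m * z) := by
          rw [h3]
          field_simp
          ring
        rw [e]
        have h11 : z * n ≤ -Real.log (1 - z) * n := mul_le_mul_of_nonneg_right h1 hn'.le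
        linarith
      exact le_of_mul_le_mul_right h10 hn'

/-- (2): no savings at the top -/
theorem ppi_top (m : ℕ) (r y : ℝ) (hm : 2 ≤ m) (hr1 : r ≤ 1) (hy : 0 ≤ y)
    (hym : y ≤ (m : ℝ) - 1) : ppi m (m - 1) r y = 0 := by
  have hmr : (2 : ℝ) ≤ m := by exact_mod_cast hm
  have hm1 : (0 : ℝ) < (m : ℝ) - 1 := by linarith
  have hmy : (0 : ℝ) < (m : ℝ) - y := by linarith
  unfold ppi
  split_ifs with hu
  · apply max_eq_left
    set u := uu m r y with hud
    unfold pt
    have h1 : ((m - 1 : ℕ) : ℝ) + 1 = m := by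
      rw [Nat.cast_sub (by omega)]
      simp
    rw [h1, sub_nonpos, div_le_div_iff₀ (by positivity) (by positivity)]
    have h2 : u * ((m : ℝ) - y) ≤ y - 1 := by
      have : u * ((m : ℝ) - y) = ((m : ℝ) - 1) * r - ((m : ℝ) - y) := by
        rw [hud]
        unfold uu
        field_simp
      rw [this]
      nlinarith
    -- `u (m - y) ≤ y - 1`
    by_cases hb : 0 ≤ (y + 2) * (2 * (m : ℝ) - 1) - (m : ℝ) ^ 2
    · nlinarith [mul_nonneg hu.le hb, mul_nonneg hm1.le hy, mul_pos hm1 hm1]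
    · push Not at hb
      have h3 : (m : ℝ) * (y + 1) * ((m : ℝ) - y) -
          (y - 1) * ((m : ℝ) ^ 2 - (y + 2) * (2 * (m : ℝ) - 1)) =
          2 * ((m : ℝ) - 1) ^ 2 + ((m : ℝ) - 1) * (y ^ 2 + y) := by ring
      have h4 : 0 ≤ 2 * ((m : ℝ) - 1) ^ 2 + ((m : ℝ) - 1) * (y ^ 2 + y) := by positivity
      -- multiply the goal by `m - y`
      have h5 : u * ((m : ℝ) - y) * ((m : ℝ) ^ 2 - (y + 2) * (2 * (m : ℝ) - 1)) ≤
          (y - 1) * ((m : ℝ) ^ 2 - (y + 2) * (2 * (m : ℝ) - 1)) :=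
        mul_le_mul_of_nonneg_right h2 (by linarith)
      have h6 : (u * (((m : ℝ) - 1) ^ 2 * (y + 2))) * ((m : ℝ) - y) ≤
          ((m : ℝ) * (1 + m * u) * (y + 1)) * ((m : ℝ) - y) := by
        nlinarith
      exact le_of_mul_le_mul_right h6 hmy
  · rfl

/-- `φ` -/
noncomputable def ph (k y : ℝ) : ℝ := 1 - k - 2 / (y + 1) + 2 * k / (y + 2)

theorem ph_mono (k y' y : ℝ) (hk0 : 0 ≤ k) (hk : k ≤ 1) (hy' : 0 ≤ y') (h : y' ≤ y) :
    ph k y' ≤ ph k y := by
  unfold ph
  have h1 : 0 < y' + 1 := by linarith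
  have h2 : 0 < y + 1 := by linarith
  have h3 : 0 < y' + 2 := by linarith
  have h4 : 0 < y + 2 := by linarith
  have e : (1 - k - 2 / (y + 1) + 2 * k / (y + 2)) - (1 - k - 2 / (y' + 1) + 2 * k / (y' + 2)) =
      2 * (y - y') * (1 / ((y + 1) * (y' + 1)) - k / ((y + 2) * (y' + 2))) := by
    field_simp
    ring
  have h5 : k / ((y + 2) * (y' + 2)) ≤ 1 / ((y + 1) * (y' + 1)) := by
    apply div_le_div₀ (by norm_num) hk (by positivity)
    nlinarith
  have h6 : 0 ≤ 2 * (y - y') * (1 / ((y + 1) * (y' + 1)) - k / ((y + 2) * (y' + 2))) :=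
    mul_nonneg (by linarith) (by linarith)
  linarith

/-- `P_n` is affine in `r` -/
theorem pt_aff (m n : ℕ) (r y : ℝ) (hm : 2 ≤ m) (hy : 0 ≤ y) (hym : y < m) :
    pt m n (uu m r y) y = (uu m r y) * (1 / (y + 1) - ((n : ℝ) + 1) / ((m : ℝ) - 1) ^ 2 * m /
      (y + 2)) - ((n : ℝ) + 1) / ((m : ℝ) - 1) ^ 2 / (y + 2) := by
  have hmr : (2 : ℝ) ≤ m := by exact_mod_cast hm
  have hm1 : (m : ℝ) - 1 ≠ 0 := by linarith
  have hy1 : y + 1 ≠ 0 := by positivity
  have hy2 : y + 2 ≠ 0 := by positivity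
  unfold pt
  field_simp
  ring

theorem alpha_nonneg (m n : ℕ) (y : ℝ) (hm : 2 ≤ m) (hy : 0 ≤ y) (hyn : y ≤ n)
    (hnm : n + 2 ≤ m) :
    0 ≤ 1 / (y + 1) - ((n : ℝ) + 1) / ((m : ℝ) - 1) ^ 2 * m / (y + 2) := by
  have hmr : (2 : ℝ) ≤ m := by exact_mod_cast hm
  have hnm' : (n : ℝ) + 2 ≤ m := by exact_mod_cast hnm
  have hm1 : 0 < (m : ℝ) - 1 := by linarith
  have h1 : ((n : ℝ) + 1) / ((m : ℝ) - 1) ^ 2 ≤ 1 / ((m : ℝ) - 1) := by
    rw [div_le_div_iff₀ (by positivity) hm1]
    nlinarith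
  have h2 : ((n : ℝ) + 1) / ((m : ℝ) - 1) ^ 2 * m / (y + 2) ≤ 1 / ((m : ℝ) - 1) * m / (y + 2) := by
    apply div_le_div_of_nonneg_right _ (by linarith)
    exact mul_le_mul_of_nonneg_right h1 (by linarith)
  have h3 : 1 / ((m : ℝ) - 1) * m / (y + 2) ≤ 1 / (y + 1) := by
    rw [div_le_div_iff₀ (by linarith) (by linarith), one_div, inv_mul_eq_div]
    rw [div_mul_eq_mul_div, div_le_iff₀ hm1]
    nlinarith
  linarith

/-- the value at `r = 1` -/
theorem pt_one (m n : ℕ) (y : ℝ) (hm : 2 ≤ m) (hy : 0 ≤ y) (hym : y < m) :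
    pt m n (uu m 1 y) y = ph (((n : ℝ) + 1) / ((m : ℝ) - 1)) y / ((m : ℝ) - y) := by
  have hmr : (2 : ℝ) ≤ m := by exact_mod_cast hm
  have hm1 : (m : ℝ) - 1 ≠ 0 := by linarith
  have hy1 : y + 1 ≠ 0 := by positivity
  have hy2 : y + 2 ≠ 0 := by positivity
  have hmy : (m : ℝ) - y ≠ 0 := by linarith
  unfold pt uu ph
  field_simp
  ring

theorem uu_mono (m : ℕ) (r y' y : ℝ) (hm : 2 ≤ m) (hr : 0 ≤ r) (h : y' ≤ y) (hym : y < m) :
    uu m r y' ≤ uu m r y := by
  have hmr : (2 : ℝ) ≤ m := by exact_mod_cast hm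
  unfold uu
  have : ((m : ℝ) - 1) * r / ((m : ℝ) - y') ≤ ((m : ℝ) - 1) * r / ((m : ℝ) - y) := by
    apply div_le_div_of_nonneg_left (mul_nonneg (by linarith) hr) (by linarith) (by linarith)
  linarith

/-- (3): monotone in the mass of the lights -/
theorem ppi_mono (m n : ℕ) (r y' y : ℝ) (hm : 2 ≤ m) (hr0 : 0 < r) (hr1 : r ≤ 1) (hy' : 0 ≤ y')
    (h : y' ≤ y) (hyn : y ≤ n) (hnm : n + 2 ≤ m) : ppi m n r y' ≤ ppi m n r y := by
  have hmr : (2 : ℝ) ≤ m := by exact_mod_cast hm
  have hnm' : (n : ℝ) + 2 ≤ m := by exact_mod_cast hnm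
  have hm1 : 0 < (m : ℝ) - 1 := by linarith
  have hym : y < m := by linarith
  have hmy : 0 < (m : ℝ) - y := by linarith
  have hmy' : 0 < (m : ℝ) - y' := by linarith
  by_cases hu' : 0 < uu m r y'
  swap
  · unfold ppi
    rw [if_neg hu']
    split_ifs
    · exact le_max_left _ _
    · exact le_rfl
  have hu : 0 < uu m r y := lt_of_lt_of_le hu' (uu_mono m r y' y hm hr0.le h hym)
  unfold ppi
  rw [if_pos hu', if_pos hu]
  apply max_le (le_max_left _ _)
  by_cases hp : pt m n (uu m r y') y' ≤ 0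
  · exact hp.trans (le_max_left _ _)
  push Not at hp
  refine le_trans ?_ (le_max_right _ _)
  -- affine in r, compare at the ends
  set K : ℝ := ((n : ℝ) + 1) / ((m : ℝ) - 1) ^ 2 with hK
  have hK0 : 0 ≤ K := by positivity
  set a' : ℝ := 1 / (y' + 1) - K * m / (y' + 2) with ha'
  set a : ℝ := 1 / (y + 1) - K * m / (y + 2) with ha
  have ha'0 : 0 ≤ a' := alpha_nonneg m n y' hm hy' (h.trans hyn) hnm
  have ha0 : 0 ≤ a := alpha_nonneg m n y hm (hy'.trans h) hyn hnm
  have e' : ∀ s, pt m n (uu m s y') y' = (uu m s y') * a' - K / (y' + 2) :=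
    fun s => pt_aff m n s y' hm hy' (lt_of_le_of_lt h hym)
  have e : ∀ s, pt m n (uu m s y) y = (uu m s y) * a - K / (y + 2) :=
    fun s => pt_aff m n s y hm (hy'.trans h) hym
  -- at r = 1
  have hk1 : ((n : ℝ) + 1) / ((m : ℝ) - 1) ≤ 1 := by
    rw [div_le_one hm1]
    linarith
  have hk0 : 0 ≤ ((n : ℝ) + 1) / ((m : ℝ) - 1) := by positivity
  have h1 : pt m n (uu m 1 y') y' ≤ pt m n (uu m 1 y) y := by
    have hpos : 0 < pt m n (uu m 1 y') y' := by
      rw [e' 1]
      rw [e' r] at hp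
      have h2 : uu m r y' ≤ uu m 1 y' := by
        unfold uu
        have : ((m : ℝ) - 1) * r / ((m : ℝ) - y') ≤ ((m : ℝ) - 1) * 1 / ((m : ℝ) - y') :=
          div_le_div_of_nonneg_right (mul_le_mul_of_nonneg_left hr1 hm1.le) hmy'.le
        linarith
      have h3 : uu m r y' * a' ≤ uu m 1 y' * a' := mul_le_mul_of_nonneg_right h2 ha'0
      linarith
    rw [pt_one m n y' hm hy' (lt_of_le_of_lt h hym)] at hpos ⊢
    rw [pt_one m n y hm (hy'.trans h) hym]
    have h2 : 0 < ph (((n : ℝ) + 1) / ((m : ℝ) - 1)) y' := by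
      by_contra hc
      push Not at hc
      have := div_nonpos_of_nonpos_of_nonneg hc hmy'.le
      linarith
    exact div_le_div₀ (h2.le.trans (ph_mono _ y' y hk0 hk1 hy' h)) (ph_mono _ y' y hk0 hk1 hy' h)
      hmy (by linarith)
  -- at r0 with u = 0
  set r0 : ℝ := ((m : ℝ) - y') / ((m : ℝ) - 1) with hr0d
  have hr0p : 0 < r0 := div_pos hmy' hm1
  have hur0 : uu m r0 y' = 0 := by
    unfold uu
    rw [hr0d]
    field_simp
    ring
  have h2 : pt m n (uu m r0 y') y' ≤ pt m n (uu m r0 y) y := by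
    rw [e', e, hur0, zero_mul]
    have h3 : 0 ≤ uu m r0 y := by
      have := uu_mono m r0 y' y hm hr0p.le h hym
      linarith
    have h4 : K / (y + 2) ≤ K / (y' + 2) :=
      div_le_div_of_nonneg_left hK0 (by linarith) (by linarith)
    have h5 := mul_nonneg h3 ha0
    linarith
  have h3 : r0 ≤ r := by
    rw [hr0d, div_le_iff₀ hm1]
    unfold uu at hu'
    have h4 : 1 < ((m : ℝ) - 1) * r / ((m : ℝ) - y') := by linarith
    rw [lt_div_iff₀ hmy'] at h4
    linarith
  -- convex combination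
  rcases eq_or_lt_of_le (h3.trans hr1) with h4 | h4
  · have h5 : r = 1 := le_antisymm hr1 (h4 ▸ h3)
    rw [h5]
    exact h1
  · set t : ℝ := (r - r0) / (1 - r0) with ht
    have h1r : 0 < 1 - r0 := by linarith
    have ht0 : 0 ≤ t := div_nonneg (by linarith) h1r.le
    have ht1 : t ≤ 1 := by
      rw [ht, div_le_one h1r]
      linarith
    have hr : r = t * 1 + (1 - t) * r0 := by
      have : t * (1 - r0) = r - r0 := by
        rw [ht]
        field_simp
      linarith
    have hconv : ∀ w : ℝ, uu m r w = t * uu m 1 w + (1 - t) * uu m r0 w := by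
      intro w
      unfold uu
      rw [hr]
      ring
    have f' : pt m n (uu m r y') y' = t * pt m n (uu m 1 y') y' +
        (1 - t) * pt m n (uu m r0 y') y' := by
      rw [e', e', e', hconv y']
      ring
    have f : pt m n (uu m r y) y = t * pt m n (uu m 1 y) y +
        (1 - t) * pt m n (uu m r0 y) y := by
      rw [e, e, e, hconv y]
      ring
    rw [f', f]
    have g1 := mul_le_mul_of_nonneg_left h1 ht0
    have g2 := mul_le_mul_of_nonneg_left h2 (show 0 ≤ 1 - t by linarith)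
    linarith

/-- (4): the bound -/
theorem ppi_le (m n : ℕ) (r y : ℝ) (hm : 2 ≤ m) (hr0 : 0 < r) (hr1 : r ≤ 1) (hy : 0 ≤ y)
    (hyn : y ≤ n) (hnm : n + 2 ≤ m) : ppi m n r y ≤ 1 / m := by
  have hmr : (2 : ℝ) ≤ m := by exact_mod_cast hm
  have hnm' : (n : ℝ) + 2 ≤ m := by exact_mod_cast hnm
  have hm1 : 0 < (m : ℝ) - 1 := by linarith
  have hym : y < m := by linarith
  have hmy : 0 < (m : ℝ) - y := by linarith
  unfold ppi
  split_ifs with hu
  swap
  · positivity
  apply max_le (by positivity)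
  have h1 : pt m n (uu m r y) y ≤ pt m n (uu m 1 y) y := by
    rw [pt_aff m n r y hm hy hym, pt_aff m n 1 y hm hy hym]
    have h2 : uu m r y ≤ uu m 1 y := by
      unfold uu
      have : ((m : ℝ) - 1) * r / ((m : ℝ) - y) ≤ ((m : ℝ) - 1) * 1 / ((m : ℝ) - y) :=
        div_le_div_of_nonneg_right (mul_le_mul_of_nonneg_left hr1 hm1.le) hmy.le
      linarith
    have h3 := mul_le_mul_of_nonneg_right h2 (alpha_nonneg m n y hm hy hyn hnm)
    linarith
  refine h1.trans ?_
  rw [pt_one m n y hm hy hym, div_le_div_iff₀ hmy (by linarith), one_mul]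
  -- `φ m ≤ m - y`
  set k : ℝ := ((n : ℝ) + 1) / ((m : ℝ) - 1) with hk
  have hk0 : (y + 1) / m ≤ k := by
    rw [hk, div_le_div_iff₀ (by linarith) hm1]
    nlinarith
  unfold ph
  have e : 1 - k - 2 / (y + 1) + 2 * k / (y + 2) = 1 - 2 / (y + 1) - k * (y / (y + 2)) := by
    field_simp
    ring
  rw [e]
  have h2 : (y + 1) / m * (y / (y + 2)) ≤ k * (y / (y + 2)) :=
    mul_le_mul_of_nonneg_right hk0 (by positivity)
  have h3 : (1 - 2 / (y + 1) - (y + 1) / m * (y / (y + 2))) * m ≤ (m : ℝ) - y := by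
    have e2 : (1 - 2 / (y + 1) - (y + 1) / m * (y / (y + 2))) * m =
        m - 2 * m / (y + 1) - (y + 1) * y / (y + 2) := by
      field_simp
    rw [e2]
    have h4 : 2 ≤ 2 * (m : ℝ) / (y + 1) := by
      rw [le_div_iff₀ (by linarith)]
      linarith
    have h5 : y - (y + 1) * y / (y + 2) ≤ 1 := by
      have : y - (y + 1) * y / (y + 2) = y / (y + 2) := by
        field_simp
        ring
      rw [this, div_le_one (by linarith)]
      linarith
    linarith
  have h6 : (1 - 2 / (y + 1) - k * (y / (y + 2))) * m ≤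
      (1 - 2 / (y + 1) - (y + 1) / m * (y / (y + 2))) * m :=
    mul_le_mul_of_nonneg_right (by linarith) (by linarith)
  linarith

/-- (3) + (4) -/
theorem ppi_dead (m n : ℕ) (r y e : ℝ) (hm : 2 ≤ m) (hr0 : 0 < r) (hr1 : r ≤ 1) (he0 : 0 ≤ e)
    (he1 : e ≤ 1) (hye : e ≤ y) (hyn : y ≤ n) (hnm : n + 2 ≤ m) :
    ppi m n r (y - e) ≤ (1 - e) * ppi m n r y + e / m := by
  have h1 := ppi_mono m n r (y - e) y hm hr0 hr1 (by linarith) (by linarith) hyn hnm
  have h2 := ppi_le m n r y hm hr0 hr1 (he0.trans hye) hyn hnm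
  have h3 : e * ppi m n r y ≤ e * (1 / m) := mul_le_mul_of_nonneg_left h2 he0
  have h4 : e * (1 / (m : ℝ)) = e / m := by ring
  linarith

end T7

end R5
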