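import Pool.Agent.Work.MP_8b6acb_ti.Path

/-!
# The T-side of the value as an average over orders (helper55)
-/

namespace R5

open Finset

variable {α : Type} [DecidableEq α]

/-- the first exit is an edge at level `k` -/
def exE (τ : Finset α → Lab) (π : List α) (k : ℕ) : Prop :=
  allA τ π k ∧ τ (pre π (k + 1)) = Lab.B

instance (τ : Finset α → Lab) (π : List α) (k : ℕ) : Decidable (exE τ π k) := by
  unfold exE; infer_instance

/-- the first exit is a vertex at level `k + 1` -/
def exX (τ : Finset α → Lab) (π : List α) (k : ℕ) : Prop :=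
  allA τ π k ∧ τ (pre π (k + 1)) = Lab.X

instance (τ : Finset α → Lab) (π : List α) (k : ℕ) : Decidable (exX τ π k) := by
  unfold exX; infer_instance

/-- the edge part -/
theorem Av_exE (τ : Finset α → Lab) {W : Finset α} {k : ℕ} (hk : k < W.card)
    (F : Finset α → α → List α → ℝ) :
    Av W (fun π => if exE τ π k then
      ∑ x ∈ pre π (k + 1) \ pre π k, F (pre π k) x (π.take k) else 0) =
    ∑ U ∈ powersetCard k W, ∑ x ∈ W \ U, (if isE τ U x then
      Av U (fun π1 => if allA τ π1 k then F U x π1 else 0) else 0) /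
        ((W.card.choose k : ℝ) * ((W.card : ℝ) - k)) := by
  have e : Av W (fun π => if exE τ π k then
      ∑ x ∈ pre π (k + 1) \ pre π k, F (pre π k) x (π.take k) else 0) =
      Av W (fun π => (fun (π1 π2 : List α) =>
        if allA τ π1 k ∧ τ (π1.toFinset ∪ pre π2 1) = Lab.B then
          ∑ x ∈ (π1.toFinset ∪ pre π2 1) \ π1.toFinset, F π1.toFinset x π1 else 0)
        (π.take k) (π.drop k)) := by
    refine Av_congr fun π hπ => ?_
    have hl : (π.take k).length = k := by
      rw [List.length_take, length_of_mem hπ, min_eq_left hk.le]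
    have h1 : pre π (k + 1) = (π.take k).toFinset ∪ pre (π.drop k) 1 := by
      have := pre_append_add (π1 := π.take k) (π2 := π.drop k) (i := 1)
      rwa [List.take_append_drop, hl] at this
    unfold exE
    simp only [allA_take (le_refl k), h1]
    rfl
  rw [e, Av_take_drop hk.le (fun (π1 π2 : List α) =>
        if allA τ π1 k ∧ τ (π1.toFinset ∪ pre π2 1) = Lab.B then
          ∑ x ∈ (π1.toFinset ∪ pre π2 1) \ π1.toFinset, F π1.toFinset x π1 else 0), sum_div]
  refine sum_congr rfl fun U hU => ?_
  obtain ⟨hU1, hU2⟩ := mem_powersetCard.1 hU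
  have hne : (W \ U).Nonempty := by
    rw [← card_pos, card_sdiff_of_subset hU1]
    omega
  have hcard : ((W \ U).card : ℝ) = (W.card : ℝ) - k := by rw [card_sdiff_cast hU1, hU2]
  rw [← sum_div, ← div_div, div_right_comm]
  congr 1
  have h1 : ∀ π1 ∈ seqs U.card U, Av (W \ U) (fun π2 =>
      if allA τ π1 k ∧ τ (π1.toFinset ∪ pre π2 1) = Lab.B then
        ∑ x ∈ (π1.toFinset ∪ pre π2 1) \ π1.toFinset, F π1.toFinset x π1 else 0) =
      (∑ x ∈ W \ U, if isE τ U x then (if allA τ π1 k then F U x π1 else 0) else 0) /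
        ((W.card : ℝ) - k) := by
    intro π1 h1
    rw [Av_cons hne, hcard]
    congr 1
    refine sum_congr rfl fun x hx => ?_
    have hxU : x ∉ U := (mem_sdiff.1 hx).2
    rw [(mem_seqs_card.1 h1).2]
    have h2 : ∀ π : List α, pre (x :: π) 1 = {x} := by
      intro π
      rw [pre_cons_succ, pre_zero]
      rfl
    simp only [h2]
    have h3 : U ∪ {x} = insert x U := by
      rw [union_comm]; rfl
    have h4 : insert x U \ U = {x} := by
      ext y
      simp only [mem_sdiff, mem_insert, mem_singleton]
      constructor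
      · rintro ⟨h | h, h'⟩
        · exact h
        · exact absurd h h'
      · rintro rfl
        exact ⟨Or.inl rfl, hxU⟩
    rw [h3, h4, Av_const, sum_singleton]
    have h5 : allA τ π1 k → τ U = Lab.A := by
      intro h
      have := h k (by simp)
      rwa [← hU2, pre_card_of_mem h1 le_rfl] at this
    unfold isE
    by_cases hA : allA τ π1 k
    · simp [hA, h5 hA]
    · simp [hA]
  rw [Av_congr h1, Av_div]
  congr 1
  rw [Av_sum]
  refine sum_congr rfl fun x _ => ?_
  split_ifs
  · rfl
  · rw [Av_zero]

/-- the vertex part -/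
theorem Av_exX (τ : Finset α → Lab) {W : Finset α} {k : ℕ} (hk : k < W.card)
    (F : Finset α → List α → ℝ) :
    Av W (fun π => if exX τ π k then F (pre π (k + 1)) (π.take (k + 1)) else 0) =
    ∑ U ∈ powersetCard (k + 1) W, (if τ U = Lab.X then
      Av U (fun π1 => if allA τ π1 k then F U π1 else 0) else 0) /
        (W.card.choose (k + 1) : ℝ) := by
  have e : Av W (fun π => if exX τ π k then F (pre π (k + 1)) (π.take (k + 1)) else 0) =
      Av W (fun π => (fun (π1 _π2 : List α) =>
        if allA τ π1 k ∧ τ π1.toFinset = Lab.X then F π1.toFinset π1 else 0)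
        (π.take (k + 1)) (π.drop (k + 1))) := by
    refine Av_congr fun π hπ => ?_
    unfold exX
    simp only [allA_take (Nat.le_succ k)]
    rfl
  rw [e, Av_take_drop hk (fun (π1 _π2 : List α) =>
        if allA τ π1 k ∧ τ π1.toFinset = Lab.X then F π1.toFinset π1 else 0), sum_div]
  refine sum_congr rfl fun U hU => ?_
  congr 1
  by_cases hX : τ U = Lab.X
  · rw [if_pos hX]
    refine Av_congr fun π1 h1 => ?_
    rw [(mem_seqs_card.1 h1).2, Av_const]
    simp [hX]
  · rw [if_neg hX]
    refine (Av_congr (f' := fun _ => 0) fun π1 h1 => ?_).trans (Av_zero U)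
    rw [(mem_seqs_card.1 h1).2, Av_const]
    simp [hX]

/-- sums over the A-chains below `U` in `snoc` form -/
theorem Av_snoc_A (τ : Finset α → Lab) {U : Finset α} (hU : U.Nonempty) (c : Finset α → ℝ) :
    (∑ x ∈ U, Av (U.erase x) (fun π => if allA τ π (U.card - 1) then
      ∑ i ∈ Icc 1 (U.card - 1), c (pre π i) else 0)) / (U.card : ℝ) =
    Av U (fun π => if allA τ π (U.card - 1) then ∑ i ∈ Icc 1 (U.card - 1), c (pre π i) else 0) := by
  rw [Av_snoc hU (fun π => if allA τ π (U.card - 1) then
    ∑ i ∈ Icc 1 (U.card - 1), c (pre π i) else 0)]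
  congr 1
  refine sum_congr rfl fun x hx => ?_
  refine Av_congr fun π hπ => ?_
  have hl : π.length = U.card - 1 := by rw [length_of_mem hπ, card_erase_of_mem hx]
  rw [if_congr (allA_append (le_of_eq hl.symm)) _ rfl]
  refine sum_congr rfl fun i hi => ?_
  rw [mem_Icc] at hi
  rw [pre_append_le (by omega)]

/-- averages of `allA` one level below the top -/
theorem fwb_eq_Av (τ : Finset α → Lab) {U : Finset α} (hU : U.Nonempty) :
    fwb τ U = Av U (fun π => if allA τ π (U.card - 1) then 1 else 0) := by
  rw [Av_snoc hU (fun π => if allA τ π (U.card - 1) then (1 : ℝ) else 0)]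
  unfold fwb
  congr 1
  refine sum_congr rfl fun x hx => ?_
  rw [fw_eq_Av, card_erase_of_mem hx]
  refine Av_congr fun π hπ => ?_
  have hl : π.length = U.card - 1 := by rw [length_of_mem hπ, card_erase_of_mem hx]
  rw [if_congr (allA_append (le_of_eq hl.symm)) rfl rfl]

/-- peeling the top level -/
theorem Av_allA_top (τ : Finset α → Lab) {U : Finset α} (hU : U.Nonempty) (f : List α → ℝ) :
    Av U (fun π => if allA τ π U.card then f π else 0) =
      if τ U = Lab.A then Av U (fun π => if allA τ π (U.card - 1) then f π else 0) else 0 := by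
  have hc : U.card = U.card - 1 + 1 := by
    have := card_pos.2 hU
    omega
  have h1 : ∀ π ∈ seqs U.card U, (allA τ π U.card ↔ allA τ π (U.card - 1) ∧ τ U = Lab.A) := by
    intro π hπ
    conv_lhs => rw [hc]
    rw [allA_succ, ← hc, pre_card_of_mem hπ le_rfl]
  split_ifs with hA
  · refine Av_congr fun π hπ => ?_
    rw [if_congr (h1 π hπ) rfl rfl]
    simp [hA]
  · refine (Av_congr (f' := fun _ => 0) fun π hπ => ?_).trans (Av_zero U)
    rw [if_congr (h1 π hπ) rfl rfl]
    simp [hA]

theorem sum_Icc_top {n : ℕ} (hn : 1 ≤ n) (f : ℕ → ℝ) :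
    ∑ i ∈ Icc 1 n, f i = ∑ i ∈ Icc 1 (n - 1), f i + f n := by
  obtain ⟨m, rfl⟩ : ∃ m, n = m + 1 := ⟨n - 1, by omega⟩
  rw [sum_Icc_succ_top (by omega)]
  rfl

/-- the suffix costs of the dual as prefix costs -/
theorem ec_dual_eq (τ : Finset α → Lab) {D : Finset α} (c : Finset α → ℝ) :
    ∀ U ⊆ D, ec (dual τ D) D c (D \ U) =
      Av U (fun π => if allA τ π U.card then ∑ i ∈ Icc 1 U.card, c (D \ pre π i) else 0) := by
  have key : ∀ (n : ℕ) (U : Finset α), U ⊆ D → U.card = n → ec (dual τ D) D c (D \ U) =
      Av U (fun π => if allA τ π U.card then ∑ i ∈ Icc 1 U.card, c (D \ pre π i) else 0) := by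
    intro n
    induction n with
    | zero =>
      intro U _ hn
      rw [card_eq_zero] at hn
      subst hn
      rw [ec_top c (by simp), Av_empty]
      simp
    | succ n ih =>
      intro U hU hn
      have hne : U.Nonempty := card_pos.1 (by omega)
      have hDD : D \ (D \ U) = U := Finset.sdiff_sdiff_eq_self hU
      rw [ec_rec c (by rw [hDD]; exact hne), hDD, bw_dual, hDD, dual_apply hU,
        Av_allA_top τ hne]
      by_cases hA : τ U = Lab.A
      · rw [if_pos (flip_eq_B.2 hA), if_pos hA]
        have h1 : ∀ x ∈ U, ec (dual τ D) D c (insert x (D \ U)) =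
            Av (U.erase x) (fun π => if allA τ π (U.card - 1) then
              ∑ i ∈ Icc 1 (U.card - 1), (fun P => c (D \ P)) (pre π i) else 0) := by
          intro x hx
          have e1 : insert x (D \ U) = D \ U.erase x := by
            ext y
            simp only [mem_insert, mem_sdiff, mem_erase, not_and]
            constructor
            · rintro (rfl | h)
              · exact ⟨hU hx, fun h => absurd rfl h⟩
              · exact ⟨h.1, fun _ => h.2⟩
            · rintro ⟨h1, h2⟩
              by_cases hy : y = x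
              · exact Or.inl hy
              · exact Or.inr ⟨h1, h2 hy⟩
          have hc : (U.erase x).card = U.card - 1 := card_erase_of_mem hx
          rw [e1, ih (U.erase x) ((erase_subset _ _).trans hU) (by rw [hc, hn]; rfl), hc]
        rw [sum_congr rfl h1, Av_snoc_A τ hne (fun P => c (D \ P)), fw_rec_A hne.ne_empty hA,
          fwb_eq_Av τ hne, ← Av_mul, ← Av_add]
        refine Av_congr fun π hπ => ?_
        split_ifs with h2
        · rw [sum_Icc_top (n := U.card) (by omega) (fun i => c (D \ pre π i)),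
            pre_card_of_mem hπ le_rfl]
          ring
        · simp
      · rw [if_neg (fun h => hA (flip_eq_B.1 h)), if_neg hA]
  exact fun U hU => key _ U hU rfl

/-- the same for chains starting at a vertex -/
theorem ev_dual_eq (τ : Finset α → Lab) {D : Finset α} (c : Finset α → ℝ) {U : Finset α}
    (hU : U ⊆ D) (hne : U.Nonempty) :
    ev (dual τ D) D c (D \ U) =
      Av U (fun π => if allA τ π (U.card - 1) then ∑ i ∈ Icc 1 U.card, c (D \ pre π i) else 0) := by
  have hDD : D \ (D \ U) = U := Finset.sdiff_sdiff_eq_self hU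
  unfold ev
  rw [bwb_dual, hDD]
  have h1 : ∀ x ∈ U, ec (dual τ D) D c (insert x (D \ U)) =
      Av (U.erase x) (fun π => if allA τ π (U.card - 1) then
        ∑ i ∈ Icc 1 (U.card - 1), (fun P => c (D \ P)) (pre π i) else 0) := by
    intro x hx
    have e1 : insert x (D \ U) = D \ U.erase x := by
      ext y
      simp only [mem_insert, mem_sdiff, mem_erase, not_and]
      constructor
      · rintro (rfl | h)
        · exact ⟨hU hx, fun h => absurd rfl h⟩
        · exact ⟨h.1, fun _ => h.2⟩
      · rintro ⟨h1, h2⟩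
        by_cases hy : y = x
        · exact Or.inl hy
        · exact Or.inr ⟨h1, h2 hy⟩
    have hc : (U.erase x).card = U.card - 1 := card_erase_of_mem hx
    rw [e1, ec_dual_eq τ c (U.erase x) ((erase_subset _ _).trans hU), hc]
  rw [sum_congr rfl h1, Av_snoc_A τ hne (fun P => c (D \ P)), fwb_eq_Av τ hne, ← Av_mul, ← Av_add]
  refine Av_congr fun π hπ => ?_
  have := card_pos.2 hne
  split_ifs with h2
  · rw [sum_Icc_top (n := U.card) (by omega) (fun i => c (D \ pre π i)),
      pre_card_of_mem hπ le_rfl]
    ring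
  · simp

/-! ### the masses of the dual type -/

theorem sdiff_subset_sdiff_iff {D W U : Finset α} (hU : U ⊆ D) : D \ W ⊆ D \ U ↔ U ⊆ W := by
  constructor
  · intro h x hx
    by_contra hxW
    exact (mem_sdiff.1 (h (mem_sdiff.2 ⟨hU hx, hxW⟩))).2 hx
  · intro h
    exact sdiff_subset_sdiff (Subset.refl _) h

theorem choose_edge {l m k : ℕ} (hk : k < m) (hm : m ≤ l) :
    (l.choose (l - m) : ℝ) * ((l - (l - m)).choose ((l - (k + 1)) - (l - m)) : ℝ) *
      ((l : ℝ) - ((l - (k + 1) : ℕ) : ℝ)) =
      (l.choose m : ℝ) * ((m.choose k : ℝ) * ((m : ℝ) - k)) := by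
  rw [Nat.choose_symm hm]
  have h1 : l - (l - m) = m := by omega
  have h2 : (l - (k + 1)) - (l - m) = m - (k + 1) := by omega
  rw [h1, h2, Nat.choose_symm (by omega : k + 1 ≤ m), choose_up hk, Nat.cast_sub (by omega)]
  push_cast
  ring

theorem pe_dual (τ : Finset α → Lab) {D W U : Finset α} {x : α} (hW : W ⊆ D) (hU : U ⊆ D)
    (hx : x ∈ D \ U) :
    pe (dual τ D) D (D \ W) (D \ insert x U) x =
      if insert x U ⊆ W ∧ isE τ U x then bw τ D W / (D.card.choose W.card : ℝ) *
        (fw τ U / ((W.card.choose U.card : ℝ) * ((W.card : ℝ) - U.card))) / ((D.card : ℝ) + 1)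
      else 0 := by
  have hx' := mem_sdiff.1 hx
  have h1 : insert x U ⊆ D := insert_subset hx'.1 hU
  have h2 : insert x (D \ insert x U) = D \ U := by
    ext y
    simp only [mem_sdiff, mem_insert, not_or]
    by_cases hy : y = x
    · subst hy; simp [hx'.1, hx'.2]
    · simp [hy]
  unfold pe
  simp only [isE_dual hU hx, sdiff_subset_sdiff_iff h1]
  split_ifs with h
  · have hm : (insert x U).card ≤ W.card := card_le_card h.1
    rw [card_insert_of_notMem hx'.2] at hm
    have hl : W.card ≤ D.card := card_le_card hW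
    rw [fw_dual sdiff_subset, Finset.sdiff_sdiff_eq_self hW, h2, bw_dual,
      Finset.sdiff_sdiff_eq_self hU, card_sdiff_of_subset hW, card_sdiff_of_subset h1,
      card_insert_of_notMem hx'.2]
    have h3 := choose_edge (l := D.card) (m := W.card) (k := U.card) (by omega) hl
    have e1 : ((D.card : ℝ) + 1) * (D.card.choose (D.card - W.card) : ℝ) *
        ((D.card - (D.card - W.card)).choose ((D.card - (U.card + 1)) -
          (D.card - W.card)) : ℝ) * ((D.card : ℝ) - ((D.card - (U.card + 1) : ℕ) : ℝ)) =
        ((D.card : ℝ) + 1) * ((D.card.choose W.card : ℝ) * ((W.card.choose U.card : ℝ) *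
          ((W.card : ℝ) - U.card))) := by
      rw [← h3]; ring
    rw [e1]
    rw [div_mul_div_comm, div_div]
    congr 1
    ring
  · rfl

theorem pe1_dual (τ : Finset α → Lab) {D W U : Finset α} {x : α} (hW : W ⊆ D) (hU : U ⊆ D)
    (hx : x ∈ D \ U) :
    pe1 (dual τ D) D (D \ W) (D \ insert x U) x =
      if insert x U ⊆ W ∧ isE τ U x then bw τ D W / (D.card.choose W.card : ℝ) *
        (1 / ((W.card.choose U.card : ℝ) * ((W.card : ℝ) - U.card))) / ((D.card : ℝ) + 1)
      else 0 := by
  have hx' := mem_sdiff.1 hx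
  have h1 : insert x U ⊆ D := insert_subset hx'.1 hU
  unfold pe1
  simp only [isE_dual hU hx, sdiff_subset_sdiff_iff h1]
  split_ifs with h
  · have hm : (insert x U).card ≤ W.card := card_le_card h.1
    rw [card_insert_of_notMem hx'.2] at hm
    have hl : W.card ≤ D.card := card_le_card hW
    rw [fw_dual sdiff_subset, Finset.sdiff_sdiff_eq_self hW, card_sdiff_of_subset hW,
      card_sdiff_of_subset h1, card_insert_of_notMem hx'.2]
    have h3 := choose_edge (l := D.card) (m := W.card) (k := U.card) (by omega) hl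
    have e1 : ((D.card : ℝ) + 1) * (D.card.choose (D.card - W.card) : ℝ) *
        ((D.card - (D.card - W.card)).choose ((D.card - (U.card + 1)) -
          (D.card - W.card)) : ℝ) * ((D.card : ℝ) - ((D.card - (U.card + 1) : ℕ) : ℝ)) =
        ((D.card : ℝ) + 1) * ((D.card.choose W.card : ℝ) * ((W.card.choose U.card : ℝ) *
          ((W.card : ℝ) - U.card))) := by
      rw [← h3]; ring
    rw [e1]
    rw [div_mul_div_comm, div_div, mul_one]
    congr 1
    ring
  · rfl

theorem choose_vert {l m k : ℕ} (hk : k ≤ m) (hm : m ≤ l) :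
    (l.choose (l - m) : ℝ) * ((l - (l - m)).choose ((l - k) - (l - m)) : ℝ) =
      (l.choose m : ℝ) * (m.choose k : ℝ) := by
  rw [Nat.choose_symm hm]
  have h1 : l - (l - m) = m := by omega
  have h2 : (l - k) - (l - m) = m - k := by omega
  rw [h1, h2, Nat.choose_symm hk]

theorem pv_dual (τ : Finset α → Lab) {D W U : Finset α} (hW : W ⊆ D) (hU : U ⊆ D) :
    pv (dual τ D) D (D \ W) (D \ U) =
      if U ⊆ W ∧ τ U = Lab.X then bw τ D W / (D.card.choose W.card : ℝ) *
        (fwb τ U / (W.card.choose U.card : ℝ)) / ((D.card : ℝ) + 1)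
      else 0 := by
  unfold pv
  simp only [dual_apply hU, flip_eq_X, sdiff_subset_sdiff_iff hU]
  split_ifs with h
  · have hm : U.card ≤ W.card := card_le_card h.1
    have hl : W.card ≤ D.card := card_le_card hW
    rw [fw_dual sdiff_subset, Finset.sdiff_sdiff_eq_self hW, bwb_dual,
      Finset.sdiff_sdiff_eq_self hU, card_sdiff_of_subset hW, card_sdiff_of_subset hU]
    have h3 := choose_vert (l := D.card) (m := W.card) (k := U.card) hm hl
    have e1 : ((D.card : ℝ) + 1) * (D.card.choose (D.card - W.card) : ℝ) *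
        ((D.card - (D.card - W.card)).choose ((D.card - U.card) - (D.card - W.card)) : ℝ) =
        ((D.card : ℝ) + 1) * ((D.card.choose W.card : ℝ) * (W.card.choose U.card : ℝ)) := by
      rw [← h3]; ring
    rw [e1]
    rw [div_mul_div_comm, div_div]
    congr 1
    ring
  · rfl

theorem pv1_dual (τ : Finset α → Lab) {D W U : Finset α} (hW : W ⊆ D) (hU : U ⊆ D) :
    pv1 (dual τ D) D (D \ W) (D \ U) =
      if U ⊆ W ∧ τ U = Lab.X then bw τ D W / (D.card.choose W.card : ℝ) *
        (1 / (W.card.choose U.card : ℝ)) / ((D.card : ℝ) + 1)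
      else 0 := by
  unfold pv1
  simp only [dual_apply hU, flip_eq_X, sdiff_subset_sdiff_iff hU]
  split_ifs with h
  · have hm : U.card ≤ W.card := card_le_card h.1
    have hl : W.card ≤ D.card := card_le_card hW
    rw [fw_dual sdiff_subset, Finset.sdiff_sdiff_eq_self hW, card_sdiff_of_subset hW,
      card_sdiff_of_subset hU]
    have h3 := choose_vert (l := D.card) (m := W.card) (k := U.card) hm hl
    have e1 : ((D.card : ℝ) + 1) * (D.card.choose (D.card - W.card) : ℝ) *
        ((D.card - (D.card - W.card)).choose ((D.card - U.card) - (D.card - W.card)) : ℝ) =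
        ((D.card : ℝ) + 1) * ((D.card.choose W.card : ℝ) * (W.card.choose U.card : ℝ)) := by
      rw [← h3]; ring
    rw [e1]
    rw [div_mul_div_comm, div_div, mul_one]
    congr 1
    ring
  · rfl

end R5
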