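import Pool.Agent.Work.MP_8b6acb_ti.TForm

/-!
# The T-side of the value as an average over orders: assembly (helper55)
-/

namespace R5

open Finset

variable {α : Type} [DecidableEq α]

/-- the next element (a singleton) -/
def nx (π : List α) (k : ℕ) : Finset α := pre π (k + 1) \ pre π k

theorem card_nx {G : Finset α} {π : List α} (h : π ∈ seqs G.card G) {k : ℕ} (hk : k < G.card) :
    (nx π k).card = 1 := by
  unfold nx
  rw [card_sdiff_of_subset (pre_mono (Nat.le_succ k)), card_pre_of_mem h hk,
    card_pre_of_mem h hk.le]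
  omega

theorem sum_nx_add {G : Finset α} {π : List α} (h : π ∈ seqs G.card G) {k : ℕ} (hk : k < G.card)
    (f : α → ℝ) (c : ℝ) : ∑ x ∈ nx π k, (f x + c) = ∑ x ∈ nx π k, f x + c := by
  rw [sum_add_distrib, sum_const, card_nx h hk, one_smul]

/-- the functional of a T-state `W` -/
noncomputable def TS (τ : Finset α → Lab) (D : Finset α) (ρ : Finset α → α → ℝ)
    (mk : Finset α → Finset α) (W : Finset α) (π : List α) : ℝ :=
  ∑ k ∈ range W.card,
    ((if exE τ π k then (∑ x ∈ nx π k, (Real.log (W.card : ℝ) - Real.log (ρ (D \ W) x))) +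
        (∑ i ∈ Icc 1 k, SS ρ mk D (D \ W) (D \ pre π k) (D \ pre π i) +
          gm mk D (D \ pre π k)) else 0) +
     (if exX τ π k then ∑ i ∈ Icc 1 (k + 1), SS ρ mk D (D \ W) (D \ pre π (k + 1)) (D \ pre π i) +
        gm mk D (D \ pre π (k + 1)) else 0))

theorem sum_PP1 (τ : Finset α → Lab) (D X : Finset α) (F : α → ℝ) :
    ∑ g ∈ D \ X, PP1 τ D X g * F g =
      ∑ V ∈ D.powerset, ∑ x ∈ D \ V, pe τ D X V x * F x := by
  have h1 : ∑ g ∈ D \ X, PP1 τ D X g * F g = ∑ g ∈ D, PP1 τ D X g * F g := by
    refine sum_subset sdiff_subset fun g hg hg' => ?_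
    have hgX : g ∈ X := by
      by_contra h
      exact hg' (mem_sdiff.2 ⟨hg, h⟩)
    have : PP1 τ D X g = 0 := by
      unfold PP1
      refine sum_eq_zero fun V hV => ?_
      unfold pe
      rw [if_neg]
      rintro ⟨h2, -⟩
      exact notMem_erase g D (mem_powerset.1 hV (h2 hgX))
    rw [this, zero_mul]
  rw [h1]
  unfold PP1
  simp only [sum_mul]
  refine sum_comm' ?_
  intro g V
  simp only [mem_powerset, mem_sdiff]
  constructor
  · rintro ⟨h2, h3⟩
    exact ⟨⟨h2, fun h => notMem_erase g D (h3 h)⟩, h3.trans (erase_subset _ _)⟩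
  · rintro ⟨⟨h2, h3⟩, h4⟩
    exact ⟨h2, subset_erase.2 ⟨h4, h3⟩⟩

theorem sum_restrict_edge {D W : Finset α} (hW : W ⊆ D) (P : Finset α → α → Prop)
    [∀ U x, Decidable (P U x)] (G : Finset α → α → ℝ) :
    ∑ U ∈ D.powerset, ∑ x ∈ D \ U, (if insert x U ⊆ W ∧ P U x then G U x else 0) =
      ∑ U ∈ W.powerset, ∑ x ∈ W \ U, (if P U x then G U x else 0) := by
  symm
  have h1 : ∑ U ∈ W.powerset, ∑ x ∈ W \ U, (if P U x then G U x else 0) =
      ∑ U ∈ W.powerset, ∑ x ∈ D \ U, (if insert x U ⊆ W ∧ P U x then G U x else 0) := by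
    refine sum_congr rfl fun U hU => ?_
    rw [mem_powerset] at hU
    have h2 : ∑ x ∈ W \ U, (if P U x then G U x else 0) =
        ∑ x ∈ W \ U, (if insert x U ⊆ W ∧ P U x then G U x else 0) := by
      refine sum_congr rfl fun x hx => ?_
      have : insert x U ⊆ W := insert_subset (mem_sdiff.1 hx).1 hU
      simp [this]
    rw [h2]
    refine sum_subset (sdiff_subset_sdiff hW (Subset.refl _)) fun x hx hx' => ?_
    rw [if_neg]
    rintro ⟨h3, -⟩
    exact hx' (mem_sdiff.2 ⟨h3 (mem_insert_self _ _), (mem_sdiff.1 hx).2⟩)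
  rw [h1]
  refine sum_subset (powerset_mono.2 hW) fun U _ hU' => ?_
  refine sum_eq_zero fun x _ => ?_
  rw [if_neg]
  rintro ⟨h3, -⟩
  exact hU' (mem_powerset.2 ((subset_insert _ _).trans h3))

theorem sum_restrict_vert {D W : Finset α} (hW : W ⊆ D) (P : Finset α → Prop)
    [∀ U, Decidable (P U)] (G : Finset α → ℝ) :
    ∑ U ∈ D.powerset, (if U ⊆ W ∧ P U then G U else 0) =
      ∑ U ∈ W.powerset, (if P U then G U else 0) := by
  symm
  have h1 : ∑ U ∈ W.powerset, (if P U then G U else 0) =
      ∑ U ∈ W.powerset, (if U ⊆ W ∧ P U then G U else 0) := by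
    refine sum_congr rfl fun U hU => ?_
    rw [mem_powerset] at hU
    simp [hU]
  rw [h1]
  refine sum_subset (powerset_mono.2 hW) fun U _ hU' => ?_
  rw [if_neg]
  rintro ⟨h3, -⟩
  exact hU' (mem_powerset.2 h3)

theorem sum_levels_edge (W : Finset α) (G : Finset α → α → ℝ) :
    ∑ U ∈ W.powerset, ∑ x ∈ W \ U, G U x =
      ∑ k ∈ range W.card, ∑ U ∈ powersetCard k W, ∑ x ∈ W \ U, G U x := by
  rw [sum_powerset, sum_range_succ]
  have : ∑ U ∈ powersetCard W.card W, ∑ x ∈ W \ U, G U x = 0 := by
    refine sum_eq_zero fun U hU => ?_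
    obtain ⟨h1, h2⟩ := mem_powersetCard.1 hU
    have : U = W := eq_of_subset_of_card_le h1 (le_of_eq h2.symm)
    rw [this]
    simp
  rw [this, add_zero]

theorem sum_levels_vert (W : Finset α) (G : Finset α → ℝ) (h0 : G ∅ = 0) :
    ∑ U ∈ W.powerset, G U = ∑ k ∈ range W.card, ∑ U ∈ powersetCard (k + 1) W, G U := by
  rw [sum_powerset, sum_range_succ']
  rw [powersetCard_zero, sum_singleton, h0, add_zero]

/-- **the T-form** -/
theorem TForm (τ : Finset α → Lab) (D : Finset α) (ρ : Finset α → α → ℝ)
    (mk : Finset α → Finset α) (h0 : τ ∅ = Lab.A) :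
    SGc (dual τ D) D ρ mk =
      (∑ W ∈ D.powerset, bw τ D W / (D.card.choose W.card : ℝ) * Av W (TS τ D ρ mk W)) /
        ((D.card : ℝ) + 1) := by
  unfold SGc
  rw [← sum_powerset_compl, sum_div]
  refine sum_congr rfl fun W hW => ?_
  rw [mem_powerset] at hW
  have hDD : D \ (D \ W) = W := Finset.sdiff_sdiff_eq_self hW
  rw [sum_PP1, hDD]
  -- the edges
  have hE : ∑ V ∈ D.powerset, ∑ x ∈ D \ V, pe (dual τ D) D (D \ W) V x *
        (Real.log (W.card : ℝ) - Real.log (ρ (D \ W) x)) +
      ∑ V ∈ D.powerset, ∑ x ∈ D \ V,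
        (pe1 (dual τ D) D (D \ W) V x * ec (dual τ D) D (SS ρ mk D (D \ W) (insert x V))
          (insert x V) + pe (dual τ D) D (D \ W) V x * gm mk D (insert x V)) =
      bw τ D W / (D.card.choose W.card : ℝ) * Av W (fun π => ∑ k ∈ range W.card,
        (if exE τ π k then (∑ x ∈ nx π k, (Real.log (W.card : ℝ) - Real.log (ρ (D \ W) x))) +
          (∑ i ∈ Icc 1 k, SS ρ mk D (D \ W) (D \ pre π k) (D \ pre π i) +
            gm mk D (D \ pre π k)) else 0)) / ((D.card : ℝ) + 1) := by
    rw [← sum_add_distrib]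
    simp only [← sum_add_distrib]
    rw [← sum_edge_compl]
    have h1 : ∀ U ∈ D.powerset, ∀ x ∈ D \ U,
        (pe (dual τ D) D (D \ W) (D \ insert x U) x *
          (Real.log (W.card : ℝ) - Real.log (ρ (D \ W) x)) +
        (pe1 (dual τ D) D (D \ W) (D \ insert x U) x *
          ec (dual τ D) D (SS ρ mk D (D \ W) (insert x (D \ insert x U)))
          (insert x (D \ insert x U)) +
          pe (dual τ D) D (D \ W) (D \ insert x U) x * gm mk D (insert x (D \ insert x U)))) =
        if insert x U ⊆ W ∧ isE τ U x then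
          bw τ D W / (D.card.choose W.card : ℝ) / ((D.card : ℝ) + 1) *
            ((if isE τ U x then Av U (fun π1 => if allA τ π1 U.card then
              (Real.log (W.card : ℝ) - Real.log (ρ (D \ W) x)) +
              (∑ i ∈ Icc 1 U.card, SS ρ mk D (D \ W) (D \ U) (D \ pre π1 i) +
                gm mk D (D \ U)) else 0) else 0) /
              ((W.card.choose U.card : ℝ) * ((W.card : ℝ) - U.card))) else 0 := by
      intro U hU x hx
      rw [mem_powerset] at hU
      have hx' := mem_sdiff.1 hx
      have h2 : insert x (D \ insert x U) = D \ U := by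
        ext y
        simp only [mem_sdiff, mem_insert, not_or]
        by_cases hy : y = x
        · subst hy; simp [hx'.1, hx'.2]
        · simp [hy]
      rw [pe_dual τ hW hU hx, pe1_dual τ hW hU hx, h2, ec_dual_eq τ _ U hU]
      by_cases h : insert x U ⊆ W ∧ isE τ U x
      · rw [if_pos h, if_pos h, if_pos h, if_pos h.2]
        rw [fw_eq_Av τ U]
        set a := Av U (fun π => if allA τ π U.card then (1 : ℝ) else 0) with ha
        set b := Av U (fun π => if allA τ π U.card then
          ∑ i ∈ Icc 1 U.card, SS ρ mk D (D \ W) (D \ U) (D \ pre π i) else 0) with hb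
        have h3 : Av U (fun π1 => if allA τ π1 U.card then
              (Real.log (W.card : ℝ) - Real.log (ρ (D \ W) x)) +
              (∑ i ∈ Icc 1 U.card, SS ρ mk D (D \ W) (D \ U) (D \ pre π1 i) +
                gm mk D (D \ U)) else 0) =
            (Real.log (W.card : ℝ) - Real.log (ρ (D \ W) x) + gm mk D (D \ U)) * a + b := by
          rw [ha, hb, ← Av_mul, ← Av_add]
          refine Av_congr fun π _ => ?_
          split_ifs
          · ring
          · ring
        rw [h3]
        ring
      · rw [if_neg h, if_neg h, if_neg h]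
        ring
    rw [sum_congr rfl fun U hU => sum_congr rfl (h1 U hU)]
    rw [sum_restrict_edge hW (fun U x => isE τ U x), sum_levels_edge, Av_sum, mul_div_right_comm,
      mul_sum]
    refine sum_congr rfl fun k hk => ?_
    rw [mem_range] at hk
    have h4 : Av W (fun π => if exE τ π k then
        (∑ x ∈ nx π k, (Real.log (W.card : ℝ) - Real.log (ρ (D \ W) x))) +
          (∑ i ∈ Icc 1 k, SS ρ mk D (D \ W) (D \ pre π k) (D \ pre π i) +
            gm mk D (D \ pre π k)) else 0) =
        Av W (fun π => if exE τ π k then ∑ x ∈ pre π (k + 1) \ pre π k,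
          (fun (U : Finset α) (x : α) (π1 : List α) =>
            (Real.log (W.card : ℝ) - Real.log (ρ (D \ W) x)) +
              (∑ i ∈ Icc 1 k, SS ρ mk D (D \ W) (D \ U) (D \ pre π1 i) +
                gm mk D (D \ U))) (pre π k) x (π.take k) else 0) := by
      refine Av_congr fun π hπ => ?_
      have h5 := sum_nx_add hπ hk (fun x => Real.log (W.card : ℝ) - Real.log (ρ (D \ W) x))
        (∑ i ∈ Icc 1 k, SS ρ mk D (D \ W) (D \ pre π k) (D \ pre π i) + gm mk D (D \ pre π k))
      rw [← h5]
      split_ifs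
      · unfold nx
        refine sum_congr rfl fun x _ => ?_
        congr 2
        refine sum_congr rfl fun i hi => ?_
        rw [mem_Icc] at hi
        rw [pre_take hi.2]
      · rfl
    rw [h4, Av_exE τ hk (fun (U : Finset α) (x : α) (π1 : List α) =>
            (Real.log (W.card : ℝ) - Real.log (ρ (D \ W) x)) +
              (∑ i ∈ Icc 1 k, SS ρ mk D (D \ W) (D \ U) (D \ pre π1 i) +
                gm mk D (D \ U)))]
    rw [mul_sum]
    refine sum_congr rfl fun U hU => ?_
    obtain ⟨hU1, hU2⟩ := mem_powersetCard.1 hU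
    rw [mul_sum]
    refine sum_congr rfl fun x _ => ?_
    rw [hU2]
    split_ifs with h
    · rfl
    · simp
  -- the vertices
  have hX : ∑ V ∈ D.powerset, (pv1 (dual τ D) D (D \ W) V *
        ev (dual τ D) D (SS ρ mk D (D \ W) V) V + pv (dual τ D) D (D \ W) V * gm mk D V) =
      bw τ D W / (D.card.choose W.card : ℝ) * Av W (fun π => ∑ k ∈ range W.card,
        (if exX τ π k then ∑ i ∈ Icc 1 (k + 1), SS ρ mk D (D \ W) (D \ pre π (k + 1))
          (D \ pre π i) + gm mk D (D \ pre π (k + 1)) else 0)) / ((D.card : ℝ) + 1) := by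
    rw [← sum_powerset_compl]
    have h1 : ∀ U ∈ D.powerset,
        (pv1 (dual τ D) D (D \ W) (D \ U) * ev (dual τ D) D (SS ρ mk D (D \ W) (D \ U)) (D \ U) +
          pv (dual τ D) D (D \ W) (D \ U) * gm mk D (D \ U)) =
        if U ⊆ W ∧ τ U = Lab.X then
          bw τ D W / (D.card.choose W.card : ℝ) / ((D.card : ℝ) + 1) *
            ((if τ U = Lab.X then Av U (fun π1 => if allA τ π1 (U.card - 1) then
              ∑ i ∈ Icc 1 U.card, SS ρ mk D (D \ W) (D \ U) (D \ pre π1 i) +
                gm mk D (D \ U) else 0) else 0) / (W.card.choose U.card : ℝ)) else 0 := by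
      intro U hU
      rw [mem_powerset] at hU
      rw [pv_dual τ hW hU, pv1_dual τ hW hU]
      by_cases h : U ⊆ W ∧ τ U = Lab.X
      · rw [if_pos h, if_pos h, if_pos h, if_pos h.2]
        have hne : U.Nonempty := by
          rw [nonempty_iff_ne_empty]
          rintro rfl
          rw [h0] at h
          exact absurd h.2 (by decide)
        rw [ev_dual_eq τ _ hU hne, fwb_eq_Av τ hne]
        have h3 : Av U (fun π1 => if allA τ π1 (U.card - 1) then
              ∑ i ∈ Icc 1 U.card, SS ρ mk D (D \ W) (D \ U) (D \ pre π1 i) +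
                gm mk D (D \ U) else 0) =
            Av U (fun π1 => if allA τ π1 (U.card - 1) then
              ∑ i ∈ Icc 1 U.card, SS ρ mk D (D \ W) (D \ U) (D \ pre π1 i) else 0) +
            gm mk D (D \ U) * Av U (fun π => if allA τ π (U.card - 1) then (1 : ℝ) else 0) := by
          rw [← Av_mul, ← Av_add]
          refine Av_congr fun π _ => ?_
          split_ifs
          · ring
          · ring
        rw [h3]
        ring
      · rw [if_neg h, if_neg h, if_neg h]
        ring
    rw [sum_congr rfl h1, sum_restrict_vert hW (fun U => τ U = Lab.X), sum_levels_vert _ _ (by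
      rw [if_neg]
      rw [h0]
      decide), Av_sum, mul_div_right_comm, mul_sum]
    refine sum_congr rfl fun k hk => ?_
    rw [mem_range] at hk
    have h4 : Av W (fun π => if exX τ π k then ∑ i ∈ Icc 1 (k + 1),
          SS ρ mk D (D \ W) (D \ pre π (k + 1)) (D \ pre π i) + gm mk D (D \ pre π (k + 1)) else 0) =
        Av W (fun π => if exX τ π k then
          (fun (U : Finset α) (π1 : List α) =>
              (∑ i ∈ Icc 1 (k + 1), SS ρ mk D (D \ W) (D \ U) (D \ pre π1 i) +
                gm mk D (D \ U))) (pre π (k + 1)) (π.take (k + 1)) else 0) := by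
      refine Av_congr fun π _ => ?_
      split_ifs
      · simp only []
        congr 1
        refine sum_congr rfl fun i hi => ?_
        rw [mem_Icc] at hi
        rw [pre_take hi.2]
      · rfl
    rw [h4, Av_exX τ hk (fun (U : Finset α) (π1 : List α) =>
              (∑ i ∈ Icc 1 (k + 1), SS ρ mk D (D \ W) (D \ U) (D \ pre π1 i) +
                gm mk D (D \ U)))]
    rw [mul_sum]
    refine sum_congr rfl fun U hU => ?_
    obtain ⟨hU1, hU2⟩ := mem_powersetCard.1 hU
    rw [hU2, Nat.add_sub_cancel]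
    split_ifs with h
    · rfl
    · simp
  rw [hE, hX, ← add_div, ← mul_add, ← Av_add]
  congr 2
  refine Av_congr fun π _ => ?_
  unfold TS
  rw [sum_add_distrib]

end R5
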