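import Pool.Agent.Work.MP_8b6acb_ti.Chg
import Pool.Agent.Work.MP_8b6acb_cap.YSUM

/-!
# The T side, path form (helper55)
-/

namespace R5

open Finset T7

variable {α : Type} [DecidableEq α]

noncomputable def iB (τ : Finset α → Lab) (π : List α) (j : ℕ) : ℝ := if allB τ π j then 1 else 0

theorem iB_pos {τ : Finset α → Lab} {π : List α} {i : ℕ} (h : allB τ π i) : iB τ π i = 1 :=
  if_pos h
theorem iB_neg {τ : Finset α → Lab} {π : List α} {i : ℕ} (h : ¬ allB τ π i) : iB τ π i = 0 :=
  if_neg h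
theorem iB_nonneg (τ : Finset α → Lab) (π : List α) (i : ℕ) : 0 ≤ iB τ π i := by
  unfold iB; split_ifs <;> norm_num

/-- sums over the T-states as sums over the final B-run -/
theorem sum_bw (τ : Finset α → Lab) (D : Finset α) (h : Finset α → List α → ℝ) :
    ∑ W ∈ D.powerset, bw τ D W / (D.card.choose W.card : ℝ) * Av W (h W) =
      Av D (fun π => ∑ j ∈ range (D.card + 1), iB τ π j * h (pre π j) (π.take j)) := by
  rw [sum_powerset, Av_sum]
  refine sum_congr rfl fun j hj => ?_
  rw [mem_range] at hj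
  have h1 : ∀ W ∈ powersetCard j D, bw τ D W / (D.card.choose W.card : ℝ) * Av W (h W) =
      bw τ D W / (D.card.choose j : ℝ) * Av W (h W) := by
    intro W hW
    rw [(mem_powersetCard.1 hW).2]
  rw [sum_congr rfl h1, chain_B τ (by omega) h]
  refine Av_congr fun π _ => ?_
  unfold iB
  split_ifs <;> simp

/-- the mass of the T side paying an edge -/
theorem PEL_eq (τ : Finset α → Lab) (D : Finset α) :
    PEL (dual τ D) D =
      (∑ W ∈ D.powerset, bw τ D W / (D.card.choose W.card : ℝ) *
        Av W (fun π => ∑ k ∈ range W.card, iE τ π k)) / ((D.card : ℝ) + 1) := by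
  unfold PEL
  have h1 : ∀ V ∈ D.powerset, ∀ x ∈ D \ V, yLe (dual τ D) D V x =
      ∑ X ∈ D.powerset, pe (dual τ D) D X V x := by
    intro V hV x hx
    exact ((stmt_YSUM (dual τ D) D V (mem_powerset.1 hV)).1 x hx).symm
  rw [sum_congr rfl fun V hV => sum_congr rfl (h1 V hV)]
  have h2 : ∑ V ∈ D.powerset, ∑ x ∈ D \ V, ∑ X ∈ D.powerset, pe (dual τ D) D X V x =
      ∑ X ∈ D.powerset, ∑ V ∈ D.powerset, ∑ x ∈ D \ V, pe (dual τ D) D X V x := by
    rw [sum_comm]
    rw [sum_comm]
    rw [sum_comm (s := D.powerset) (t := D.powerset)]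
    refine sum_congr rfl fun V _ => ?_
    rw [sum_comm]
  rw [h2, ← sum_powerset_compl, sum_div]
  refine sum_congr rfl fun W hW => ?_
  rw [mem_powerset] at hW
  rw [← sum_edge_compl]
  have h3 : ∀ U ∈ D.powerset, ∀ x ∈ D \ U,
      pe (dual τ D) D (D \ W) (D \ insert x U) x =
        if insert x U ⊆ W ∧ isE τ U x then
          bw τ D W / (D.card.choose W.card : ℝ) / ((D.card : ℝ) + 1) *
            ((if isE τ U x then Av U (fun π1 => if allA τ π1 U.card then (1 : ℝ) else 0) else 0) /
              ((W.card.choose U.card : ℝ) * ((W.card : ℝ) - U.card))) else 0 := by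
    intro U hU x hx
    rw [mem_powerset] at hU
    rw [pe_dual τ hW hU hx]
    by_cases h : insert x U ⊆ W ∧ isE τ U x
    · rw [if_pos h, if_pos h, if_pos h.2, fw_eq_Av τ U]
      ring
    · rw [if_neg h, if_neg h]
  rw [sum_congr rfl fun U hU => sum_congr rfl (h3 U hU)]
  rw [sum_restrict_edge hW (fun U x => isE τ U x), sum_levels_edge, Av_sum, mul_div_right_comm,
      mul_sum]
  refine sum_congr rfl fun k hk => ?_
  rw [mem_range] at hk
  have h4 : Av W (fun π => iE τ π k) =
      Av W (fun π => if exE τ π k then ∑ x ∈ pre π (k + 1) \ pre π k,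
        (fun (_ : Finset α) (_ : α) (_ : List α) => (1 : ℝ)) (pre π k) x (π.take k) else 0) := by
    refine Av_congr fun π hπ => ?_
    have h5 := card_nx hπ hk
    unfold nx at h5
    by_cases h : exE τ π k
    · rw [iE_pos h, if_pos h, sum_const, h5]
      simp
    · rw [iE_neg h, if_neg h]
  rw [h4, Av_exE τ hk (fun (_ : Finset α) (_ : α) (_ : List α) => (1 : ℝ)), mul_sum]
  refine sum_congr rfl fun U hU => ?_
  obtain ⟨hU1, hU2⟩ := mem_powersetCard.1 hU
  rw [mul_sum]
  refine sum_congr rfl fun x _ => ?_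
  rw [hU2]
  split_ifs with h
  · rfl
  · simp

end R5
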