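import Pool.Agent.Work.MP_8b6acb_ti.Tot

/-!
# The T side, path form: the bound from T7L (helper55)
-/

namespace R5

open Finset T7

variable {α : Type} [DecidableEq α]

/-- slots of the dual form -/
theorem SS_dual (ρ : Finset α → α → ℝ) (mk : Finset α → Finset α) {D W P Q : Finset α}
    (hW : W ⊆ D) (hP : P ⊆ W) :
    SS ρ mk D (D \ W) (D \ P) (D \ Q) =
      Lf W.card (∑ x ∈ W \ P, ρ (D \ W) x + ∑ x ∈ (P \ Q) \ mk (D \ P), ρ (D \ W) x) := by
  unfold SS sc Lf
  have h1 : (D \ P) \ (D \ W) = W \ P := by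
    ext y
    simp only [mem_sdiff, not_and, not_not]
    constructor
    · rintro ⟨⟨h1, h2⟩, h3⟩
      exact ⟨h3 h1, h2⟩
    · rintro ⟨h1, h2⟩
      exact ⟨⟨hW h1, h2⟩, fun _ => h1⟩
  have h2 : (D \ Q) \ (D \ P) = P \ Q := by
    ext y
    simp only [mem_sdiff, not_and, not_not]
    constructor
    · rintro ⟨⟨h1, h2⟩, h3⟩
      exact ⟨h3 h1, h2⟩
    · rintro ⟨h1, h2⟩
      exact ⟨⟨hW (hP h1), h2⟩, fun _ => h1⟩
  have h3 : (D.card : ℝ) - ((D \ W).card : ℝ) = (W.card : ℝ) := by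
    rw [card_sdiff_cast hW]
    ring
  rw [h1, h2, h3]

/-- without marks -/
theorem SS_dual0 (ρ : Finset α → α → ℝ) (mk : Finset α → Finset α) {D W P Q : Finset α}
    (hW : W ⊆ D) (hP : P ⊆ W) (hQ : Q ⊆ P) (hmk : mk (D \ P) = ∅) :
    SS ρ mk D (D \ W) (D \ P) (D \ Q) = Lf W.card (∑ x ∈ W \ Q, ρ (D \ W) x) := by
  rw [SS_dual ρ mk hW hP, hmk, sdiff_empty]
  congr 1
  rw [← sum_union]
  · refine sum_congr ?_ fun _ _ => rfl
    ext y
    simp only [mem_union, mem_sdiff]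
    constructor
    · rintro (⟨h1, h2⟩ | ⟨h1, h2⟩)
      · exact ⟨h1, fun h => h2 (hQ h)⟩
      · exact ⟨hP h1, h2⟩
    · rintro ⟨h1, h2⟩
      by_cases h3 : y ∈ P
      · exact Or.inr ⟨h3, h2⟩
      · exact Or.inl ⟨h1, h3⟩
  · rw [Finset.disjoint_left]
    intro y h1 h2
    exact (mem_sdiff.1 h1).2 (mem_sdiff.1 h2).1

theorem gm_empty (mk : Finset α → Finset α) (D U : Finset α) (h : mk U = ∅) : gm mk D U = 0 := by
  unfold gm
  rw [h]
  simp [gg]

/-- the functional of an unmarked T-state -/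
theorem TS_unmarked (τ : Finset α → Lab) {D W : Finset α} (ρ : Finset α → α → ℝ)
    (mk : Finset α → Finset α) (hW : W ⊆ D) (hmk : ∀ U, mk U = ∅) {π : List α}
    (hπ : π ∈ seqs W.card W) :
    TS τ D ρ mk W π = Real.log (W.card : ℝ) * ∑ k ∈ range W.card, iE τ π k +
      cst τ (ρ (D \ W)) W π := by
  unfold TS cst
  rw [mul_sum, ← sum_add_distrib]
  refine sum_congr rfl fun k hk => ?_
  rw [mem_range] at hk
  have hP : ∀ i, pre π i ⊆ W := fun i => pre_subset_of_mem hπ i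
  have h1 : ∑ i ∈ Icc 1 k, SS ρ mk D (D \ W) (D \ pre π k) (D \ pre π i) =
      ∑ i ∈ Icc 1 k, Lf W.card (∑ x ∈ W \ pre π i, ρ (D \ W) x) := by
    refine sum_congr rfl fun i hi => ?_
    rw [mem_Icc] at hi
    exact SS_dual0 ρ mk hW (hP k) (pre_mono hi.2) (hmk _)
  have h2 : ∑ i ∈ Icc 1 (k + 1), SS ρ mk D (D \ W) (D \ pre π (k + 1)) (D \ pre π i) =
      ∑ i ∈ Icc 1 (k + 1), Lf W.card (∑ x ∈ W \ pre π i, ρ (D \ W) x) := by
    refine sum_congr rfl fun i hi => ?_
    rw [mem_Icc] at hi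
    exact SS_dual0 ρ mk hW (hP (k + 1)) (pre_mono hi.2) (hmk _)
  rw [h1, h2, gm_empty mk D _ (hmk _), gm_empty mk D _ (hmk _), add_zero, add_zero]
  have h3 : ∑ x ∈ nx π k, (Real.log (W.card : ℝ) - Real.log (ρ (D \ W) x)) =
      ∑ x ∈ nx π k, (-Real.log (ρ (D \ W) x)) + Real.log (W.card : ℝ) := by
    rw [← sum_nx_add hπ hk]
    refine sum_congr rfl fun x _ => by ring
  rw [h3]
  unfold iE iX
  split_ifs <;> ring

/-- lower bound of one T-state -/
noncomputable def low (τ : Finset α → Lab) (l : ℕ) (W : Finset α) (π : List α) : ℝ :=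
  lamn W.card * ∑ k ∈ range W.card, iE τ π k * ((W.card : ℝ) - 1 - k) +
    (Real.log (W.card : ℝ) - Real.log (l : ℝ)) * ∑ k ∈ range W.card, iE τ π k -
    ∑ i ∈ range W.card, iA τ π i * (gg W.card (AL τ W (pre π i)).card -
      gg (W.card - 1) (AL τ (pre π (W.card - 1)) (pre π i)).card)

/-- the T side is at least the average of `low` -/
theorem T_side (τ : Finset α → Lab) (D : Finset α) (ρ : Finset α → α → ℝ)
    (mk : Finset α → Finset α) (h0 : τ ∅ = Lab.A) (hmk : ∀ U, mk U = ∅)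
    (hρ : ∀ X ⊆ D, ∀ g ∈ D \ X, 0 < ρ X g ∧ ρ X g ≤ 1) :
    Av D (fun π => ∑ j ∈ range (D.card + 1),
      iB τ π j * low τ D.card (pre π j) (π.take j)) ≤
    ((D.card : ℝ) + 1) * (SGc (dual τ D) D ρ mk - Real.log (D.card : ℝ) * PEL (dual τ D) D) := by
  rw [TForm τ D ρ mk h0, PEL_eq]
  have hl : (0 : ℝ) < (D.card : ℝ) + 1 := by positivity
  have e1 : ((D.card : ℝ) + 1) *
      ((∑ W ∈ D.powerset, bw τ D W / (D.card.choose W.card : ℝ) * Av W (TS τ D ρ mk W)) /
        ((D.card : ℝ) + 1) - Real.log (D.card : ℝ) *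
      ((∑ W ∈ D.powerset, bw τ D W / (D.card.choose W.card : ℝ) *
        Av W (fun π => ∑ k ∈ range W.card, iE τ π k)) / ((D.card : ℝ) + 1))) =
      ∑ W ∈ D.powerset, bw τ D W / (D.card.choose W.card : ℝ) *
        (Av W (TS τ D ρ mk W) - Real.log (D.card : ℝ) *
          Av W (fun π => ∑ k ∈ range W.card, iE τ π k)) := by
    simp only [mul_sub, sum_sub_distrib]
    field_simp
    congr 1
    rw [mul_sum]
    refine sum_congr rfl fun W _ => by ring
  rw [e1, ← sum_bw τ D (low τ D.card)]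
  refine sum_le_sum fun W hW => ?_
  rw [mem_powerset] at hW
  by_cases hB : τ W = Lab.B
  · apply mul_le_mul_of_nonneg_left _ (div_nonneg (bw_nonneg _ _ _) (Nat.cast_nonneg _))
    have hne : W.Nonempty := by
      rw [nonempty_iff_ne_empty]
      rintro rfl
      rw [h0] at hB
      exact absurd hB (by decide)
    have hDD : D \ (D \ W) = W := Finset.sdiff_sdiff_eq_self hW
    have h7 := T7L_Av τ (ρ (D \ W)) W h0 (by rw [hB]; decide) (card_pos.2 hne)
      (fun x hx => hρ (D \ W) sdiff_subset x (by rw [hDD]; exact hx))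
    have h8 : Av W (fun π => ∑ i ∈ range W.card,
        iA τ π i * cc W.card (AL τ W (pre π i)).card (W.card - i)) =
        Av W (fun π => ∑ i ∈ range W.card, iA τ π i * (gg W.card (AL τ W (pre π i)).card -
          gg (W.card - 1) (AL τ (pre π (W.card - 1)) (pre π i)).card)) := by
      rw [Av_sum, Av_sum]
      refine sum_congr rfl fun i hi => ?_
      exact charge_g τ W (mem_range.1 hi)
    rw [h8] at h7
    have h9 : Av W (TS τ D ρ mk W) = Real.log (W.card : ℝ) *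
        Av W (fun π => ∑ k ∈ range W.card, iE τ π k) + Av W (cst τ (ρ (D \ W)) W) := by
      rw [← Av_mul, ← Av_add]
      exact Av_congr fun π hπ => TS_unmarked τ ρ mk hW hmk hπ
    have h10 : Av W (low τ D.card W) = lamn W.card * Av W (fun π =>
        ∑ k ∈ range W.card, iE τ π k * ((W.card : ℝ) - 1 - k)) +
        (Real.log (W.card : ℝ) - Real.log (D.card : ℝ)) *
          Av W (fun π => ∑ k ∈ range W.card, iE τ π k) -
        Av W (fun π => ∑ i ∈ range W.card, iA τ π i * (gg W.card (AL τ W (pre π i)).card -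
          gg (W.card - 1) (AL τ (pre π (W.card - 1)) (pre π i)).card)) := by
      rw [← Av_mul, ← Av_mul, ← Av_add, ← Av_sub]
      rfl
    rw [h9, h10]
    linarith
  · rw [bw_of_ne hW hB, zero_div, zero_mul, zero_mul]

end R5
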