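import Pool.Agent.Work.MP_8b6acb_ti.Tot2

/-!
# The T side, path form: evaluation on a path (helper55)
-/

namespace R5

open Finset T7

variable {α : Type} [DecidableEq α]

/-- last level of the initial A-run (the first exit is between `kA` and `kA + 1`) -/
def kA (τ : Finset α → Lab) (π : List α) : ℕ := Nat.findGreatest (fun i => allA τ π i) π.length

/-- last level which is not `B` -/
def kN (τ : Finset α → Lab) (π : List α) : ℕ := Nat.findGreatest (fun i => ¬ allB τ π i) π.length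

section path

variable {τ : Finset α → Lab} {D : Finset α} {π : List α}

theorem allA_iff (h0 : τ ∅ = Lab.A) (hD : τ D ≠ Lab.A) (hπ : π ∈ seqs D.card D) (i : ℕ) :
    allA τ π i ↔ i ≤ kA τ π := by
  have hl := length_of_mem hπ
  constructor
  · intro h
    have hi : i ≤ π.length := by
      by_contra hc
      apply hD
      have := h i (by simp)
      rwa [pre_card_of_mem hπ (by omega)] at this
    exact Nat.le_findGreatest hi h
  · intro h
    have h1 : allA τ π (kA τ π) :=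
      Nat.findGreatest_spec (P := fun i => allA τ π i) (Nat.zero_le π.length) (allA_zero.2 h0)
    exact allA_mono h h1

theorem allB_iff (h0 : τ ∅ ≠ Lab.B) (hD : τ D = Lab.B) (hπ : π ∈ seqs D.card D) (j : ℕ) :
    allB τ π j ↔ kN τ π < j := by
  have hl := length_of_mem hπ
  constructor
  · intro h
    by_contra hc
    have h1 : ¬ allB τ π (kN τ π) := by
      apply Nat.findGreatest_spec (P := fun i => ¬ allB τ π i) (Nat.zero_le π.length)
      intro h2
      apply h0
      have := h2 0 (by simp)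
      rwa [pre_zero] at this
    exact h1 (allB_mono (not_lt.1 hc) h)
  · intro h
    by_contra hc
    by_cases hj : j ≤ π.length
    · exact absurd (Nat.le_findGreatest hj hc) (not_le.2 h)
    · apply hc
      intro i hi
      rw [mem_Icc] at hi
      omega

theorem kA_lt (h0 : τ ∅ = Lab.A) (hD : τ D ≠ Lab.A) (hπ : π ∈ seqs D.card D) :
    kA τ π < D.card := by
  by_contra hc
  have h1 := (allA_iff h0 hD hπ D.card).2 (not_lt.1 hc)
  apply hD
  have := h1 D.card (by simp)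
  rwa [pre_card_of_mem hπ le_rfl] at this

theorem kN_lt (h0 : τ ∅ ≠ Lab.B) (hD : τ D = Lab.B) (hπ : π ∈ seqs D.card D) :
    kN τ π < D.card := by
  rw [← allB_iff h0 hD hπ, ← length_of_mem hπ, allB_length, (mem_seqs_card.1 hπ).2]
  exact hD

theorem kA_le_kN (h0 : τ ∅ = Lab.A) (hD : τ D = Lab.B) (hπ : π ∈ seqs D.card D) :
    kA τ π ≤ kN τ π := by
  have hD' : τ D ≠ Lab.A := by rw [hD]; decide
  have h0' : τ ∅ ≠ Lab.B := by rw [h0]; decide
  by_contra hc
  have h1 := (allB_iff h0' hD hπ (kA τ π)).2 (not_le.1 hc)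
  have h2 := (allA_iff h0 hD' hπ (kA τ π)).2 le_rfl
  have h3 := h1 (kA τ π) (by
    rw [mem_Icc, length_of_mem hπ]
    exact ⟨le_rfl, (kA_lt h0 hD' hπ).le⟩)
  have h4 := h2 (kA τ π) (by simp)
  rw [h3] at h4
  exact absurd h4 (by decide)

theorem lab_kN (h0 : τ ∅ ≠ Lab.B) (hD : τ D = Lab.B) (hπ : π ∈ seqs D.card D) :
    τ (pre π (kN τ π)) ≠ Lab.B := by
  intro h
  have h1 : ¬ allB τ π (kN τ π) := by
    rw [allB_iff h0 hD hπ]
    exact lt_irrefl _
  apply h1
  rw [allB_pred (by rw [length_of_mem hπ]; exact kN_lt h0 hD hπ)]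
  exact ⟨h, (allB_iff h0 hD hπ _).2 (Nat.lt_succ_self _)⟩

theorem lab_kA (h0 : τ ∅ = Lab.A) (hD : τ D ≠ Lab.A) (hπ : π ∈ seqs D.card D) :
    τ (pre π (kA τ π + 1)) ≠ Lab.A := by
  intro h
  have h1 : ¬ allA τ π (kA τ π + 1) := by
    rw [allA_iff h0 hD hπ]
    omega
  exact h1 (allA_succ.2 ⟨(allA_iff h0 hD hπ _).2 le_rfl, h⟩)

theorem iA_eq (h0 : τ ∅ = Lab.A) (hD : τ D ≠ Lab.A) (hπ : π ∈ seqs D.card D) (i : ℕ) :
    iA τ π i = if i ≤ kA τ π then 1 else 0 := if_congr (allA_iff h0 hD hπ i) rfl rfl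

theorem iB_eq (h0 : τ ∅ ≠ Lab.B) (hD : τ D = Lab.B) (hπ : π ∈ seqs D.card D) (j : ℕ) :
    iB τ π j = if kN τ π < j then 1 else 0 := if_congr (allB_iff h0 hD hπ j) rfl rfl

theorem iE_ne (h0 : τ ∅ = Lab.A) (hD : τ D ≠ Lab.A) (hπ : π ∈ seqs D.card D) {k : ℕ}
    (hk : k ≠ kA τ π) : iE τ π k = 0 := by
  apply iE_neg
  intro h
  have h1 := (allA_iff h0 hD hπ k).1 h.1
  have h2 : allA τ π (k + 1) := (allA_iff h0 hD hπ _).2 (by omega)
  have h3 := h2 (k + 1) (by simp)
  rw [h.2] at h3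
  exact absurd h3 (by decide)

theorem sum_iE (h0 : τ ∅ = Lab.A) (hD : τ D ≠ Lab.A) (hπ : π ∈ seqs D.card D) {j : ℕ}
    (hj : kA τ π < j) (f : ℕ → ℝ) :
    ∑ k ∈ range j, iE τ π k * f k = iE τ π (kA τ π) * f (kA τ π) := by
  rw [sum_eq_single (kA τ π)]
  · intro k _ hk
    rw [iE_ne h0 hD hπ hk, zero_mul]
  · intro h
    exact absurd (mem_range.2 hj) h

theorem sum_iA (h0 : τ ∅ = Lab.A) (hD : τ D ≠ Lab.A) (hπ : π ∈ seqs D.card D) {j : ℕ}
    (hj : kA τ π < j) (f : ℕ → ℝ) :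
    ∑ i ∈ range j, iA τ π i * f i = ∑ i ∈ range (kA τ π + 1), f i := by
  have h1 : ∑ i ∈ range j, iA τ π i * f i = ∑ i ∈ range j, if i ∈ range (kA τ π + 1) then
      f i else 0 := by
    refine sum_congr rfl fun i _ => ?_
    rw [iA_eq h0 hD hπ]
    by_cases hi : i ≤ kA τ π
    · rw [if_pos hi, if_pos (mem_range.2 (by omega)), one_mul]
    · rw [if_neg hi, if_neg (fun h => hi (by rw [mem_range] at h; omega)), zero_mul]
  rw [h1, sum_ite_mem]
  congr 1
  rw [inter_eq_right, range_subset_range]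
  omega

theorem sum_iB (h0 : τ ∅ ≠ Lab.B) (hD : τ D = Lab.B) (hπ : π ∈ seqs D.card D) (f : ℕ → ℝ) :
    ∑ j ∈ range (D.card + 1), iB τ π j * f j = ∑ j ∈ Ioc (kN τ π) D.card, f j := by
  have h1 : ∑ j ∈ range (D.card + 1), iB τ π j * f j =
      ∑ j ∈ range (D.card + 1), if j ∈ Ioc (kN τ π) D.card then f j else 0 := by
    refine sum_congr rfl fun j hj => ?_
    rw [mem_range, Nat.lt_succ_iff] at hj
    rw [iB_eq h0 hD hπ]
    by_cases hi : kN τ π < j
    · rw [if_pos hi, if_pos (mem_Ioc.2 ⟨hi, hj⟩), one_mul]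
    · rw [if_neg hi, if_neg (fun h => hi (mem_Ioc.1 h).1), zero_mul]
  rw [h1, sum_ite_mem]
  congr 1
  rw [inter_eq_right]
  intro j hj
  rw [mem_Ioc] at hj
  rw [mem_range]
  omega

end path

/-- telescoping sum over the final run -/
theorem tele_Ioc {K l : ℕ} (h : K ≤ l) (F : ℕ → ℝ) :
    ∑ j ∈ Ioc K l, (F j - F (j - 1)) = F l - F K := by
  induction l, h using Nat.le_induction with
  | base => simp
  | succ l hl ih =>
    rw [sum_Ioc_succ_top (by omega), ih, Nat.add_sub_cancel]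
    ring

/-- the sum of the `λ_j` over the final run -/
noncomputable def Lam (K l : ℕ) : ℝ := ∑ j ∈ Ioc K l, lamn j

theorem lamn_eq {j : ℕ} (h : 2 ≤ j) : lamn j = Real.log (j : ℝ) - Real.log ((j - 1 : ℕ) : ℝ) := by
  unfold lamn
  have h1 : (2 : ℝ) ≤ j := by exact_mod_cast h
  rw [Nat.cast_sub (by omega), Nat.cast_one, Real.log_div (by linarith) (by linarith)]

theorem Lam_eq {K l : ℕ} (hK : 1 ≤ K) (h : K ≤ l) : Lam K l = Real.log ((l : ℝ) / (K : ℝ)) := by
  have hK' : (1 : ℝ) ≤ K := by exact_mod_cast hK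
  have hl' : (1 : ℝ) ≤ l := by exact_mod_cast hK.trans h
  have h1 : Lam K l = ∑ j ∈ Ioc K l, ((fun n : ℕ => Real.log (n : ℝ)) j -
      (fun n : ℕ => Real.log (n : ℝ)) (j - 1)) := by
    unfold Lam
    refine sum_congr rfl fun j hj => ?_
    rw [mem_Ioc] at hj
    exact lamn_eq (by omega)
  rw [h1, tele_Ioc h (fun n : ℕ => Real.log (n : ℝ)), Real.log_div (by linarith) (by linarith)]

/-- the sum of the logarithms -/
theorem sum_log_Ioc {K l : ℕ} (h : K ≤ l) :
    ∑ j ∈ Ioc K l, (Real.log (j : ℝ) - Real.log (l : ℝ)) =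
      -∑ j ∈ Ioc K l, lamn j * ((j : ℝ) - 1 - K) := by
  induction l, h using Nat.le_induction with
  | base => simp
  | succ l hl ih =>
    rw [sum_Ioc_succ_top (by omega), sum_Ioc_succ_top (by omega), sub_self, add_zero]
    have h1 : ∑ j ∈ Ioc K l, (Real.log (j : ℝ) - Real.log ((l + 1 : ℕ) : ℝ)) =
        ∑ j ∈ Ioc K l, (Real.log (j : ℝ) - Real.log (l : ℝ)) -
          ((l : ℝ) - K) * (Real.log ((l + 1 : ℕ) : ℝ) - Real.log (l : ℝ)) := by
      have : ((l : ℝ) - K) * (Real.log ((l + 1 : ℕ) : ℝ) - Real.log (l : ℝ)) =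
          ∑ j ∈ Ioc K l, (Real.log ((l + 1 : ℕ) : ℝ) - Real.log (l : ℝ)) := by
        rw [sum_const, Nat.card_Ioc, nsmul_eq_mul, Nat.cast_sub hl]
      rw [this, ← sum_sub_distrib]
      refine sum_congr rfl fun j _ => by ring
    rw [h1, ih]
    rcases Nat.eq_zero_or_pos l with rfl | hl0
    · have : K = 0 := by omega
      subst this
      simp
    · rw [lamn_eq (by omega : 2 ≤ l + 1), Nat.add_sub_cancel]
      push_cast
      ring

/-- the bound on a path -/
noncomputable def lowP (τ : Finset α → Lab) (D : Finset α) (π : List α) : ℝ :=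
  iE τ π (kA τ π) * (((kN τ π : ℝ) - kA τ π) * Lam (kN τ π) D.card) -
    ∑ i ∈ range (kA τ π + 1), (gg D.card (AL τ D (pre π i)).card -
      gg (kN τ π) (AL τ (pre π (kN τ π)) (pre π i)).card)

theorem low_eval {τ : Finset α → Lab} {D : Finset α} {π : List α} (h0 : τ ∅ = Lab.A)
    (hD : τ D = Lab.B) (hπ : π ∈ seqs D.card D) :
    ∑ j ∈ range (D.card + 1), iB τ π j * low τ D.card (pre π j) (π.take j) = lowP τ D π := by
  have hD' : τ D ≠ Lab.A := by rw [hD]; decide
  have h0' : τ ∅ ≠ Lab.B := by rw [h0]; decide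
  have hAN := kA_le_kN h0 hD hπ
  have hNl := kN_lt h0' hD hπ
  rw [sum_iB h0' hD hπ]
  have h1 : ∀ j ∈ Ioc (kN τ π) D.card, low τ D.card (pre π j) (π.take j) =
      iE τ π (kA τ π) * (lamn j * ((j : ℝ) - 1 - kA τ π) +
        (Real.log (j : ℝ) - Real.log (D.card : ℝ))) -
      ∑ i ∈ range (kA τ π + 1),
        ((fun j => gg j (AL τ (pre π j) (pre π i)).card) j -
          (fun j => gg j (AL τ (pre π j) (pre π i)).card) (j - 1)) := by
    intro j hj
    rw [mem_Ioc] at hj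
    have hc : (pre π j).card = j := card_pre_of_mem hπ hj.2
    unfold low
    rw [hc]
    have e1 : ∀ (f : ℕ → ℝ), ∑ k ∈ range j, iE τ (π.take j) k * f k =
        ∑ k ∈ range j, iE τ π k * f k := by
      intro f
      refine sum_congr rfl fun k hk => ?_
      rw [mem_range] at hk
      congr 1
      apply iE_congr
      unfold exE
      rw [allA_take hk.le, pre_take hk]
    have e2 : ∑ k ∈ range j, iE τ (π.take j) k = ∑ k ∈ range j, iE τ π k * 1 := by
      rw [← e1 (fun _ => 1)]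
      simp
    have e3 : ∑ i ∈ range j, iA τ (π.take j) i *
        (gg j (AL τ (pre π j) (pre (π.take j) i)).card -
          gg (j - 1) (AL τ (pre (π.take j) (j - 1)) (pre (π.take j) i)).card) =
        ∑ i ∈ range j, iA τ π i * (gg j (AL τ (pre π j) (pre π i)).card -
          gg (j - 1) (AL τ (pre π (j - 1)) (pre π i)).card) := by
      refine sum_congr rfl fun i hi => ?_
      rw [mem_range] at hi
      have e4 : iA τ (π.take j) i = iA τ π i := iA_congr (allA_take hi.le)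
      rw [e4, pre_take hi.le, pre_take (Nat.sub_le j 1)]
    rw [e1, e2, e3, sum_iE h0 hD' hπ (by omega), sum_iE h0 hD' hπ (by omega),
      sum_iA h0 hD' hπ (by omega)]
    ring
  rw [sum_congr rfl h1, sum_sub_distrib, ← mul_sum, sum_comm]
  unfold lowP
  congr 1
  · congr 1
    rw [sum_add_distrib, sum_log_Ioc hNl.le, ← sub_eq_add_neg, ← sum_sub_distrib]
    unfold Lam
    rw [mul_sum]
    refine sum_congr rfl fun j _ => by ring
  · refine sum_congr rfl fun i _ => ?_
    rw [tele_Ioc hNl.le (fun j => gg j (AL τ (pre π j) (pre π i)).card),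
      pre_card_of_mem hπ le_rfl]

/-- **the T side** -/
theorem T_side_path (τ : Finset α → Lab) (D : Finset α) (ρ : Finset α → α → ℝ)
    (mk : Finset α → Finset α) (h0 : τ ∅ = Lab.A) (hD : τ D = Lab.B) (hmk : ∀ U, mk U = ∅)
    (hρ : ∀ X ⊆ D, ∀ g ∈ D \ X, 0 < ρ X g ∧ ρ X g ≤ 1) :
    Av D (lowP τ D) ≤
    ((D.card : ℝ) + 1) * (SGc (dual τ D) D ρ mk - Real.log (D.card : ℝ) * PEL (dual τ D) D) := by
  refine le_trans (le_of_eq ?_) (T_side τ D ρ mk h0 hmk hρ)
  exact (Av_congr fun π hπ => low_eval h0 hD hπ).symm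

end R5
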